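import Pool.Agent.H8.KF.Defs
import Pool.Agent.H72.ES.Mult

/-! # [KF-MULT] Multiplicity estimate for a family of arbitrary size

Exactly `Pool.Agent.H72.ES.mult` with `Fin 6` replaced by a finite type `ι`, `r0 = card ι`.
Changes: `exists_min_rel` for `ι` (`r ≤ r0`); `size_iter` for `i < r0`:
`L2 (D^i p) ≤ (Q⁴ E)^i (Q E Z)`, `E = d + 3 r0 n` (`(d + i n) + (i+1) n ≤ E`), so all entries are
bounded by `B = (Q⁴ E)^r0 Z`; `det_size`: `L2 det ≤ r! B^r ≤ (r0 B)^r0`, `natDegree det ≤ r0 (r0 n)`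
(entries have `y`-degree `≤ r0 n`); `X^(K+1-(r-1)) ∣ Λ det`, in particular `X^(K-r0)`;
`norm_poly` with `D = r0² n`: `|x1|^(K-r0) ≤ n! (L2 W (Q³)^(r0² n))^n`. -/

namespace Pool.Agent.H8.KF

open Finset Polynomial Pool.Agent.H72.ES

namespace MultGAux

/-- a minimal relation -/
theorem exists_min_rel {ι : Type} [Fintype ι] {M : Type*} [AddCommGroup M]
    (p : ι → M) (h : M) (hh : h ≠ 0) (hM : ∀ (k : ℤ) (v : M), k • v = 0 → k = 0 ∨ v = 0)
    (μ : ι → ℤ) (hμ : h = ∑ m, μ m • p m) :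
    ∃ (r : ℕ) (s : Fin r → ι) (c0 : ℤ) (c : Fin r → ℤ) (l0 : Fin r), r ≤ Fintype.card ι ∧
      c l0 ≠ 0 ∧ c0 • h = ∑ l, c l • p (s l) ∧
      ∀ e : Fin r → ℤ, ∑ l, e l • p (s l) = 0 → e = 0 := by
  classical
  -- the property of finsets
  let P : Finset ι → Prop := fun t => ∃ (c0 : ℤ) (c : ι → ℤ), c0 ≠ 0 ∧
    c0 • h = ∑ l ∈ t, c l • p l
  have hPuniv : P univ := ⟨1, μ, one_ne_zero, by rw [one_smul]; exact hμ⟩
  have hex : ∃ k : ℕ, ∃ t : Finset ι, t.card = k ∧ P t := ⟨_, univ, rfl, hPuniv⟩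
  obtain ⟨t, htc, c0, c, hc0, hrel⟩ := Nat.find_spec hex
  have hmin : ∀ t' : Finset ι, t'.card < t.card → ¬ P t' := by
    intro t' ht' hP'
    rw [htc] at ht'
    exact Nat.find_min hex ht' ⟨t', rfl, hP'⟩
  have hind : ∀ e : ι → ℤ, ∑ l ∈ t, e l • p l = 0 → ∀ l ∈ t, e l = 0 := by
    intro e he l1 hl1
    by_contra hne
    apply hmin (t.erase l1) (card_erase_lt_of_mem hl1)
    refine ⟨e l1 * c0, fun l => e l1 * c l - c l1 * e l, mul_ne_zero hne hc0, ?_⟩
    have h1 : ∑ l ∈ t, (e l1 * c l - c l1 * e l) • p l = (e l1 * c0) • h := by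
      simp only [sub_smul, mul_smul, sum_sub_distrib]
      rw [← smul_sum, ← smul_sum, he, smul_zero, sub_zero, ← hrel]
    rw [← h1, ← add_sum_erase t _ hl1]
    rw [show e l1 * c l1 - c l1 * e l1 = 0 by ring, zero_smul, zero_add]
  have hne0 : ∃ l ∈ t, c l ≠ 0 := by
    by_contra hcon
    push Not at hcon
    rw [sum_eq_zero (fun l hl => by rw [hcon l hl, zero_smul])] at hrel
    rcases hM c0 h hrel with h1 | h1
    · exact hc0 h1
    · exact hh h1
  obtain ⟨l1, hl1, hcl1⟩ := hne0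
  refine ⟨t.card, fun i => (t.equivFin.symm i : ι), c0, fun i => c (t.equivFin.symm i),
    t.equivFin ⟨l1, hl1⟩, ?_, ?_, ?_, ?_⟩
  · exact card_le_univ t
  · show c (t.equivFin.symm (t.equivFin ⟨l1, hl1⟩)) ≠ 0
    rw [Equiv.symm_apply_apply]; exact hcl1
  · rw [hrel, ← sum_coe_sort t (fun l => c l • p l)]
    exact (Equiv.sum_comp t.equivFin.symm (fun l : t => c l • p l)).symm
  · intro e he
    have h1 : ∑ l ∈ t, (if hl : l ∈ t then e (t.equivFin ⟨l, hl⟩) else 0) • p l = 0 := by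
      rw [← he, ← sum_coe_sort t
        (fun l => (if hl : l ∈ t then e (t.equivFin ⟨l, hl⟩) else 0) • p l)]
      rw [← Equiv.sum_comp t.equivFin.symm]
      refine sum_congr rfl fun i _ => ?_
      rw [dif_pos (t.equivFin.symm i).2, Subtype.coe_eta, Equiv.apply_symm_apply]
    funext i
    have h2 := hind _ h1 (t.equivFin.symm i) (t.equivFin.symm i).2
    simpa using h2

theorem toP_sum {ι : Type} [Fintype ι] (d : ℕ) (A : ι → ℕ → ℕ → ℤ) (μ : ι → ℤ) :
    toP d (fun i j => ∑ m, μ m * A m i j) = ∑ m, μ m • toP d (A m) := by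
  ext j i
  rw [MultAux.toP_coeffM, finsetSum_coeff, finsetSum_coeff]
  simp only [coeff_smul, MultAux.toP_coeffM]
  split_ifs with h
  · simp
  · simp

theorem size_iter {n Q : ℕ} {f : ℤ[X]} {F : ℕ → ℕ → ℤ} (hF : Norml n Q f F) (d : ℕ)
    (p : ℤ[X][X]) (hp1 : p.natDegree < n) (hp2 : ∀ j, (p.coeff j).natDegree ≤ d) (Z : ℝ)
    (hZ : L2 p ≤ (d + 1) * n * Z) (hZ0 : 1 ≤ Z) (r0 : ℕ) (hr0 : 1 ≤ r0) (i : ℕ) (hi : i < r0) :
    ((Dop (toP n F))^[i] p).natDegree ≤ (i + 1) * n ∧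
    (∀ j, (((Dop (toP n F))^[i] p).coeff j).natDegree ≤ d + i * n) ∧
    L2 ((Dop (toP n F))^[i] p) ≤
      ((Q : ℝ) ^ 4 * (d + 3 * r0 * n)) ^ i * (Q * (d + 3 * r0 * n) * Z) := by
  have hn := hF.hn
  have hQ := hF.hQ
  have hQ1 := one_le_QR hn hQ
  have hnQ := n_leR hn hQ
  have hn4 : (4 : ℝ) ≤ n := by exact_mod_cast hn
  have hr1 : (1 : ℝ) ≤ r0 := by exact_mod_cast hr0
  have hd0 : (0 : ℝ) ≤ d := Nat.cast_nonneg d
  have hrn : (4 : ℝ) ≤ r0 * n := by nlinarith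
  have hE1 : ((d : ℝ) + 1) ≤ d + 3 * r0 * n := by nlinarith
  have hE0 : (0 : ℝ) ≤ d + 3 * r0 * n := by linarith
  have hFd : (toP n F).natDegree ≤ n := MultAux.toP_natDegree_le n n F (fun i j _ h => by omega)
  have hFx : ∀ j, ((toP n F).coeff j).natDegree ≤ n := MultAux.toP_coeff_natDegree_le n F
  have hFL : L2 (toP n F) ≤ (Q : ℝ) ^ 3 := by
    rw [MultAux.toP_ext n F (fun i j => if i + j ≤ n then F i j else 0)
      (fun i j h => by simp only [h, if_pos])]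
    have h1 := L2_toP_le n n (fun i j => if i + j ≤ n then F i j else 0) Q (by
      intro i j
      split_ifs with h
      · exact_mod_cast hF.bound i j h
      · simp) (by
      intro i j h
      split_ifs at h with h'
      · omega
      · exact absurd rfl h)
    refine h1.trans ?_
    have h2 := n_add_one_leR hn hQ
    calc ((n : ℝ) + 1) * (n + 1) * Q ≤ Q * Q * Q := by gcongr
      _ = (Q : ℝ) ^ 3 := by ring
  induction i with
  | zero =>
    refine ⟨?_, ?_, ?_⟩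
    · simp only [Function.iterate_zero, id]; omega
    · intro j; simp only [Function.iterate_zero, id]; have := hp2 j; omega
    · simp only [Function.iterate_zero, id, pow_zero, one_mul]
      refine hZ.trans ?_
      calc ((d : ℝ) + 1) * n * Z ≤ (d + 3 * r0 * n) * Q * Z := by gcongr
        _ = Q * (d + 3 * r0 * n) * Z := by ring
  | succ i ih =>
    obtain ⟨h1, h2, h3⟩ := ih (by omega)
    obtain ⟨g1, g2, g3⟩ := Dop_bound (toP n F) ((Dop (toP n F))^[i] p) hFd hFx (d + i * n) h2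
    rw [Function.iterate_succ_apply']
    refine ⟨g2.trans ?_, fun j => (g1 j).trans (le_of_eq (by ring)), g3.trans ?_⟩
    · calc ((Dop (toP n F))^[i] p).natDegree + n ≤ (i + 1) * n + n := by omega
        _ = (i + 1 + 1) * n := by ring
    · have h4 : (((d + i * n : ℕ) : ℝ) + (((Dop (toP n F))^[i] p).natDegree : ℝ)) ≤
          d + 3 * r0 * n := by
        have h5 : (((Dop (toP n F))^[i] p).natDegree : ℝ) ≤ (i + 1) * n := by exact_mod_cast h1
        have h6 : (i : ℝ) + 1 ≤ r0 := by exact_mod_cast (by omega : i + 1 ≤ r0)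
        have h7 : ((i : ℝ) + 1) * n ≤ r0 * n := by gcongr
        push_cast
        nlinarith
      have h7 : 0 ≤ L2 ((Dop (toP n F))^[i] p) := L2_nonneg _
      have h8 : 0 ≤ L2 (toP n F) := L2_nonneg _
      calc (n : ℝ) * L2 (toP n F) * (((d + i * n : ℕ) : ℝ) +
            (((Dop (toP n F))^[i] p).natDegree : ℝ)) * L2 ((Dop (toP n F))^[i] p)
          ≤ Q * (Q : ℝ) ^ 3 * (d + 3 * r0 * n) *
            (((Q : ℝ) ^ 4 * (d + 3 * r0 * n)) ^ i * (Q * (d + 3 * r0 * n) * Z)) := by gcongr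
        _ = ((Q : ℝ) ^ 4 * (d + 3 * r0 * n)) ^ (i + 1) * (Q * (d + 3 * r0 * n) * Z) := by ring

/-- `ℓ¹` norm and degree of a determinant -/
theorem det_size {r r0 : ℕ} (hr : r ≤ r0) (M : Matrix (Fin r) (Fin r) ℤ[X][X]) (B : ℝ)
    (hB : 1 ≤ B) (hM : ∀ i l, L2 (M i l) ≤ B) (E : ℕ) (hE : ∀ i l, (M i l).natDegree ≤ E) :
    L2 M.det ≤ (r0 : ℝ) ^ r0 * B ^ r0 ∧ M.det.natDegree ≤ r0 * E := by
  classical
  rw [Matrix.det_apply]
  constructor
  · refine (L2_sum_le _ _).trans ?_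
    have h1 : ∀ σ ∈ (univ : Finset (Equiv.Perm (Fin r))),
        L2 (Equiv.Perm.sign σ • ∏ i, M (σ i) i) ≤ B ^ r0 := by
      intro σ _
      have h2 : L2 (Equiv.Perm.sign σ • ∏ i, M (σ i) i) = L2 (∏ i, M (σ i) i) := by
        rcases Int.units_eq_one_or (Equiv.Perm.sign σ) with h | h
        · rw [h, one_smul]
        · rw [h, Units.neg_smul, one_smul, L2_neg]
      rw [h2]
      calc L2 (∏ i, M (σ i) i) ≤ ∏ i, L2 (M (σ i) i) := L2_prod_le _ _
        _ ≤ ∏ _i : Fin r, B := prod_le_prod (fun _ _ => L2_nonneg _) (fun i _ => hM _ _)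
        _ = B ^ r := by rw [prod_const, card_univ, Fintype.card_fin]
        _ ≤ B ^ r0 := pow_le_pow_right₀ hB hr
    refine (sum_le_sum h1).trans ?_
    rw [sum_const, card_univ, Fintype.card_perm, Fintype.card_fin, nsmul_eq_mul]
    have h3 : (r.factorial : ℝ) ≤ (r0 : ℝ) ^ r0 := by
      have h4 := Nat.factorial_le hr
      have h5 := Nat.factorial_le_pow r0
      exact_mod_cast h4.trans h5
    exact mul_le_mul_of_nonneg_right h3 (by positivity)
  · refine natDegree_sum_le_of_forall_le _ _ fun σ _ => ?_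
    have h2 : (Equiv.Perm.sign σ • ∏ i, M (σ i) i).natDegree = (∏ i, M (σ i) i).natDegree := by
      rcases Int.units_eq_one_or (Equiv.Perm.sign σ) with h | h
      · rw [h, one_smul]
      · rw [h, Units.neg_smul, one_smul, natDegree_neg]
    rw [h2]
    refine (natDegree_prod_le _ _).trans ?_
    calc ∑ i, (M (σ i) i).natDegree ≤ ∑ _i : Fin r, E := sum_le_sum fun i _ => hE _ _
      _ = r * E := by rw [sum_const, card_univ, Fintype.card_fin, smul_eq_mul]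
      _ ≤ r0 * E := Nat.mul_le_mul_right E hr

end MultGAux

open MultGAux MultAux in
theorem multG {n Q : ℕ} {f : ℤ[X]} {F : ℕ → ℕ → ℤ} (hF : Norml n Q f F) (hf : Irreducible f)
    (x1 y1 : ℤ) (hx1 : x1 ≠ 0) (hκ : evy n F x1 y1 ≠ 0) (Y : PowerSeries ℤ)
    (hY0 : PowerSeries.constantCoeff Y = y1)
    (hY : ev n (cst (PowerSeries ℤ) F) (xs x1 (evy n F x1 y1 ^ 2)) Y = 0) (d : ℕ)
    {ι : Type} [Fintype ι] (r0 : ℕ) (hr0 : Fintype.card ι = r0)
    (A : ι → ℕ → ℕ → ℤ) (hA : ∀ m i j, A m i j ≠ 0 → i + j ≤ d ∧ j < n) (Z : ℝ)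
    (hZ : ∀ m i j, |((A m i j : ℤ) : ℝ)| ≤ Z) (μ : ι → ℤ)
    (hne : ∃ i j, ∑ m, μ m * A m i j ≠ 0) (K : ℕ)
    (hvan : ∀ k ≤ K, PowerSeries.coeff k (ev d
      (cst (PowerSeries ℤ) (fun i j => ∑ m, μ m * A m i j)) (xs x1 (evy n F x1 y1 ^ 2)) Y) = 0) :
    |(x1 : ℝ)| ^ (K - r0) ≤ ((n : ℝ) * ((r0 : ℝ) ^ r0 *
      (((Q : ℝ) ^ 4 * ((d : ℝ) + 3 * r0 * n)) ^ r0 * Z) ^ r0 * ((Q : ℝ) ^ 3) ^ (r0 ^ 2 * n))) ^ n := by
  classical
  have hn := hF.hn
  have hQ := hF.hQ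
  have hQ1 := one_le_QR hn hQ
  have hnQ := n_leR hn hQ
  have hn4 : (4 : ℝ) ≤ n := by exact_mod_cast hn
  have hd0 : (0 : ℝ) ≤ d := Nat.cast_nonneg d
  set κ : ℤ := evy n F x1 y1 ^ 2 with hκdef
  have hκ0 : κ ≠ 0 := pow_ne_zero 2 hκ
  set Λ := Lam (xs x1 κ) Y with hΛ
  set Fp := toP n F with hFp
  have hFΛ : Λ Fp = 0 := by rw [hΛ, hFp, Lam_toP]; exact hY
  -- `Z ≥ 1`
  obtain ⟨i0, j0, hij⟩ := hne
  obtain ⟨m0, -, hm0⟩ := exists_ne_zero_of_sum_ne_zero hij
  have hAm0 : A m0 i0 j0 ≠ 0 := fun h => hm0 (by rw [h, mul_zero])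
  have hZ1 : 1 ≤ Z := by
    have h1 : (1 : ℝ) ≤ |((A m0 i0 j0 : ℤ) : ℝ)| := by exact_mod_cast Int.one_le_abs hAm0
    exact h1.trans (hZ _ _ _)
  set h : ℤ[X][X] := toP d (fun i j => ∑ m, μ m * A m i j) with hh
  have hh0 : h ≠ 0 := by
    intro h0
    have h1 := toP_coeffM d (fun i j => ∑ m, μ m * A m i j) i0 j0
    rw [← hh, h0, coeff_zero, coeff_zero, if_pos (hA m0 i0 j0 hAm0).1] at h1
    exact hij h1.symm
  obtain ⟨r, s, c0, c, l0, hr, hcl0, hrel, hindep⟩ :=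
    MultGAux.exists_min_rel (fun m => toP d (A m)) h hh0
    (fun k v hkv => by
      rcases smul_eq_zero.mp hkv with h | h
      · exact Or.inl h
      · exact Or.inr h) μ (MultGAux.toP_sum d A μ)
  rw [hr0] at hr
  have hr01 : 1 ≤ r0 := by have := l0.2; omega
  have hp_deg : ∀ m, (toP d (A m)).natDegree < n := by
    intro m
    have := toP_natDegree_le d (n - 1) (A m) (fun i j hne' _ => by have := (hA m i j hne').2; omega)
    omega
  have hp_L2 : ∀ m, L2 (toP d (A m)) ≤ (d + 1) * n * Z := by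
    intro m
    have h1 := L2_toP_le d (n - 1) (A m) Z (hZ m) (fun i j hne' => by
      have := hA m i j hne'; omega)
    have h2 : (((n - 1 : ℕ) : ℝ) + 1) = n := by
      rw [Nat.cast_sub (by omega)]; push_cast; ring
    rw [h2] at h1
    exact h1
  set D := Dop Fp with hD
  set a : ℕ → Fin r → PowerSeries ℤ := fun i l => Λ (D^[i] (toP d (A (s l)))) with ha
  set g : PowerSeries ℤ := Λ (derivative Fp) with hg
  have hgc : PowerSeries.constantCoeff g ≠ 0 := by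
    rw [hg, hΛ, Lam_hom, hY0]
    have h1 : PowerSeries.constantCoeff (xs x1 κ) = x1 := by simp [xs]
    rw [h1, hFp, Lam_deriv_toP]
    exact hκ
  have hstep : ∀ p : ℤ[X][X], PowerSeries.C κ * Λ (D p) = g * PowerSeries.derivative ℤ (Λ p) :=
    fun p => Dop_chain x1 κ Y Fp hFΛ p
  have hW0 : (Matrix.of fun (i l : Fin r) => a i l).det ≠ 0 := by
    apply wronsk κ hκ0 g hgc a
    · intro i l
      simp only [ha]
      rw [Function.iterate_succ_apply']
      exact hstep _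
    · intro e he
      apply hindep
      by_contra hcon
      refine inj hF hf x1 κ hx1 hκ0 Y hFΛ _ hcon ?_ ?_
      · refine lt_of_le_of_lt (natDegree_sum_le_of_forall_le (n := n - 1) _ _ fun l _ => ?_)
          (by omega)
        have h1 := natDegree_smul_le (e l) (toP d (A (s l)))
        have h2 := hp_deg (s l)
        omega
      · rw [map_sum, ← he]
        refine sum_congr rfl fun l _ => ?_
        rw [map_zsmul, zsmul_eq_mul]
        simp only [ha, Function.iterate_zero, id]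
        congr 1
        simp
  set M : Matrix (Fin r) (Fin r) ℤ[X][X] := Matrix.of fun i l => D^[(i : ℕ)] (toP d (A (s l)))
    with hM
  set W := M.det with hWdef
  have hΛW : Λ W = (Matrix.of fun (i l : Fin r) => a i l).det := by
    rw [hWdef, RingHom.map_det]
    rfl
  have hW : Λ W ≠ 0 := by rw [hΛW]; exact hW0
  -- vanishing
  have hvan0 : (PowerSeries.X : PowerSeries ℤ) ^ (K + 1) ∣ Λ h := by
    rw [PowerSeries.X_pow_dvd_iff]
    intro k hk
    rw [hΛ, hh, Lam_toP]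
    exact hvan k (by omega)
  have hvanD : ∀ i : ℕ, (PowerSeries.X : PowerSeries ℤ) ^ (K + 1 - i) ∣ Λ (D^[i] h) := by
    intro i
    induction i with
    | zero => simpa using hvan0
    | succ i ih =>
      rcases Nat.lt_or_ge i (K + 1) with hi | hi
      · rw [Function.iterate_succ_apply']
        refine order_drop κ hκ0 g (Λ (D^[i] h)) _ (hstep _) (K + 1 - (i + 1)) ?_
        rw [show K + 1 - (i + 1) + 1 = K + 1 - i by omega]
        exact ih
      · rw [show K + 1 - (i + 1) = 0 by omega, pow_zero]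
        exact one_dvd _
  have hdvdW : (PowerSeries.X : PowerSeries ℤ) ^ (K - r0) ∣ Λ W := by
    have h1 : ∀ i : Fin r, ∃ u : PowerSeries ℤ, Λ (c0 • D^[(i : ℕ)] h) =
        (PowerSeries.X : PowerSeries ℤ) ^ (K - r0) * u := by
      intro i
      have h2 : (PowerSeries.X : PowerSeries ℤ) ^ (K - r0) ∣ Λ (D^[(i : ℕ)] h) := by
        refine dvd_trans (pow_dvd_pow _ ?_) (hvanD i)
        have := i.2
        omega
      obtain ⟨u, hu⟩ := h2
      refine ⟨c0 • u, ?_⟩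
      rw [map_zsmul, hu, mul_smul_comm]
    choose u hu using h1
    have h3 : c l0 • W = (M.updateCol l0 (fun (i : Fin r) => c0 • D^[(i : ℕ)] h)).det := by
      have h4 := Matrix.det_updateCol_sum M l0 (fun l => ((c l : ℤ) : ℤ[X][X]))
      have h5 : (fun k => ∑ l, ((c l : ℤ) : ℤ[X][X]) • M k l) =
          (fun (i : Fin r) => c0 • D^[(i : ℕ)] h) := by
        funext i
        rw [← iter_Dop_smul, hrel, iter_Dop_sum]
        refine sum_congr rfl fun l _ => ?_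
        rw [hM, Matrix.of_apply, smul_eq_mul, zsmul_eq_mul]
      rw [h5] at h4
      rw [h4, smul_eq_mul, zsmul_eq_mul]
    have h6 : Λ (c l0 • W) = (PowerSeries.X : PowerSeries ℤ) ^ (K - r0) *
        ((M.map Λ).updateCol l0 u).det := by
      rw [h3, RingHom.map_det, ← Matrix.det_updateCol_smul]
      congr 1
      ext i l
      rw [RingHom.mapMatrix_apply, Matrix.map_apply, Matrix.updateCol_apply,
        Matrix.updateCol_apply]
      split_ifs with hl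
      · rw [hu i]; rfl
      · rfl
    rw [PowerSeries.X_pow_dvd_iff]
    intro k hk
    have h7 : (PowerSeries.X : PowerSeries ℤ) ^ (K - r0) ∣ Λ (c l0 • W) := by
      rw [h6]; exact dvd_mul_right _ _
    rw [PowerSeries.X_pow_dvd_iff] at h7
    have h8 := h7 k hk
    rw [map_zsmul, map_zsmul, smul_eq_mul] at h8
    rcases mul_eq_zero.mp h8 with h9 | h9
    · exact absurd h9 hcl0
    · exact h9
  -- sizes
  set E : ℝ := (d : ℝ) + 3 * r0 * n with hE
  set B : ℝ := ((Q : ℝ) ^ 4 * E) ^ r0 * Z with hB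
  have hr1 : (1 : ℝ) ≤ r0 := by exact_mod_cast hr01
  have hrn : (4 : ℝ) ≤ r0 * n := by nlinarith
  have hE1 : (1 : ℝ) ≤ E := by rw [hE]; nlinarith
  have hQE : (1 : ℝ) ≤ (Q : ℝ) ^ 4 * E := by
    have h5 : (1 : ℝ) ≤ (Q : ℝ) ^ 4 := one_le_pow₀ hQ1
    calc (1 : ℝ) = 1 * 1 := by norm_num
      _ ≤ _ := by gcongr
  have hB1 : 1 ≤ B := by
    rw [hB]
    have h1 : (1 : ℝ) ≤ ((Q : ℝ) ^ 4 * E) ^ r0 := one_le_pow₀ hQE
    calc (1 : ℝ) = 1 * 1 := by norm_num
      _ ≤ _ := by gcongr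
  have hsize : ∀ i l : Fin r, L2 (M i l) ≤ B ∧ (M i l).natDegree ≤ r0 * n := by
    intro i l
    have hi : (i : ℕ) < r0 := by have := i.2; omega
    obtain ⟨h1, -, h3⟩ := MultGAux.size_iter hF d (toP d (A (s l))) (hp_deg _)
      (toP_coeff_natDegree_le d _) Z (hp_L2 _) hZ1 r0 hr01 i hi
    refine ⟨h3.trans ?_, h1.trans ?_⟩
    · have hQ4 : (Q : ℝ) ≤ (Q : ℝ) ^ 4 := by
        calc (Q : ℝ) = (Q : ℝ) ^ 1 := (pow_one _).symm
          _ ≤ (Q : ℝ) ^ 4 := pow_le_pow_right₀ hQ1 (by norm_num)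
      obtain ⟨t, ht⟩ : ∃ t, r0 = t + 1 := ⟨r0 - 1, by omega⟩
      calc ((Q : ℝ) ^ 4 * E) ^ (i : ℕ) * (Q * E * Z)
          ≤ ((Q : ℝ) ^ 4 * E) ^ t * ((Q : ℝ) ^ 4 * E * Z) := by
            have := pow_le_pow_right₀ hQE (show (i : ℕ) ≤ t by omega)
            gcongr
        _ = B := by rw [hB, ht, pow_succ]; ring
    · exact Nat.mul_le_mul_right n (by omega)
  obtain ⟨hWL, hWd⟩ := MultGAux.det_size hr M B hB1 (fun i l => (hsize i l).1) (r0 * n)
    (fun i l => (hsize i l).2)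
  obtain ⟨N, hN0, hNL, hNd⟩ := norm_poly hF hf x1 κ hx1 hκ0 Y hFΛ W hW (r0 ^ 2 * n)
    (by
      rw [← hWdef] at hWd
      refine hWd.trans (le_of_eq ?_)
      ring)
  have hlow := low N hN0 x1 κ hx1 hκ0 (K - r0) (hdvdW.trans hNd)
  refine hlow.trans (hNL.trans ?_)
  rw [← hWdef] at hWL
  have hfac : (n.factorial : ℝ) ≤ (n : ℝ) ^ n := by exact_mod_cast Nat.factorial_le_pow n
  have hWn : 0 ≤ L2 W := L2_nonneg _
  calc (n.factorial : ℝ) * (L2 W * ((Q : ℝ) ^ 3) ^ (r0 ^ 2 * n)) ^ n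
      ≤ (n : ℝ) ^ n * (((r0 : ℝ) ^ r0 * B ^ r0) * ((Q : ℝ) ^ 3) ^ (r0 ^ 2 * n)) ^ n := by gcongr
    _ = (n * (((r0 : ℝ) ^ r0 * B ^ r0) * ((Q : ℝ) ^ 3) ^ (r0 ^ 2 * n))) ^ n :=
        (mul_pow _ _ _).symm

end Pool.Agent.H8.KF
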