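import Pool.Agent.H8.KF.Defs
import Pool.Agent.H72.ES.Norm

/-! # [KF-ORDG] An order generated by `α`

The structure `O` constructed in `Pool.Agent.H72.ES.exists_ord` (copy that proof): `O.R =
AdjoinRoot f`, `ν = nrmN B` with the power basis `B`. For a ring `S` with a root `s` of `f` let
`J = AdjoinRoot.lift (Int.castRingHom S) s _`. If `ν` is submultiplicative on `S`, `ν s ≤ ρ`,
`1 ≤ ρ`, then for `a = ∑ c_i α^i` (`B.sum_repr`, `B i = root^i`)
`ν (J a) ≤ ∑ |c_i| ρ^i ≤ ρ^n nrmL B a ≤ ρ^n nrmN B a` (`nrmL_le_self`; `ν (m : S) ≤ |m|` follows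
from `SubMul.one`, `add`, `neg`). `ψ ∘ J = O.φ` if `ψ s = θ` (`AdjoinRoot` ring hom extensionality:
both are determined by the image of the root, `RingHom.ext_int`). -/

namespace Pool.Agent.H8.KF

open Finset Polynomial Pool.Agent.H72.ES

theorem SubMul_nat {S : Type} [CommRing S] {ν : S → ℝ} (h : SubMul ν) (m : ℕ) :
    ν (m : S) ≤ m := by
  induction m with
  | zero => simp [h.zero]
  | succ k ih =>
    rw [Nat.cast_succ]
    push_cast
    exact (h.add _ _).trans (add_le_add ih h.one)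

theorem SubMul_int {S : Type} [CommRing S] {ν : S → ℝ} (h : SubMul ν) (m : ℤ) :
    ν (m : S) ≤ |(m : ℝ)| := by
  obtain ⟨k, rfl | rfl⟩ := m.eq_nat_or_neg
  · simpa using SubMul_nat h k
  · rw [Int.cast_neg, h.neg]
    simpa using SubMul_nat h k

theorem SubMul_sum {S : Type} [CommRing S] {ν : S → ℝ} (h : SubMul ν) {ι : Type*} (s : Finset ι)
    (g : ι → S) : ν (∑ i ∈ s, g i) ≤ ∑ i ∈ s, ν (g i) := by
  classical
  induction s using Finset.induction_on with
  | empty => simp [h.zero]
  | insert a s ha ih =>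
    rw [Finset.sum_insert ha, Finset.sum_insert ha]
    exact (h.add _ _).trans (by linarith)

theorem SubMul_pow {S : Type} [CommRing S] {ν : S → ℝ} (h : SubMul ν) {s : S} {ρ : ℝ}
    (hρ : 1 ≤ ρ) (hs : ν s ≤ ρ) (i : ℕ) : ν (s ^ i) ≤ ρ ^ i := by
  induction i with
  | zero => simpa using h.one
  | succ k ih =>
    rw [pow_succ, pow_succ]
    exact (h.mul _ _).trans (mul_le_mul ih hs (h.nonneg _) (by positivity))

theorem exists_ord_gen {n Q : ℕ} {f : ℤ[X]} (hn : 4 ≤ n) (hQ : 2 ^ n ≤ Q)
    (hm : f.Monic) (hd : f.natDegree = n) (hc : ∀ j, |f.coeff j| ≤ (Q : ℤ))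
    (hf : Irreducible f) (θ : ℝ) (hθ : aeval θ f = 0) :
    ∃ O : Ord ℝ n Q f θ, ∀ (S : Type) [CommRing S] (s : S), aeval s f = 0 →
      ∃ J : O.R →+* S,
        (∀ (ν : S → ℝ), SubMul ν → ∀ ρ : ℝ, 1 ≤ ρ → ν s ≤ ρ → ∀ a, ν (J a) ≤ ρ ^ n * O.ν a) ∧
        (∀ ψ : S →+* ℝ, ψ s = θ → ∀ a, ψ (J a) = O.φ a) := by
  subst hd
  have hprime : Prime f := hf.prime
  have : IsDomain (AdjoinRoot f) := AdjoinRoot.isDomain_of_prime hprime
  have : NeZero f.natDegree := ⟨by omega⟩
  let B : Module.Basis (Fin f.natDegree) ℤ (AdjoinRoot f) := (AdjoinRoot.powerBasis' hm).basis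
  have hB : ∀ i, B i = AdjoinRoot.root f ^ (i : ℕ) := by
    intro i
    have h := congrFun (AdjoinRoot.powerBasis' hm).coe_basis i
    rw [AdjoinRoot.powerBasis'_gen] at h
    exact h
  have hroot : aeval (AdjoinRoot.root f) f = 0 := by
    rw [AdjoinRoot.aeval_eq, AdjoinRoot.mk_self]
  have hθ' : eval₂ (Int.castRingHom ℝ) θ f = 0 := by
    rw [aeval_def] at hθ
    exact hθ
  have hQ1 : 1 ≤ Q := le_trans Nat.one_le_two_pow hQ
  have hα := nrmN_α B (AdjoinRoot.root f) hB hQ1 hm rfl hc hroot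
  refine ⟨{ R := AdjoinRoot f
            α := AdjoinRoot.root f
            ν := nrmN B
            coord := B.equivFun.toLinearMap.toAddMonoidHom
            φ := AdjoinRoot.lift (Int.castRingHom ℝ) θ hθ'
            root := hroot
            ν_nonneg := nrmN_nonneg B
            ν_zero := nrmN_zero B
            ν_neg := nrmN_neg B
            ν_add := nrmN_add B
            ν_mul := nrmN_mul B
            ν_int := nrmN_int B
            ν_α := hα
            coord_inj := B.equivFun.injective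
            coord_le := fun a k => (abs_le_nrmL B a k).trans
              (nrmL_le_self B (AdjoinRoot.root f) hB a)
            φ_α := AdjoinRoot.lift_root hθ'
            φ_le := nrm_phi_le B (AdjoinRoot.root f) hB _
            liouville := fun a ha => nrm_liouville B (AdjoinRoot.root f) hB _ hn hQ hα ha
            indep := by
              intro p hp h0
              have h1 : aeval (AdjoinRoot.root f) p = 0 := h0
              rw [AdjoinRoot.aeval_eq, AdjoinRoot.mk_eq_zero] at h1
              exact Polynomial.eq_zero_of_dvd_of_natDegree_lt h1 hp }, ?_⟩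
  intro S _ s hs
  have hs' : eval₂ (Int.castRingHom S) s f = 0 := by
    rw [aeval_def] at hs
    exact hs
  refine ⟨AdjoinRoot.lift (Int.castRingHom S) s hs', ?_, ?_⟩
  · intro ν hν ρ hρ hsρ a
    change ν (AdjoinRoot.lift (Int.castRingHom S) s hs' a) ≤ ρ ^ f.natDegree * nrmN B a
    have h1 : AdjoinRoot.lift (Int.castRingHom S) s hs' a =
        ∑ i, ((B.repr a i : ℤ) : S) * s ^ (i : ℕ) := by
      conv_lhs => rw [← B.sum_repr a]
      rw [map_sum]
      refine Finset.sum_congr rfl fun i _ => ?_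
      rw [zsmul_eq_mul, map_mul, map_intCast, hB i, map_pow, AdjoinRoot.lift_root]
    rw [h1]
    have hρ0 : (0 : ℝ) ≤ ρ := by linarith
    calc ν (∑ i, ((B.repr a i : ℤ) : S) * s ^ (i : ℕ))
        ≤ ∑ i, ν (((B.repr a i : ℤ) : S) * s ^ (i : ℕ)) := SubMul_sum hν _ _
      _ ≤ ∑ i : Fin f.natDegree, |((B.repr a i : ℤ) : ℝ)| * ρ ^ f.natDegree := by
          refine Finset.sum_le_sum fun i _ => ?_
          refine (hν.mul _ _).trans ?_
          refine mul_le_mul (SubMul_int hν _) ?_ (hν.nonneg _) (abs_nonneg _)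
          refine (SubMul_pow hν hρ hsρ _).trans ?_
          exact pow_le_pow_right₀ hρ i.2.le
      _ = ρ ^ f.natDegree * nrmL B a := by
          rw [← Finset.sum_mul, mul_comm]
          rfl
      _ ≤ ρ ^ f.natDegree * nrmN B a :=
          mul_le_mul_of_nonneg_left (nrmL_le_self B (AdjoinRoot.root f) hB a) (by positivity)
  · intro ψ hψ a
    change ψ (AdjoinRoot.lift (Int.castRingHom S) s hs' a) =
      AdjoinRoot.lift (Int.castRingHom ℝ) θ hθ' a
    induction a using AdjoinRoot.induction_on with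
    | ih p =>
      have h1 : ψ.comp (Int.castRingHom S) = Int.castRingHom ℝ := RingHom.ext_int _ _
      rw [AdjoinRoot.lift_mk, AdjoinRoot.lift_mk, Polynomial.hom_eval₂, hψ, h1]

end Pool.Agent.H8.KF
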