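import Pool.Agent.H8.KF.SmallReal

/-! # [KF-ST1] The expansion coefficients along the first branch, at the second point

Fix `k < TT`. `c p q = ∑_{i,j} A i j p q * O1.φ (bc O1 br1 (3 n la) i j k)`: zero unless
`p + q ≤ 3n`, `q < n`, and `|c p q| ≤ M := n (3 n la + 1) Z b1^(1+2k)` (at most `n (3 n la + 1)`
nonzero terms, `bc_bound`, `O.φ_le`). Its expansion coefficients along the second branch of index
`l < L := (TT - k + la - 1) / la` vanish (`hv`, as `k + la l < TT`). Apply `small_real` to the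
second curve with the CONSTANT series `t = C (1/x2)`, `z = C (y2/x2)`, `ρ = 1`, `τ = 1/|x2|`,
`T = L`, `m = 0`, `K = 0`: the value is at most `(3n+1) M b2⁴ (b2⁴/|x2|)^L`. Here
`|x2|^L ≥ X^(la L) ≥ X^(TT-k)` and `L ≤ 6n+1` (`TT ≤ (6n+1) la` as `la ≥ 8n`), so
`value * X^(TT-k) ≤ (3n+1) M b2^(4+4(6n+1)) ≤ Z b1^(la+2k) b2^(26n)`, using
`(3n+1) n (3 n la+1) b1 ≤ b1^la`. -/

namespace Pool.Agent.H8.KF

open Finset Polynomial Pool.Agent.H72.ES

variable {n Q1 Q2 : ℕ} {f1 f2 : ℤ[X]} {θ1 θ2 : ℝ}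

theorem st1_TT {n la : ℕ} (hn : 4 ≤ n) (hla : 8 * n ≤ la) : TT n la ≤ (6 * n + 1) * la := by
  unfold TT ee
  have h1 : 2 * (la / 2) ≤ la := Nat.mul_div_le la 2
  have h2 : (6 * n + 1) * la = 6 * n * la + la := by ring
  rw [h2]
  omega

/-- swapping the two double sums -/
theorem st1_swap (d1 d2 : ℕ) (A : ℕ → ℕ → ℕ → ℕ → ℤ) (u v : ℕ → ℕ → ℝ) :
    ∑ p ∈ range (d2 + 1), ∑ q ∈ range (d2 + 1 - p),
      (∑ i ∈ range (d1 + 1), ∑ j ∈ range (d1 + 1 - i), ((A i j p q : ℤ) : ℝ) * u i j) * v p q =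
    sm d1 d2 A u v := by
  unfold sm
  rw [sum_sigma', sum_sigma']
  have h1 : ∀ x : (Σ _ : ℕ, ℕ),
      (∑ i ∈ range (d1 + 1), ∑ j ∈ range (d1 + 1 - i), ((A i j x.1 x.2 : ℤ) : ℝ) * u i j) *
        v x.1 x.2 = ∑ y ∈ (range (d1 + 1)).sigma fun i => range (d1 + 1 - i),
          ((A y.1 y.2 x.1 x.2 : ℤ) : ℝ) * (u y.1 y.2 * v x.1 x.2) := by
    intro x
    rw [sum_sigma', sum_mul]
    exact sum_congr rfl fun y _ => by ring
  rw [sum_congr rfl fun x _ => h1 x, sum_comm]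
  refine sum_congr rfl fun y _ => ?_
  rw [sum_sigma']

/-- swapping in the evaluated sum -/
theorem st1_evt (d1 d2 : ℕ) (A : ℕ → ℕ → ℕ → ℕ → ℤ) (u : ℕ → ℕ → ℝ) (t z : ℝ) :
    ∑ i ∈ range (d1 + 1), ∑ j ∈ range (d1 + 1 - i),
      evt d2 (fun p q => ((A i j p q : ℤ) : ℝ)) t z * u i j =
    evt d2 (fun p q => ∑ i ∈ range (d1 + 1), ∑ j ∈ range (d1 + 1 - i),
      ((A i j p q : ℤ) : ℝ) * u i j) t z := by
  have h := st1_swap d1 d2 A u (fun p q => t ^ (d2 - p - q) * z ^ q)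
  unfold evt
  have h2 : ∑ p ∈ range (d2 + 1), ∑ q ∈ range (d2 + 1 - p),
      (∑ i ∈ range (d1 + 1), ∑ j ∈ range (d1 + 1 - i), ((A i j p q : ℤ) : ℝ) * u i j) *
        t ^ (d2 - p - q) * z ^ q = ∑ p ∈ range (d2 + 1), ∑ q ∈ range (d2 + 1 - p),
      (∑ i ∈ range (d1 + 1), ∑ j ∈ range (d1 + 1 - i), ((A i j p q : ℤ) : ℝ) * u i j) *
        (t ^ (d2 - p - q) * z ^ q) :=
    sum_congr rfl fun p _ => sum_congr rfl fun q _ => by ring
  rw [h2, h]
  unfold sm
  refine sum_congr rfl fun i _ => sum_congr rfl fun j _ => ?_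
  rw [sum_mul]
  refine sum_congr rfl fun p _ => ?_
  rw [sum_mul]
  exact sum_congr rfl fun q _ => by ring

theorem st1_count (n m : ℕ) (B : ℝ) (hB : 0 ≤ B) :
    ∑ j ∈ range m, (if j < n then B else 0) ≤ n * B := by
  rw [← sum_filter, sum_const, nsmul_eq_mul]
  refine mul_le_mul_of_nonneg_right ?_ hB
  have h1 : ((range m).filter fun j => j < n).card ≤ (range n).card := by
    refine card_le_card fun j hj => ?_
    rw [mem_filter] at hj
    exact mem_range.2 hj.2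
  rw [card_range] at h1
  exact_mod_cast h1

theorem stage1 (O1 : Ord ℝ n Q1 f1 θ1) (O2 : Ord ℝ n Q2 f2 θ2) {F1 F2 : ℕ → ℕ → ℤ}
    (hF1 : Norml n Q1 f1 F1) (hF2 : Norml n Q2 f2 F2) (br1 : Branch O1 F1) (br2 : Branch O2 F2)
    (la : ℕ) (hla : 8 * n ≤ la) (A : ℕ → ℕ → ℕ → ℕ → ℤ) (hA : Supp n la A) (Z : ℝ)
    (hZ : ∀ i j p q, |((A i j p q : ℤ) : ℝ)| ≤ Z)
    (hv : ∀ k l, k + la * l < TT n la →
      sm (3 * n * la) (3 * n) A (fun i j => O1.φ (bc O1 br1 (3 * n * la) i j k))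
        (fun p q => O2.φ (bc O2 br2 (3 * n) p q l)) = 0)
    (x2 y2 : ℤ) (h2 : ev n F2 x2 y2 = 0) (hy2 : |(y2 : ℝ) / x2 - θ2| ≤ 1 / bb n Q2)
    (hx2b : bb n Q2 ^ 5 ≤ |(x2 : ℝ)|) (X : ℝ) (hX : 1 ≤ X) (hx2 : X ^ la ≤ |(x2 : ℝ)|)
    (k : ℕ) (hk : k < TT n la) :
    |∑ i ∈ range (3 * n * la + 1), ∑ j ∈ range (3 * n * la + 1 - i),
      evt (3 * n) (fun p q => ((A i j p q : ℤ) : ℝ)) (1 / (x2 : ℝ)) ((y2 : ℝ) / x2) *
        O1.φ (bc O1 br1 (3 * n * la) i j k)| * X ^ (TT n la - k) ≤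
      Z * bb n Q1 ^ (la + 2 * k) * bb n Q2 ^ (26 * n) := by
  have hn := hF1.hn
  have hQ1 := hF1.hQ
  have hQ2 := hF2.hQ
  have hb1 : 1 ≤ bb n Q1 := one_le_bb hn hQ1
  have hb2 : 1 ≤ bb n Q2 := one_le_bb hn hQ2
  have hb20 : 0 < bb n Q2 := by linarith
  have hTT := st1_TT hn hla
  have hZ0 : 0 ≤ Z := (abs_nonneg _).trans (hZ 0 0 0 0)
  have hxpos : 0 < |(x2 : ℝ)| := lt_of_lt_of_le (by positivity) hx2b
  have hx0 : (x2 : ℝ) ≠ 0 := abs_pos.1 hxpos
  rw [st1_evt]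
  set u : ℕ → ℕ → ℝ := fun i j => O1.φ (bc O1 br1 (3 * n * la) i j k) with hu
  set c : ℕ → ℕ → ℝ := fun p q => ∑ i ∈ range (3 * n * la + 1),
    ∑ j ∈ range (3 * n * la + 1 - i), ((A i j p q : ℤ) : ℝ) * u i j with hc
  set B : ℝ := Z * bb n Q1 ^ (1 + 2 * k) with hB
  have hB0 : 0 ≤ B := by positivity
  set M : ℝ := (3 * n * la + 1) * (n * B) with hM
  have hcM : ∀ p q, |c p q| ≤ M := by
    intro p q
    rw [hc]
    refine (abs_sum_le_sum_abs _ _).trans ?_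
    calc ∑ i ∈ range (3 * n * la + 1), |∑ j ∈ range (3 * n * la + 1 - i),
          ((A i j p q : ℤ) : ℝ) * u i j| ≤ ∑ _i ∈ range (3 * n * la + 1), n * B := by
          refine sum_le_sum fun i _ => ?_
          refine (abs_sum_le_sum_abs _ _).trans ?_
          refine le_trans (sum_le_sum fun j _ => ?_) (st1_count n (3 * n * la + 1 - i) B hB0)
          by_cases hj : j < n
          · rw [if_pos hj, abs_mul, hB]
            refine mul_le_mul (hZ _ _ _ _) ?_ (abs_nonneg _) hZ0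
            have h1 := O1.φ_le (bc O1 br1 (3 * n * la) i j k)
            rw [Real.norm_eq_abs] at h1
            exact h1.trans (bc_bound O1 hF1 br1 _ _ _ _ hj)
          · rw [if_neg hj]
            have h1 : A i j p q = 0 := by
              by_contra hne
              exact hj (hA i j p q hne).1.2
            rw [h1]
            simp
      _ = M := by
          rw [sum_const, card_range, nsmul_eq_mul, hM]
          push_cast
          ring
  have hM0 : 0 ≤ M := (abs_nonneg _).trans (hcM 0 0)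
  have hcs : ∀ p q, c p q ≠ 0 → p + q ≤ 3 * n ∧ q ≤ n := by
    intro p q hne
    by_contra hcon
    apply hne
    rw [hc]
    refine sum_eq_zero fun i _ => sum_eq_zero fun j _ => ?_
    have h1 : A i j p q = 0 := by
      by_contra hne'
      have := (hA i j p q hne').2
      omega
    rw [h1]
    simp
  set L : ℕ := (TT n la - k + la - 1) / la with hL
  have hlapos : 0 < la := by omega
  have hL1 : TT n la - k ≤ la * L := by
    have h1 : TT n la - k + la - 1 < la * (L + 1) := by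
      rw [hL]
      exact Nat.lt_mul_div_succ _ hlapos
    rw [mul_add, mul_one] at h1
    omega
  have hL2 : ∀ l < L, k + la * l < TT n la := by
    intro l hl
    have h1 : la * (l + 1) ≤ la * L := Nat.mul_le_mul_left _ hl
    have h2 : la * L ≤ TT n la - k + la - 1 := by
      rw [hL]
      exact Nat.mul_div_le _ _
    rw [mul_add, mul_one] at h1
    omega
  have hL3 : L ≤ 6 * n + 1 := by
    rw [hL]
    have h1 : TT n la - k + la - 1 < (6 * n + 2) * la := by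
      have h3 : (6 * n + 2) * la = (6 * n + 1) * la + la := by ring
      omega
    have := Nat.div_lt_of_lt_mul (show TT n la - k + la - 1 < la * (6 * n + 2) by
      rw [mul_comm]; exact h1)
    omega
  have hwC : ∀ (K : ℕ) (a : ℝ), wn (fun a : ℝ => |a|) 1 K (PowerSeries.C a) = |a| :=
    fun K a => wn_C subMul_abs K a
  have hmain := small_real O2 hF2 br2 (PowerSeries.C (1 / (x2 : ℝ)))
    (PowerSeries.C ((y2 : ℝ) / x2)) 1 one_pos (1 / |(x2 : ℝ)|)
    (fun K => by rw [hwC, abs_div, abs_one])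
    (by
      rw [one_div, inv_mul_le_iff₀ hxpos, mul_one]
      exact hx2b)
    (fun K => by rw [← map_sub, hwC]; exact hy2)
    (by
      have h1 : ev n (cst ℝ F2) (x2 : ℝ) (y2 : ℝ) = 0 := by
        have h3 := congrArg (Int.castRingHom ℝ) h2
        rw [ev_map, map_zero] at h3
        exact h3
      have h4 := evt_eq_ev n (cst ℝ F2) (x2 : ℝ) (y2 : ℝ) (1 / (x2 : ℝ))
        (by field_simp)
      rw [h1, mul_zero] at h4
      have h5 := congrArg (PowerSeries.C : ℝ →+* PowerSeries ℝ) h4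
      rw [evt_map, map_zero, cst_map] at h5
      rw [← h5]
      congr 1
      rw [div_eq_mul_one_div, mul_comm])
    (3 * n) c hcs M hcM L (fun _ => 0)
    (fun l hl => by
      rw [st1_swap, hv k l (hL2 l hl), abs_zero]) 0
  simp only [zero_mul, sum_const_zero, zero_add] at hmain
  have hval : wn (fun a : ℝ => |a|) 1 0 (evt (3 * n) (fun i j => PowerSeries.C (c i j))
      (PowerSeries.C (1 / (x2 : ℝ))) (PowerSeries.C ((y2 : ℝ) / x2))) =
      |evt (3 * n) c (1 / (x2 : ℝ)) ((y2 : ℝ) / x2)| := by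
    have h1 := evt_map (PowerSeries.C : ℝ →+* PowerSeries ℝ) (3 * n) c (1 / (x2 : ℝ))
      ((y2 : ℝ) / x2)
    rw [← h1, hwC]
  rw [hval] at hmain
  -- the final estimate
  set V := |evt (3 * n) c (1 / (x2 : ℝ)) ((y2 : ℝ) / x2)| with hV
  have hXp : X ^ (TT n la - k) ≤ |(x2 : ℝ)| ^ L := by
    calc X ^ (TT n la - k) ≤ X ^ (la * L) := pow_le_pow_right₀ hX hL1
      _ = (X ^ la) ^ L := by rw [pow_mul]
      _ ≤ |(x2 : ℝ)| ^ L := pow_le_pow_left₀ (by positivity) hx2 L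
  have hQ16 := sixteen_leR hn hQ1
  have hnQ := n_leR hn hQ1
  have hQpos : (0 : ℝ) < Q1 := by linarith
  have hnum : ((3 * n : ℕ) + 1 : ℝ) * ((3 * n * la + 1) * (n * bb n Q1)) ≤ bb n Q1 ^ la := by
    have hnR : (4 : ℝ) ≤ n := by exact_mod_cast hn
    have hlaR : 8 * (n : ℝ) ≤ la := by exact_mod_cast hla
    have h3 : (la : ℝ) ≤ (Q1 : ℝ) ^ la := by
      have h4 : (la : ℝ) ≤ (2 : ℝ) ^ la := by exact_mod_cast Nat.lt_two_pow_self.le
      exact h4.trans (pow_le_pow_left₀ (by norm_num) (by linarith) la)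
    have h5 : ((3 * n : ℕ) + 1 : ℝ) * ((3 * n * la + 1) * n) ≤ 16 * n ^ 3 * la := by
      have h6 : ((3 * n : ℕ) + 1 : ℝ) ≤ 4 * n := by push_cast; linarith
      have h7 : (3 * n * la + 1 : ℝ) ≤ 4 * n * la := by nlinarith
      calc ((3 * n : ℕ) + 1 : ℝ) * ((3 * n * la + 1) * n) ≤ (4 * n) * ((4 * n * la) * n) := by
            refine mul_le_mul h6 (mul_le_mul_of_nonneg_right h7 (by positivity)) (by positivity)
              (by positivity)
        _ = 16 * n ^ 3 * la := by ring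
    have h6 : (n : ℝ) ^ 3 ≤ (Q1 : ℝ) ^ 3 := pow_le_pow_left₀ (by linarith) hnQ 3
    have h7 : ((3 * n : ℕ) + 1 : ℝ) * ((3 * n * la + 1) * n) ≤ bb n Q1 ^ (la - 1) := by
      calc _ ≤ 16 * (n : ℝ) ^ 3 * la := h5
        _ ≤ Q1 * (Q1 : ℝ) ^ 3 * (Q1 : ℝ) ^ la :=
            mul_le_mul (mul_le_mul hQ16 h6 (by positivity) (by linarith)) h3
              (by positivity) (by positivity)
        _ = (Q1 : ℝ) ^ (la + 4) := by ring
        _ ≤ (Q1 : ℝ) ^ (7 * n ^ 2 * (la - 1)) := by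
            refine Qpow_mono hn hQ1 ?_
            have h9 : 4 * 4 ≤ n ^ 2 := by nlinarith
            obtain ⟨e, rfl⟩ : ∃ e, la = e + 32 := ⟨la - 32, by omega⟩
            have h10 : 7 * 16 * (e + 32 - 1) ≤ 7 * n ^ 2 * (e + 32 - 1) :=
              Nat.mul_le_mul_right _ (by omega)
            omega
        _ = bb n Q1 ^ (la - 1) := by rw [bb, ← pow_mul]
    calc ((3 * n : ℕ) + 1 : ℝ) * ((3 * n * la + 1) * (n * bb n Q1)) =
          ((3 * n : ℕ) + 1 : ℝ) * ((3 * n * la + 1) * n) * bb n Q1 := by ring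
      _ ≤ bb n Q1 ^ (la - 1) * bb n Q1 := mul_le_mul_of_nonneg_right h7 (by linarith)
      _ = bb n Q1 ^ la := by
          rw [← pow_succ]
          congr 1
          omega
  have hnum2 : (((3 * n : ℕ) : ℝ) + 1) * M ≤ Z * bb n Q1 ^ (la + 2 * k) := by
    calc (((3 * n : ℕ) : ℝ) + 1) * M =
          (((3 * n : ℕ) + 1 : ℝ) * ((3 * n * la + 1) * (n * bb n Q1))) *
            (Z * bb n Q1 ^ (2 * k)) := by
          rw [hM, hB, pow_add]
          ring
      _ ≤ bb n Q1 ^ la * (Z * bb n Q1 ^ (2 * k)) :=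
          mul_le_mul_of_nonneg_right hnum (by positivity)
      _ = Z * bb n Q1 ^ (la + 2 * k) := by rw [pow_add]; ring
  have hb4 : bb n Q2 ^ 4 * (bb n Q2 ^ 4) ^ L ≤ bb n Q2 ^ (26 * n) := by
    rw [← pow_mul, ← pow_add]
    exact pow_le_pow_right₀ hb2 (by omega)
  have hdiv : (1 / |(x2 : ℝ)| * bb n Q2 ^ 4) ^ L * |(x2 : ℝ)| ^ L = (bb n Q2 ^ 4) ^ L := by
    rw [← mul_pow]
    congr 1
    field_simp
  calc V * X ^ (TT n la - k) ≤
        ((((3 * n : ℕ) : ℝ) + 1) * M * bb n Q2 ^ 4 * (1 / |(x2 : ℝ)| * bb n Q2 ^ 4) ^ L) *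
          |(x2 : ℝ)| ^ L := mul_le_mul hmain hXp (by positivity) (by positivity)
    _ = ((((3 * n : ℕ) : ℝ) + 1) * M) * (bb n Q2 ^ 4 *
          ((1 / |(x2 : ℝ)| * bb n Q2 ^ 4) ^ L * |(x2 : ℝ)| ^ L)) := by ring
    _ = ((((3 * n : ℕ) : ℝ) + 1) * M) * (bb n Q2 ^ 4 * (bb n Q2 ^ 4) ^ L) := by rw [hdiv]
    _ ≤ (Z * bb n Q1 ^ (la + 2 * k)) * bb n Q2 ^ (26 * n) :=
        mul_le_mul hnum2 hb4 (by positivity) (by positivity)

end Pool.Agent.H8.KF
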