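import Pool.Agent.H72.ES.Siegel
import Pool.Agent.H72.ES.BranchEx

/-! # Curves whose root field contains a fixed number field: definitions -/

namespace Pool.Agent.H8.KF

open Finset Polynomial Pool.Agent.H72.ES

/-- A common overring of two orders, with integer coordinates indexed by `ι`. -/
structure Joint {n Q1 Q2 : ℕ} {f1 f2 : ℤ[X]} {θ1 θ2 : ℝ} (O1 : Ord ℝ n Q1 f1 θ1)
    (O2 : Ord ℝ n Q2 f2 θ2) (ι : Type) (G : ℝ) where
  R : Type
  [cr : CommRing R]
  J1 : O1.R →+* R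
  J2 : O2.R →+* R
  φ : R →+* ℝ
  coord : R →+ (ι → ℤ)
  coord_inj : Function.Injective coord
  φ_J1 : ∀ a, φ (J1 a) = O1.φ a
  φ_J2 : ∀ a, φ (J2 a) = O2.φ a
  size : ∀ a b k, |((coord (J1 a * J2 b) k : ℤ) : ℝ)| ≤ G * (O1.ν a * O2.ν b)

attribute [instance] Joint.cr

/-- expansion coefficients of `t^(d-i-j) z^j` along the branch -/
noncomputable def bc {n Q : ℕ} {f : ℤ[X]} {θ : ℝ} (O : Ord ℝ n Q f θ) {F : ℕ → ℕ → ℤ}
    (br : Branch O F) (d i j k : ℕ) : O.R :=
  PowerSeries.coeff k ((PowerSeries.C O.κ ^ 2 * PowerSeries.X) ^ (d - i - j) *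
    (PowerSeries.C O.α + PowerSeries.C O.κ * br.w) ^ j)

/-- value of a polynomial in two pairs of variables, with monomials replaced by `u i j`, `v p q` -/
def sm {S : Type*} [CommRing S] (d1 d2 : ℕ) (A : ℕ → ℕ → ℕ → ℕ → ℤ) (u v : ℕ → ℕ → S) : S :=
  ∑ i ∈ range (d1 + 1), ∑ j ∈ range (d1 + 1 - i), ∑ p ∈ range (d2 + 1), ∑ q ∈ range (d2 + 1 - p),
    (A i j p q : S) * (u i j * v p q)

/-- the excess order -/
def ee (la : ℕ) : ℕ := la / 2 + 1

/-- the index of the auxiliary function -/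
def TT (n la : ℕ) : ℕ := 6 * n * la + 3 * n + ee la

/-- support conditions: degree `≤ 3 n la` in the first pair of variables, `≤ 3 n` in the second -/
def Supp (n la : ℕ) (A : ℕ → ℕ → ℕ → ℕ → ℤ) : Prop :=
  ∀ i j p q, A i j p q ≠ 0 → (i + j ≤ 3 * n * la ∧ j < n) ∧ (p + q ≤ 3 * n ∧ q < n)

/-- the specialisation of the second pair of variables at an integer point -/
def spec (n : ℕ) (A : ℕ → ℕ → ℕ → ℕ → ℤ) (x2 y2 : ℤ) : ℕ → ℕ → ℤ := fun i j =>
  ev (3 * n) (A i j) x2 y2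

/-- the real number field factor condition: `f` has a monic factor over the ring of integers of
`k`, of degree `n / [k:ℚ]`, whose image under `τ` vanishes at `θ` -/
def NFac (k : Type) [Field k] [NumberField k] (τ : k →+* ℝ) (n : ℕ) (f : ℤ[X]) (θ : ℝ) : Prop :=
  ∃ g : (NumberField.RingOfIntegers k)[X], g.Monic ∧ g.natDegree * Module.finrank ℚ k = n ∧
    g ∣ f.map (algebraMap ℤ (NumberField.RingOfIntegers k)) ∧
    eval₂ (τ.comp (algebraMap (NumberField.RingOfIntegers k) k)) θ g = 0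

end Pool.Agent.H8.KF
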