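import Pool.Agent.H8.KF.Uni
import Pool.Agent.H72.ES.Count

/-! # Polynomial bound for all curves whose root field contains `k` -/

namespace Pool.Agent.H8.KF

open Finset Polynomial Pool.Agent.H72.ES

/-- the normalised leading polynomial at `a α` -/
theorem eval_nrm {n : ℕ} (hn : 1 ≤ n) (G : ℕ → ℕ → ℤ) {K : Type*} [Field K] (u : ℤ →+* K)
    (v : ℚ →+* K) (α : K) : eval₂ u (((G 0 n : ℤ) : K) * α) (lead n (nrm n G)) =
      ((G 0 n : ℤ) : K) ^ (n - 1) * eval₂ v α (leadQ n G) := by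
  unfold lead leadQ
  rw [eval₂_finset_sum, eval₂_finset_sum, mul_sum]
  refine sum_congr rfl fun j hj => ?_
  rw [mem_range] at hj
  rw [eval₂_mul, eval₂_mul, eval₂_pow, eval₂_pow, eval₂_X, eval₂_X, eval₂_C, eval₂_C, mul_pow,
    eq_intCast, map_intCast]
  by_cases h : j = n
  · subst h
    obtain ⟨m, rfl⟩ : ∃ m, j = m + 1 := ⟨j - 1, by omega⟩
    simp only [nrm, if_true, Nat.sub_self, Nat.add_sub_cancel, Int.cast_one]
    ring
  · simp only [nrm, h, if_false]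
    push_cast
    have h4 : ((G 0 n : ℤ) : K) ^ (n - 1) = ((G 0 n : ℤ) : K) ^ (n - 1 - j) *
        ((G 0 n : ℤ) : K) ^ j := by
      rw [← pow_add]
      congr 1
      omega
    rw [h4]
    ring

theorem leadQ_degree {n : ℕ} (G : ℕ → ℕ → ℤ) (ha : G 0 n ≠ 0) : (leadQ n G).natDegree = n := by
  apply le_antisymm
  · unfold leadQ
    refine natDegree_sum_le_of_forall_le _ _ fun j hj => ?_
    rw [mem_range] at hj
    exact (natDegree_C_mul_X_pow_le _ _).trans (by omega)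
  · apply le_natDegree_of_ne_zero
    unfold leadQ
    rw [finsetSum_coeff]
    simp only [coeff_C_mul, coeff_X_pow]
    rw [sum_eq_single n]
    · simpa using ha
    · intro b _ hb
      rw [if_neg (fun h => hb h.symm)]; simp
    · intro hj'; exact absurd (mem_range.mpr (by omega)) hj'

theorem nfac_of_adjoin (k : Type) [Field k] [NumberField k] {n : ℕ} (hn : 1 ≤ n)
    (G : ℕ → ℕ → ℤ) (ha : G 0 n ≠ 0) (hirr : Irreducible (leadQ n G))
    (j : k →+* AdjoinRoot (leadQ n G)) (θ : ℝ) (hθ : aeval θ (lead n (nrm n G)) = 0) :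
    ∃ τ : k →+* ℝ, NFac k τ n (lead n (nrm n G)) θ := by
  have hfact : Fact (Irreducible (leadQ n G)) := ⟨hirr⟩
  letI : Algebra k (AdjoinRoot (leadQ n G)) := j.toAlgebra
  have haR : ((G 0 n : ℤ) : ℝ) ≠ 0 := by exact_mod_cast ha
  have hcz : CharZero (AdjoinRoot (leadQ n G)) := algebraRat.charZero _
  have hroot' : eval₂ (algebraMap ℚ ℝ) (θ / ((G 0 n : ℤ) : ℝ)) (leadQ n G) = 0 := by
    have h1 := eval_nrm hn G (algebraMap ℤ ℝ) (algebraMap ℚ ℝ) (θ / ((G 0 n : ℤ) : ℝ))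
    have h2 : ((G 0 n : ℤ) : ℝ) * (θ / ((G 0 n : ℤ) : ℝ)) = θ := by field_simp
    rw [aeval_def] at hθ
    rw [h2, hθ] at h1
    exact (mul_eq_zero.1 h1.symm).resolve_left (pow_ne_zero _ haR)
  set ψ : AdjoinRoot (leadQ n G) →+* ℝ := AdjoinRoot.lift (algebraMap ℚ ℝ) _ hroot' with hψ
  set α : AdjoinRoot (leadQ n G) := ((G 0 n : ℤ) : AdjoinRoot (leadQ n G)) *
    AdjoinRoot.root (leadQ n G) with hα
  have hψα : ψ α = θ := by
    rw [hα, map_mul, map_intCast, hψ, AdjoinRoot.lift_root]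
    field_simp
  have hα0 : aeval α (lead n (nrm n G)) = 0 := by
    rw [aeval_def, hα, eval_nrm hn G _ (AdjoinRoot.of (leadQ n G)), AdjoinRoot.eval₂_root,
      mul_zero]
  have hfin : Module.finrank ℚ (AdjoinRoot (leadQ n G)) = n := by
    have h1 := (AdjoinRoot.powerBasis hirr.ne_zero).finrank
    rw [AdjoinRoot.powerBasis_dim, leadQ_degree G ha] at h1
    convert h1
  obtain ⟨hm, hd⟩ := lead_nrm_monic (n := n) G
  have := nfac_of_field k (AdjoinRoot (leadQ n G)) hn hfin (lead n (nrm n G)) hm hd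
    (lead_nrm_irreducible hn G ha hirr) α hα0 ψ
  rw [hψα] at this
  exact ⟨_, this⟩

/-- **Polynomial bound for all curves whose root field contains `k`.** -/
theorem uniformK (k : Type) [Field k] [NumberField k] (hk : 3 ≤ Module.finrank ℚ k) {n : ℕ}
    (hn : 4 ≤ n) : ∃ C : ℕ, ∀ G : ℕ → ℕ → ℤ, G 0 n ≠ 0 → Irreducible (leadQ n G) →
    Nonempty (k →+* AdjoinRoot (leadQ n G)) → ∀ H : ℕ, 2 ≤ H →
    (∀ i j, i + j ≤ n → |G i j| ≤ (H : ℤ)) → ∀ x y : ℤ, ev n G x y = 0 →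
    max |x| |y| ≤ max (C : ℤ) ((H : ℤ) ^ (10 ^ 7 * n ^ 8)) := by
  obtain ⟨C, hC0, hC⟩ := excK_bound_all k hk n
  refine ⟨⌈C ^ 2⌉₊ + ⌈C⌉₊, ?_⟩
  intro G haG hirr ⟨jk⟩ H hH hG x y hz
  set f := lead n (nrm n G) with hfdef
  have hf : Irreducible f := lead_nrm_irreducible (by omega) G haG hirr
  set a := G 0 n with hadef
  set M : ℕ := H ^ n with hM
  set Q : ℕ := 2 * M with hQ
  have hM2 : 2 ^ n ≤ M := Nat.pow_le_pow_left hH n
  have hfam : Fam n Q M f (nrm n G) :=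
    { hn := hn
      hQ := by omega
      hM := le_refl _
      irr := hf
      lead_eq := rfl
      top := by simp [nrm]
      bound := fun i j hij => nrm_bound (by omega) G H (by omega) hG i j hij }
  have hN := hfam.norml
  have hz' : ev n (nrm n G) x (a * y) = 0 := by
    rw [hadef, ev_nrm (by omega), hz, mul_zero]
  have hy' : |y| ≤ |a * y| := by
    rw [abs_mul]
    have : 1 ≤ |a| := Int.one_le_abs haG
    nlinarith [abs_nonneg y]
  have hmax : max |x| |y| ≤ max |x| |a * y| := max_le_max le_rfl hy'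
  have hQ1 := one_le_QR hfam.hn hfam.hQ
  have hb1 := one_le_bb hfam.hn hfam.hQ
  have hHR : (1 : ℝ) ≤ H := by exact_mod_cast (by omega : 1 ≤ H)
  set T : ℕ := 240000 * n ^ 5 with hT
  have hn5 : n ≤ n ^ 5 := Nat.le_self_pow (by norm_num) n
  by_cases hsmall : ((max |x| |a * y| : ℤ) : ℝ) < (Q : ℝ) ^ 2 * bb n Q ^ T
  · -- not exceptional
    refine le_max_of_le_right ?_
    have h1 : ((max |x| |y| : ℤ) : ℝ) ≤ (((H : ℤ) ^ (10 ^ 7 * n ^ 8) : ℤ) : ℝ) := by
      have h2 : ((max |x| |y| : ℤ) : ℝ) ≤ ((max |x| |a * y| : ℤ) : ℝ) := by exact_mod_cast hmax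
      refine (h2.trans hsmall.le).trans ?_
      have hQH : (Q : ℝ) ≤ (H : ℝ) ^ (n + 1) := by
        rw [hQ, hM]
        push_cast
        have : (2 : ℝ) ≤ H := by exact_mod_cast hH
        calc 2 * (H : ℝ) ^ n ≤ H * (H : ℝ) ^ n := by gcongr
          _ = (H : ℝ) ^ (n + 1) := by ring
      have hQ0 : (0 : ℝ) ≤ Q := Nat.cast_nonneg _
      unfold bb
      push_cast
      calc (Q : ℝ) ^ 2 * ((Q : ℝ) ^ (7 * n ^ 2)) ^ T = (Q : ℝ) ^ (2 + 1680000 * n ^ 7) := by
            rw [← pow_mul, ← pow_add, hT]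
            congr 1
            ring
        _ ≤ ((H : ℝ) ^ (n + 1)) ^ (2 + 1680000 * n ^ 7) := pow_le_pow_left₀ hQ0 hQH _
        _ = (H : ℝ) ^ ((n + 1) * (2 + 1680000 * n ^ 7)) := by rw [← pow_mul]
        _ ≤ (H : ℝ) ^ (10 ^ 7 * n ^ 8) := by
            refine pow_le_pow_right₀ hHR ?_
            have h4 : 2 + 1680000 * n ^ 7 ≤ 1680001 * n ^ 7 := by
              have : 2 ≤ n ^ 7 := by
                calc 2 ≤ 4 ^ 7 := by norm_num
                  _ ≤ n ^ 7 := Nat.pow_le_pow_left hn 7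
              omega
            calc (n + 1) * (2 + 1680000 * n ^ 7) ≤ (2 * n) * (1680001 * n ^ 7) :=
                  Nat.mul_le_mul (by omega) h4
              _ = 3360002 * n ^ 8 := by ring
              _ ≤ 10 ^ 7 * n ^ 8 := Nat.mul_le_mul_right _ (by norm_num)
    exact_mod_cast h1
  · -- exceptional
    refine le_max_of_le_left ?_
    push Not at hsmall
    have hT250 : 250 * n ≤ T := by
      rw [hT]; omega
    have hbig : (Q : ℝ) ^ 2 * bb n Q ^ (250 * n) ≤ ((max |x| |a * y| : ℤ) : ℝ) := by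
      refine le_trans ?_ hsmall
      exact mul_le_mul_of_nonneg_left (pow_le_pow_right₀ hb1 hT250) (by positivity)
    have hs0 : |ev n (nrm n G) x (a * y)| ≤ (M : ℤ) := by
      rw [hz', abs_zero]; exact Int.natCast_nonneg M
    obtain ⟨hx250, θ, hθ, hnear⟩ := far_point hfam x (a * y) hs0 hbig
    obtain ⟨τ, hnf⟩ := nfac_of_adjoin k (by omega) G haG hirr jk θ hθ
    -- slope
    have hlt : (Q : ℤ) ^ 5 < max |x| |a * y| := by
      have : (Q : ℝ) ^ 5 < ((max |x| |a * y| : ℤ) : ℝ) := by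
        have hQb5 : (Q : ℝ) ^ 5 ≤ bb n Q := Qpow_le_bb hfam.hn hfam.hQ (by nlinarith)
        have hbT : bb n Q ≤ bb n Q ^ T := le_self_pow₀ hb1 (by omega)
        have hQ16 := sixteen_leR hfam.hn hfam.hQ
        have e1 : (1 : ℝ) < (Q : ℝ) ^ 2 := one_lt_pow₀ (by linarith) (by norm_num)
        have e2 : 0 < bb n Q ^ T := by positivity
        calc (Q : ℝ) ^ 5 ≤ bb n Q ^ T := hQb5.trans hbT
          _ < (Q : ℝ) ^ 2 * bb n Q ^ T := by nlinarith
          _ ≤ _ := hsmall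
      exact_mod_cast this
    have hslope := slope_bound hN x (a * y) (by
      rw [hz', abs_zero]; exact Int.natCast_nonneg Q) hlt
    have hslopeR : |((a * y : ℤ) : ℝ)| ≤ (Q : ℝ) ^ 2 * |(x : ℝ)| := by exact_mod_cast hslope
    have hxT : bb n Q ^ T ≤ |(x : ℝ)| := by
      have e1 : ((max |x| |a * y| : ℤ) : ℝ) ≤ (Q : ℝ) ^ 2 * |(x : ℝ)| := by
        have e3 : ((max |x| |a * y| : ℤ) : ℝ) = max |(x : ℝ)| |((a * y : ℤ) : ℝ)| := by
          push_cast; rfl
        rw [e3]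
        refine max_le ?_ hslopeR
        have e2 : (1 : ℝ) ≤ (Q : ℝ) ^ 2 := one_le_pow₀ hQ1
        nlinarith [abs_nonneg (x : ℝ)]
      exact le_of_mul_le_mul_left (hsmall.trans e1) (by positivity)
    have hexc : ExcK k τ n Q f θ (nrm n G) x (a * y) :=
      ⟨hN, hf, hθ, hnf, hz', hnear, hxT⟩
    have hxC := hC τ Q f θ _ _ _ hexc
    have hQ2C : (Q : ℝ) ^ 2 ≤ C := by
      have hQb : (Q : ℝ) ^ 2 ≤ bb n Q := Qpow_le_bb hfam.hn hfam.hQ (by nlinarith)
      have hbT : bb n Q ≤ bb n Q ^ T := le_self_pow₀ hb1 (by omega)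
      exact hQb.trans (hbT.trans (hxT.trans hxC))
    have hyC : |(y : ℝ)| ≤ C ^ 2 := by
      have e1 : |(y : ℝ)| ≤ |((a * y : ℤ) : ℝ)| := by exact_mod_cast hy'
      calc |(y : ℝ)| ≤ (Q : ℝ) ^ 2 * |(x : ℝ)| := e1.trans hslopeR
        _ ≤ C * C := mul_le_mul hQ2C hxC (abs_nonneg _) hC0
        _ = C ^ 2 := by ring
    have hfin : ((max |x| |y| : ℤ) : ℝ) ≤ ((⌈C ^ 2⌉₊ + ⌈C⌉₊ : ℕ) : ℝ) := by
      push_cast
      refine max_le ?_ ?_
      · have := Nat.le_ceil C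
        have h2 : (0 : ℝ) ≤ (⌈C ^ 2⌉₊ : ℝ) := Nat.cast_nonneg _
        linarith
      · have := Nat.le_ceil (C ^ 2)
        have h2 : (0 : ℝ) ≤ (⌈C⌉₊ : ℝ) := Nat.cast_nonneg _
        linarith
    exact_mod_cast hfin

end Pool.Agent.H8.KF
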