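import Pool.Agent.H8.KF.Defs

/-! # [KF-CH] The house of the coefficients of a monic factor of `f`

`g ∣ f.map`, `f` monic of degree `n` with coefficients `≤ Q`: complex roots of
`f` have absolute value `≤ n Q` (if `|z| > 1` then `|z|^n ≤ n Q |z|^(n-1)`). For `σ : k →+* ℂ` the
roots of `g^σ` are among them, so `‖σ (g_i)‖ ≤ (n Q)^(m-i) * m.choose i`
(`Polynomial.coeff_le_of_roots_le` or similar, `ℂ` is algebraically closed) `≤ (Q²)^n 2^n
≤ Q^(2n+1)`, `m = natDegree g ≤ n`; the sum over `i < m ≤ n ≤ Q` is `≤ Q^(2n+2)`.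
`house_eq_sup'` / `norm_embedding_le_house`. -/

namespace Pool.Agent.H8.KF

open Finset Polynomial Pool.Agent.H72.ES NumberField

theorem root_norm_le {Q : ℕ} {f : ℤ[X]} (hm : f.Monic) (hc : ∀ j, |f.coeff j| ≤ (Q : ℤ))
    {z : ℂ} (hz : (f.map (Int.castRingHom ℂ)).IsRoot z) : ‖z‖ ≤ (Q : ℝ) + 1 := by
  have hmon : (f.map (Int.castRingHom ℂ)).Monic := hm.map _
  have h1 := hz.norm_lt_cauchyBound hmon.ne_zero
  have h2 : cauchyBound (f.map (Int.castRingHom ℂ)) ≤ (Q : NNReal) + 1 := by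
    unfold cauchyBound
    rw [hmon.leadingCoeff, nnnorm_one, div_one]
    gcongr
    refine Finset.sup_le fun i _ => ?_
    rw [coeff_map]
    have h3 : ‖((Int.castRingHom ℂ) (f.coeff i))‖ ≤ (Q : ℝ) := by
      rw [eq_intCast, Complex.norm_intCast]
      exact_mod_cast hc i
    exact_mod_cast h3
  have h4 : ‖z‖₊ ≤ (Q : NNReal) + 1 := h1.le.trans h2
  exact_mod_cast h4

theorem coeff_house (k : Type) [Field k] [NumberField k] {n Q : ℕ} (hn : 4 ≤ n) (hQ : 2 ^ n ≤ Q)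
    {f : ℤ[X]} (hm : f.Monic) (hd : f.natDegree = n) (hc : ∀ j, |f.coeff j| ≤ (Q : ℤ))
    (g : (𝓞 k)[X]) (hg : g.Monic) (hgf : g ∣ f.map (algebraMap ℤ (𝓞 k))) :
    ∑ i ∈ range g.natDegree, house (algebraMap (𝓞 k) k (g.coeff i)) ≤ (Q : ℝ) ^ (2 * n + 2) := by
  have hnQ : n ≤ Q := (Nat.lt_two_pow_self).le.trans hQ
  have hQ16 : 16 ≤ Q := by
    calc 16 = 2 ^ 4 := by norm_num
      _ ≤ 2 ^ n := Nat.pow_le_pow_right (by norm_num) hn
      _ ≤ Q := hQ
  have hQr : (16 : ℝ) ≤ (Q : ℝ) := by exact_mod_cast hQ16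
  have hdeg : g.natDegree ≤ n := by
    have h1 : g.natDegree ≤ (f.map (algebraMap ℤ (𝓞 k))).natDegree :=
      natDegree_le_of_dvd hgf (hm.map _).ne_zero
    rwa [hm.natDegree_map, hd] at h1
  have hone : ∀ i, house (algebraMap (𝓞 k) k (g.coeff i)) ≤ (Q : ℝ) ^ (2 * n) := by
    intro i
    rw [house_eq_sup']
    have hgoal : ∀ σ : k →+* ℂ, ‖σ (algebraMap (𝓞 k) k (g.coeff i))‖ ≤ (Q : ℝ) ^ (2 * n) := by
      intro σ
      set τ : 𝓞 k →+* ℂ := σ.comp (algebraMap (𝓞 k) k) with hτ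
      have h1 : ‖(map τ g).coeff i‖ ≤ ((Q : ℝ) + 1) ^ (g.natDegree - i) * g.natDegree.choose i := by
        refine coeff_le_of_roots_le i hg (IsAlgClosed.splits _) ?_
        intro z hz
        have hz1 : (map τ g).IsRoot z := isRoot_of_mem_roots hz
        refine root_norm_le hm hc (z := z) ?_
        have hdv : map τ g ∣ f.map (Int.castRingHom ℂ) := by
          have h2 : map τ g ∣ map τ (f.map (algebraMap ℤ (𝓞 k))) := by
            exact Polynomial.map_dvd τ hgf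
          rw [Polynomial.map_map] at h2
          have h3 : τ.comp (algebraMap ℤ (𝓞 k)) = Int.castRingHom ℂ := by
            ext
            simp
          rwa [h3] at h2
        exact hz1.dvd hdv
      rw [coeff_map] at h1
      have h2 : τ (g.coeff i) = σ (algebraMap (𝓞 k) k (g.coeff i)) := rfl
      rw [← h2]
      refine h1.trans ?_
      have h3 : ((Q : ℝ) + 1) ^ (g.natDegree - i) ≤ ((Q : ℝ) + 1) ^ n :=
        pow_le_pow_right₀ (by linarith) (by omega)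
      have h4 : ((g.natDegree.choose i : ℕ) : ℝ) ≤ 2 ^ n := by
        have h5 : g.natDegree.choose i ≤ 2 ^ g.natDegree := Nat.choose_le_two_pow _ _
        have h6 : 2 ^ g.natDegree ≤ 2 ^ n := Nat.pow_le_pow_right (by norm_num) hdeg
        exact_mod_cast h5.trans h6
      calc ((Q : ℝ) + 1) ^ (g.natDegree - i) * g.natDegree.choose i
          ≤ ((Q : ℝ) + 1) ^ n * 2 ^ n := by gcongr
        _ = (((Q : ℝ) + 1) * 2) ^ n := (mul_pow _ _ _).symm
        _ ≤ ((Q : ℝ) ^ 2) ^ n := by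
          refine pow_le_pow_left₀ (by positivity) ?_ _
          nlinarith
        _ = (Q : ℝ) ^ (2 * n) := by rw [← pow_mul]
    have hq0 : (0 : ℝ) ≤ (Q : ℝ) ^ (2 * n) := by positivity
    have : (univ.sup' univ_nonempty (fun φ : k →+* ℂ ↦ ‖φ (algebraMap (𝓞 k) k (g.coeff i))‖₊)) ≤
        (⟨(Q : ℝ) ^ (2 * n), hq0⟩ : NNReal) := by
      refine Finset.sup'_le _ _ fun σ _ => ?_
      exact hgoal σ
    exact this
  calc ∑ i ∈ range g.natDegree, house (algebraMap (𝓞 k) k (g.coeff i))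
      ≤ ∑ _i ∈ range g.natDegree, (Q : ℝ) ^ (2 * n) := Finset.sum_le_sum fun i _ => hone i
    _ = (g.natDegree : ℝ) * (Q : ℝ) ^ (2 * n) := by
      rw [sum_const, card_range, nsmul_eq_mul]
    _ ≤ (Q : ℝ) ^ 2 * (Q : ℝ) ^ (2 * n) := by
      gcongr
      have h1 : (g.natDegree : ℝ) ≤ (Q : ℝ) := by exact_mod_cast hdeg.trans hnQ
      nlinarith
    _ = (Q : ℝ) ^ (2 * n + 2) := by rw [pow_add]; ring

end Pool.Agent.H8.KF
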