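import Pool.Agent.H8.KF.Defs

/-! # [KF-HOUSE] The house on the ring of integers

(1) `house_subMul`: `NumberField.house_add_le`, `house_mul_le`, `house_intCast` ...
(2) `exists_coord`: `NumberField.house.basis_repr_norm_le_const_mul_house` (needs
`DecidableEq (k →+* ℂ)`, use `classical`), coordinates with respect to
`(integralBasis k).reindex (equivReindex k).symm`, resp. the corresponding basis of `𝓞 k`;
`C = max 1 c` with the constant `c` of that theorem (it is a private definition: obtain it
existentially, e.g. `obtain ⟨c, hc⟩ : ∃ c : ℝ, ∀ α i, ‖..‖ ≤ c * house .. := ⟨_, fun α i =>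
basis_repr_norm_le_const_mul_house k α i⟩`). If this is inconvenient, prove it with another
`ℤ`-basis of `𝓞 k` (the statement only asks for SOME injective additive coordinate map indexed by
`k →+* ℂ`). -/
namespace Pool.Agent.H8.KF

open Finset Polynomial Pool.Agent.H72.ES NumberField

theorem house_subMul (k : Type) [Field k] [NumberField k] :
    SubMul (fun a : 𝓞 k => house (algebraMap (𝓞 k) k a)) where
  nonneg a := house_nonneg _
  zero := by simp [house]
  neg a := by simp [house]
  add a b := by
    rw [map_add]
    exact house_add_le _ _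
  mul a b := by
    rw [map_mul]
    exact house_mul_le _ _
  one := by
    have h := house_intCast (K := k) 1
    simp only [Int.cast_one, abs_one] at h
    rw [map_one, h]

theorem exists_coord (k : Type) [Field k] [NumberField k] :
    ∃ (C : ℝ) (c : 𝓞 k →+ ((k →+* ℂ) → ℤ)), 1 ≤ C ∧ Function.Injective c ∧
      ∀ a i, |((c a i : ℤ) : ℝ)| ≤ C * house (algebraMap (𝓞 k) k a) := by
  classical
  obtain ⟨c, hc⟩ : ∃ c : ℝ, ∀ (α : 𝓞 k) (i : k →+* ℂ),
      ‖(((integralBasis k).reindex (equivReindex k).symm).repr α i : ℂ)‖ ≤
        c * house (algebraMap (𝓞 k) k α) :=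
    ⟨_, fun α i => house.basis_repr_norm_le_const_mul_house k α i⟩
  let B : Module.Basis (k →+* ℂ) ℤ (𝓞 k) := (RingOfIntegers.basis k).reindex (equivReindex k).symm
  refine ⟨max 1 c, B.equivFun.toLinearMap.toAddMonoidHom, le_max_left _ _, B.equivFun.injective, ?_⟩
  intro a i
  have h1 : (((integralBasis k).reindex (equivReindex k).symm).repr (a : k) i) =
      ((B.repr a i : ℤ) : ℚ) := by
    rw [Module.Basis.repr_reindex_apply]
    have h2 := integralBasis_repr_apply k a (((equivReindex k).symm).symm i)
    rw [h2]
    simp only [B, Module.Basis.repr_reindex_apply]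
    simp
  have h3 := hc a i
  have h4 : ‖(((integralBasis k).reindex (equivReindex k).symm).repr (a : k) i : ℂ)‖ =
      |((B.repr a i : ℤ) : ℝ)| := by
    rw [h1]
    simp
  rw [h4] at h3
  refine h3.trans ?_
  exact mul_le_mul_of_nonneg_right (le_max_right _ _) (house_nonneg _)

end Pool.Agent.H8.KF
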