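import Pool.Agent.H8.KF.BC
import Pool.Agent.H72.ES.SmallTilde

/-! # [KF-SR] Real functions with small low expansion coefficients are small at near solutions

Real version of `Pool.Agent.H72.ES.small_tilde`, with low coefficients bounded by `m k` instead of
zero. As there, `evt d c t z = evt d c t zT + (difference)`, `zT = zT br t T`
(`Pool.Agent.H72.ES.Approx`), the difference is estimated literally as in `small_tilde`
(`approx_z` with `ε = 0`, `|c i j| ≤ M` directly). For the first term let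
`P = evt d (C c_ij) (C κ² X) (C θ + C κ * trunc T (map φ w)) ∈ ℝ[X]` (`κ = O.φ O.κ`); then
`eval₂ C u P = evt d c t zT` for `u = C (1/κ²) * t = ap_u O t` (`zT` is defined by
`eval₂ (C.comp O.φ)` of `trunc T br.w`, which is `eval₂ C` of its image under `O.φ`),
`wn |.| (1/b²) K P ≤ (d+1)(n+1) M (2Q²)^n` for all `K` (as in `ap_evt_wn`;
`wn |.| (map φ a) ≤ wn ν a` by `O.φ_le`, `ap_trunc_wn`, `br.bd`), and for `k < T`
`P.coeff k = ∑ c i j * O.φ (bc ..)` by `bc_coeff` (replacing `w` by its truncation does not change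
the coefficients below `T`, as in `ap_dvd`). Finally
`wn (eval₂ C u P) ≤ ∑_k |P_k| μ^k` with `μ = τ b²` (`ap_u_wn`), `≤ ∑_{k<T} m k μ^k +
∑_{k≥T} |P_k| (1/b²)^k (μ b²)^k ≤ ∑_{k<T} m k μ^k + (d+1)(n+1) M (2Q²)^n (τ b⁴)^T`, as
`τ b⁴ ≤ 1`. The constants are combined as at the end of `small_tilde`. -/

namespace Pool.Agent.H8.KF

open Finset Polynomial Pool.Agent.H72.ES

variable {n Q : ℕ} {f : ℤ[X]} {θ : ℝ}

/-- evaluation of a real polynomial with small low coefficients -/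
theorem sr_eval (p : ℝ[X]) (r : ℝ) (hr : 0 < r) (M : ℝ)
    (hM : ∀ K, wn (fun a : ℝ => |a|) r K (p : PowerSeries ℝ) ≤ M) (T : ℕ) (m : ℕ → ℝ)
    (hT : ∀ k < T, |p.coeff k| ≤ m k)
    (ρ : ℝ) (hρ : 0 ≤ ρ) (u : PowerSeries ℝ) (μ : ℝ)
    (hμ : ∀ K, wn (fun a : ℝ => |a|) ρ K u ≤ μ) (hμr : μ ≤ r) (K : ℕ) :
    wn (fun a : ℝ => |a|) ρ K (Polynomial.eval₂ (PowerSeries.C (R := ℝ)) u p) ≤
      (∑ k ∈ range T, m k * μ ^ k) + M * (μ / r) ^ T := by
  have hsm := subMul_abs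
  have hμ0 : 0 ≤ μ := (wn_nonneg hsm hρ K u).trans (hμ K)
  have hq0 : 0 ≤ μ / r := div_nonneg hμ0 hr.le
  have hq1 : μ / r ≤ 1 := by rw [div_le_one hr]; exact hμr
  rw [Polynomial.eval₂_eq_sum_range]
  refine (wn_sum_le hsm hρ K _ _).trans ?_
  have hterm : ∀ k ∈ range (p.natDegree + 1),
      wn (fun a : ℝ => |a|) ρ K (PowerSeries.C (p.coeff k) * u ^ k) ≤
        (if k < T then m k * μ ^ k else 0) + (μ / r) ^ T * (|p.coeff k| * r ^ k) := by
    intro k _
    have h1 : wn (fun a : ℝ => |a|) ρ K (PowerSeries.C (p.coeff k) * u ^ k)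
        ≤ |p.coeff k| * μ ^ k := by
      refine (wn_mul_le hsm hρ K _ _).trans ?_
      rw [wn_C hsm]
      refine mul_le_mul le_rfl ?_ (wn_nonneg hsm hρ K _) (abs_nonneg _)
      exact (wn_pow_le hsm hρ K u k).trans
        (pow_le_pow_left₀ (wn_nonneg hsm hρ K u) (hμ K) k)
    have h0 : 0 ≤ (μ / r) ^ T * (|p.coeff k| * r ^ k) := by positivity
    by_cases hk : k < T
    · rw [if_pos hk]
      have h2 : |p.coeff k| * μ ^ k ≤ m k * μ ^ k :=
        mul_le_mul_of_nonneg_right (hT k hk) (pow_nonneg hμ0 k)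
      linarith
    · rw [if_neg hk, zero_add]
      have hk' : T ≤ k := not_lt.1 hk
      have h2 : μ ^ k = (μ / r) ^ k * r ^ k := by
        rw [div_pow, div_mul_cancel₀ _ (pow_ne_zero _ hr.ne')]
      have h3 : (μ / r) ^ k ≤ (μ / r) ^ T := pow_le_pow_of_le_one hq0 hq1 hk'
      calc _ ≤ |p.coeff k| * μ ^ k := h1
        _ = (μ / r) ^ k * (|p.coeff k| * r ^ k) := by rw [h2]; ring
        _ ≤ _ := mul_le_mul_of_nonneg_right h3 (by positivity)
  refine (sum_le_sum hterm).trans ?_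
  rw [sum_add_distrib]
  refine add_le_add ?_ ?_
  · rw [← sum_filter]
    refine sum_le_sum_of_subset_of_nonneg ?_ ?_
    · intro k hk
      exact mem_range.2 (mem_filter.1 hk).2
    · intro k hk _
      exact mul_nonneg ((abs_nonneg _).trans (hT k (mem_range.1 hk))) (pow_nonneg hμ0 k)
  · rw [← mul_sum, mul_comm]
    refine mul_le_mul_of_nonneg_right ?_ (pow_nonneg hq0 _)
    have h := hM p.natDegree
    unfold wn at h
    simpa only [Polynomial.coeff_coe] using h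

/-- real version of `ap_evt_wn` -/
theorem sr_evt_wn (O : Ord ℝ n Q f θ) {F : ℕ → ℕ → ℤ} (hF : Norml n Q f F)
    (w : PowerSeries ℝ) (hw : ∀ K, wn (fun a : ℝ => |a|) (1 / bb n Q ^ 2) K w ≤ 1 / bb n Q)
    (d : ℕ) (c : ℕ → ℕ → ℝ) (hc : ∀ i j, c i j ≠ 0 → i + j ≤ d ∧ j ≤ n) (M : ℝ)
    (hM : ∀ i j, |c i j| ≤ M) (K : ℕ) :
    wn (fun a : ℝ => |a|) (1 / bb n Q ^ 2) K (evt d (fun i j => PowerSeries.C (c i j))
      (PowerSeries.C (O.φ O.κ) ^ 2 * PowerSeries.X)
      (PowerSeries.C θ + PowerSeries.C (O.φ O.κ) * w)) ≤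
      (d + 1) * (n + 1) * M * (2 * (Q : ℝ) ^ 2) ^ n := by
  have hn := hF.hn
  have hQ := hF.hQ
  have hsm := subMul_abs
  have hb1 := one_le_bb hn hQ
  have hb0 : 0 < bb n Q := by linarith
  have hM0 : 0 ≤ M := (abs_nonneg _).trans (hM 0 0)
  have hρ : 0 ≤ 1 / bb n Q ^ 2 := by positivity
  have hQ1 := one_le_QR hn hQ
  obtain ⟨hκpos, hκ, -⟩ := ap_kappa O hF
  have hκb : |O.φ O.κ| ≤ bb n Q := hκ.trans (Qpow_le_bb hn hQ (by nlinarith))
  have hκ0 := hκpos.le
  have hθ : |θ| ≤ (Q : ℝ) ^ 2 := by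
    have h1 := O.φ_le O.α
    rw [O.φ_α, Real.norm_eq_abs] at h1
    exact h1.trans (O.ν_α.trans (nQ_le hn hQ))
  set κ : ℝ := O.φ O.κ with hκdef
  set ρ := 1 / bb n Q ^ 2 with hρdef
  have hX : wn (fun a : ℝ => |a|) ρ K (PowerSeries.C κ ^ 2 * PowerSeries.X) ≤ 1 := by
    refine (wn_mul_le hsm hρ K _ _).trans ?_
    have h1 : wn (fun a : ℝ => |a|) ρ K (PowerSeries.C κ ^ 2) ≤ bb n Q ^ 2 := by
      refine (wn_pow_le hsm hρ K _ _).trans ?_
      rw [wn_C hsm]
      exact pow_le_pow_left₀ hκ0 hκb 2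
    calc wn (fun a : ℝ => |a|) ρ K (PowerSeries.C κ ^ 2) *
          wn (fun a : ℝ => |a|) ρ K PowerSeries.X
        ≤ bb n Q ^ 2 * ρ := mul_le_mul h1 (wn_X_le hsm hρ K) (wn_nonneg hsm hρ K _) (by positivity)
      _ = 1 := by
          rw [hρdef]
          field_simp
  have hZ : wn (fun a : ℝ => |a|) ρ K (PowerSeries.C θ + PowerSeries.C κ * w) ≤
      2 * (Q : ℝ) ^ 2 := by
    refine (wn_add_le hsm hρ K _ _).trans ?_
    rw [wn_C hsm]
    have h2 : wn (fun a : ℝ => |a|) ρ K (PowerSeries.C κ * w) ≤ (Q : ℝ) ^ 2 := by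
      refine (wn_mul_le hsm hρ K _ _).trans ?_
      rw [wn_C hsm]
      calc |κ| * wn (fun a : ℝ => |a|) ρ K w ≤ bb n Q * (1 / bb n Q) :=
            mul_le_mul hκb (hw K) (wn_nonneg hsm hρ K _) hb0.le
        _ = 1 := by field_simp
        _ ≤ (Q : ℝ) ^ 2 := one_le_pow₀ hQ1
    linarith
  have h2Q : (1 : ℝ) ≤ 2 * (Q : ℝ) ^ 2 := by
    have : (1 : ℝ) ≤ (Q : ℝ) ^ 2 := one_le_pow₀ hQ1
    linarith
  unfold evt
  refine (wn_sum_le hsm hρ K _ _).trans ?_
  have hi : ∀ i ∈ range (d + 1), wn (fun a : ℝ => |a|) ρ K (∑ j ∈ range (d + 1 - i),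
      PowerSeries.C (c i j) * (PowerSeries.C κ ^ 2 * PowerSeries.X) ^ (d - i - j) *
      (PowerSeries.C θ + PowerSeries.C κ * w) ^ j) ≤
      (n + 1) * (M * (2 * (Q : ℝ) ^ 2) ^ n) := by
    intro i _
    refine (wn_sum_le hsm hρ K _ _).trans ?_
    have hj : ∀ j ∈ range (d + 1 - i), wn (fun a : ℝ => |a|) ρ K (PowerSeries.C (c i j) *
        (PowerSeries.C κ ^ 2 * PowerSeries.X) ^ (d - i - j) *
        (PowerSeries.C θ + PowerSeries.C κ * w) ^ j) ≤
        if j ≤ n then M * (2 * (Q : ℝ) ^ 2) ^ n else 0 := by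
      intro j _
      by_cases h0 : c i j = 0
      · rw [h0, map_zero, zero_mul, zero_mul, wn_zero hsm]
        split_ifs <;> positivity
      · have hjn := (hc i j h0).2
        rw [if_pos hjn, mul_assoc]
        refine (wn_mul_le hsm hρ K _ _).trans ?_
        rw [wn_C hsm]
        refine mul_le_mul (hM i j) ?_ (wn_nonneg hsm hρ K _) hM0
        refine (wn_mul_le hsm hρ K _ _).trans ?_
        have h1 : wn (fun a : ℝ => |a|) ρ K
            ((PowerSeries.C κ ^ 2 * PowerSeries.X) ^ (d - i - j)) ≤ 1 :=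
          (wn_pow_le hsm hρ K _ _).trans (pow_le_one₀ (wn_nonneg hsm hρ K _) hX)
        have h2 : wn (fun a : ℝ => |a|) ρ K ((PowerSeries.C θ + PowerSeries.C κ * w) ^ j) ≤
            (2 * (Q : ℝ) ^ 2) ^ n :=
          ((wn_pow_le hsm hρ K _ _).trans (pow_le_pow_left₀ (wn_nonneg hsm hρ K _) hZ j)).trans
            (pow_le_pow_right₀ h2Q hjn)
        calc _ ≤ 1 * (2 * (Q : ℝ) ^ 2) ^ n :=
              mul_le_mul h1 h2 (wn_nonneg hsm hρ K _) zero_le_one
          _ = _ := one_mul _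
    refine (sum_le_sum hj).trans ?_
    rw [← sum_filter, sum_const, nsmul_eq_mul]
    refine mul_le_mul_of_nonneg_right ?_ (by positivity)
    have hcard : ((range (d + 1 - i)).filter fun j => j ≤ n).card ≤ n + 1 := by
      calc _ ≤ (range (n + 1)).card := by
            refine card_le_card fun j hj => ?_
            rw [mem_filter] at hj
            rw [mem_range]
            omega
        _ = n + 1 := card_range _
    exact_mod_cast hcard
  refine (sum_le_card_nsmul _ _ _ hi).trans (le_of_eq ?_)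
  rw [card_range, nsmul_eq_mul]
  push_cast
  ring

/-- replacing `w` by its truncation does not change the low coefficients -/
theorem sr_dvd (κ : ℝ) (w : PowerSeries ℝ) (T d : ℕ) (c : ℕ → ℕ → ℝ) (θ : ℝ) :
    PowerSeries.X ^ T ∣
      evt d (fun i j => PowerSeries.C (c i j)) (PowerSeries.C κ ^ 2 * PowerSeries.X)
        (PowerSeries.C θ + PowerSeries.C κ * ((PowerSeries.trunc T w : ℝ[X]) :
          PowerSeries ℝ)) -
      evt d (fun i j => PowerSeries.C (c i j)) (PowerSeries.C κ ^ 2 * PowerSeries.X)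
        (PowerSeries.C θ + PowerSeries.C κ * w) := by
  have h0 : (PowerSeries.X : PowerSeries ℝ) ^ T ∣
      ((PowerSeries.trunc T w : ℝ[X]) : PowerSeries ℝ) - w := by
    rw [PowerSeries.X_pow_dvd_iff]
    intro m hm
    rw [map_sub, Polynomial.coeff_coe, PowerSeries.coeff_trunc, if_pos hm, sub_self]
  unfold evt
  rw [← sum_sub_distrib]
  refine Finset.dvd_sum fun i _ => ?_
  rw [← sum_sub_distrib]
  refine Finset.dvd_sum fun j _ => ?_
  rw [← mul_sub]
  refine Dvd.dvd.mul_left ?_ _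
  refine dvd_trans ?_ (sub_dvd_pow_sub_pow _ _ j)
  have h1 : PowerSeries.C θ + PowerSeries.C κ * ((PowerSeries.trunc T w : ℝ[X]) :
      PowerSeries ℝ) - (PowerSeries.C θ + PowerSeries.C κ * w) =
      PowerSeries.C κ * (((PowerSeries.trunc T w : ℝ[X]) : PowerSeries ℝ) - w) := by ring
  rw [h1]
  exact Dvd.dvd.mul_left h0 _

/-- the image series is not larger -/
theorem sr_map_wn (O : Ord ℝ n Q f θ) {ρ : ℝ} (hρ : 0 ≤ ρ) (w : PowerSeries O.R) (K : ℕ) :
    wn (fun a : ℝ => |a|) ρ K (PowerSeries.map O.φ w) ≤ wn O.ν ρ K w := by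
  unfold wn
  refine sum_le_sum fun k _ => mul_le_mul_of_nonneg_right ?_ (pow_nonneg hρ _)
  rw [PowerSeries.coeff_map]
  have h := O.φ_le (PowerSeries.coeff k w)
  rwa [Real.norm_eq_abs] at h

theorem sr_trunc_wn {ρ : ℝ} (hρ : 0 ≤ ρ) (w : PowerSeries ℝ) (T K : ℕ) :
    wn (fun a : ℝ => |a|) ρ K ((PowerSeries.trunc T w : ℝ[X]) : PowerSeries ℝ) ≤
      wn (fun a : ℝ => |a|) ρ K w := by
  unfold wn
  refine sum_le_sum fun k _ => mul_le_mul_of_nonneg_right ?_ (pow_nonneg hρ _)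
  rw [Polynomial.coeff_coe, PowerSeries.coeff_trunc]
  split_ifs
  · exact le_rfl
  · have h0 : |(0 : ℝ)| ≤ |PowerSeries.coeff k w| := by
      rw [abs_zero]
      exact abs_nonneg _
    exact h0

theorem sr_trunc_map (O : Ord ℝ n Q f θ) (w : PowerSeries O.R) (T : ℕ) :
    (PowerSeries.trunc T (PowerSeries.map O.φ w) : ℝ[X]) =
      (PowerSeries.trunc T w).map O.φ := by
  ext k
  rw [Polynomial.coeff_map, PowerSeries.coeff_trunc, PowerSeries.coeff_trunc,
    PowerSeries.coeff_map]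
  split_ifs
  · rfl
  · rw [map_zero]

/-- the value at the truncated branch -/
theorem sr_eval_zT (O : Ord ℝ n Q f θ) {F : ℕ → ℕ → ℤ} (hF : Norml n Q f F) (br : Branch O F)
    (t : PowerSeries ℝ) (ρ : ℝ) (hρ : 0 < ρ) (τ : ℝ)
    (hτ : ∀ K, wn (fun a : ℝ => |a|) ρ K t ≤ τ) (hτb : τ * bb n Q ^ 5 ≤ 1)
    (d : ℕ) (c : ℕ → ℕ → ℝ) (hc : ∀ i j, c i j ≠ 0 → i + j ≤ d ∧ j ≤ n) (M : ℝ)
    (hM : ∀ i j, |c i j| ≤ M) (T : ℕ) (m : ℕ → ℝ)
    (hm : ∀ k < T, |∑ i ∈ range (d + 1), ∑ j ∈ range (d + 1 - i),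
      c i j * O.φ (bc O br d i j k)| ≤ m k) (K : ℕ) :
    wn (fun a : ℝ => |a|) ρ K (evt d (fun i j => PowerSeries.C (c i j)) t (zT br t T)) ≤
      (∑ k ∈ range T, m k * (τ * bb n Q ^ 2) ^ k) +
      (d + 1) * (n + 1) * M * (2 * (Q : ℝ) ^ 2) ^ n * (τ * bb n Q ^ 4) ^ T := by
  have hn := hF.hn
  have hQ := hF.hQ
  have hb1 := one_le_bb hn hQ
  have hb0 : 0 < bb n Q := by linarith
  have hτ0 : 0 ≤ τ := (wn_nonneg subMul_abs hρ.le 0 t).trans (hτ 0)
  obtain ⟨hκ0, -, -⟩ := ap_kappa O hF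
  have hκne : O.φ O.κ ≠ 0 := abs_pos.1 hκ0
  obtain ⟨ht2, -, -, -⟩ := ap_tau hb1 hτ0 hτb
  let P : ℝ[X] := evt d (fun i j => Polynomial.C (c i j))
    (Polynomial.C (O.φ O.κ) ^ 2 * Polynomial.X)
    (Polynomial.C θ + Polynomial.C (O.φ O.κ) *
      PowerSeries.trunc T (PowerSeries.map O.φ br.w))
  have hcoe : (P : PowerSeries ℝ) = evt d (fun i j => PowerSeries.C (c i j))
      (PowerSeries.C (O.φ O.κ) ^ 2 * PowerSeries.X)
        (PowerSeries.C θ + PowerSeries.C (O.φ O.κ) *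
          ((PowerSeries.trunc T (PowerSeries.map O.φ br.w) : ℝ[X]) : PowerSeries ℝ)) := by
    have h := evt_map (Polynomial.coeToPowerSeries.ringHom (R := ℝ)) d
      (fun i j => Polynomial.C (c i j)) (Polynomial.C (O.φ O.κ) ^ 2 * Polynomial.X)
      (Polynomial.C θ + Polynomial.C (O.φ O.κ) *
        PowerSeries.trunc T (PowerSeries.map O.φ br.w))
    simp only [Polynomial.coeToPowerSeries.ringHom_apply, map_add, map_mul, map_pow] at h
    simp only [Polynomial.coe_C, Polynomial.coe_X] at h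
    exact h
  have heval : Polynomial.eval₂ (PowerSeries.C (R := ℝ)) (ap_u O t) P =
      evt d (fun i j => PowerSeries.C (c i j)) t (zT br t T) := by
    have h := evt_map (Polynomial.eval₂RingHom (PowerSeries.C (R := ℝ)) (ap_u O t)) d
      (fun i j => Polynomial.C (c i j)) (Polynomial.C (O.φ O.κ) ^ 2 * Polynomial.X)
      (Polynomial.C θ + Polynomial.C (O.φ O.κ) *
        PowerSeries.trunc T (PowerSeries.map O.φ br.w))
    simp only [Polynomial.coe_eval₂RingHom, Polynomial.eval₂_C, Polynomial.eval₂_add,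
      Polynomial.eval₂_mul, Polynomial.eval₂_pow, Polynomial.eval₂_X] at h
    have e1 : PowerSeries.C (O.φ O.κ) ^ 2 * ap_u O t = t := by
      unfold ap_u
      rw [← mul_assoc, ← map_pow, ← map_mul, mul_one_div_cancel (pow_ne_zero 2 hκne), map_one,
        one_mul]
    have e2 : PowerSeries.C θ + PowerSeries.C (O.φ O.κ) *
        Polynomial.eval₂ (PowerSeries.C (R := ℝ)) (ap_u O t)
          (PowerSeries.trunc T (PowerSeries.map O.φ br.w)) = zT br t T := by
      rw [sr_trunc_map, Polynomial.eval₂_map]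
      rfl
    rw [e1, e2] at h
    exact h
  rw [← heval]
  have hwn : ∀ K, wn (fun a : ℝ => |a|) (1 / bb n Q ^ 2) K (P : PowerSeries ℝ) ≤
      (d + 1) * (n + 1) * M * (2 * (Q : ℝ) ^ 2) ^ n := by
    intro K
    rw [hcoe]
    exact sr_evt_wn O hF _ (fun K => (sr_trunc_wn (by positivity) _ T K).trans
      ((sr_map_wn O (by positivity) br.w K).trans (br.bd K))) d c hc M hM K
  have hcoef : ∀ k < T, |P.coeff k| ≤ m k := by
    intro k hk
    have h1 := (PowerSeries.X_pow_dvd_iff.1 (sr_dvd (O.φ O.κ) (PowerSeries.map O.φ br.w) T d c θ))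
      k hk
    rw [map_sub, ← hcoe, bc_coeff O br d c k, Polynomial.coeff_coe, sub_eq_zero] at h1
    rw [h1]
    exact hm k hk
  refine (sr_eval P (1 / bb n Q ^ 2) (by positivity) _ hwn T m hcoef ρ hρ.le (ap_u O t)
    (τ * bb n Q ^ 2) (fun K => ap_u_wn O hF hρ.le (hτ K)) ht2 K).trans (le_of_eq ?_)
  congr 3
  field_simp

private theorem sr_pow_sub_pow_le {ρ : ℝ} (hρ : 0 ≤ ρ) (K : ℕ) (x y : PowerSeries ℝ) {B D : ℝ}
    (hB : 1 ≤ B) (hx : wn (fun a : ℝ => |a|) ρ K x ≤ B) (hy : wn (fun a : ℝ => |a|) ρ K y ≤ B)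
    (hD : wn (fun a : ℝ => |a|) ρ K (x - y) ≤ D) (j : ℕ) :
    wn (fun a : ℝ => |a|) ρ K (x ^ j - y ^ j) ≤ j * B ^ j * D := by
  have hsm := subMul_abs
  have hD0 : 0 ≤ D := (wn_nonneg hsm hρ K _).trans hD
  have hB0 : 0 ≤ B := zero_le_one.trans hB
  induction j with
  | zero => simp [wn_zero hsm]
  | succ j ih =>
    have h1 : x ^ (j + 1) - y ^ (j + 1) = x ^ j * (x - y) + (x ^ j - y ^ j) * y := by ring
    rw [h1]
    refine (wn_add_le hsm hρ K _ _).trans ?_
    have h2 : wn (fun a : ℝ => |a|) ρ K (x ^ j * (x - y)) ≤ B ^ j * D := by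
      refine (wn_mul_le hsm hρ K _ _).trans ?_
      refine mul_le_mul ?_ hD (wn_nonneg hsm hρ K _) (pow_nonneg hB0 _)
      exact (wn_pow_le hsm hρ K x j).trans (pow_le_pow_left₀ (wn_nonneg hsm hρ K x) hx j)
    have h3 : wn (fun a : ℝ => |a|) ρ K ((x ^ j - y ^ j) * y) ≤ (j * B ^ j * D) * B := by
      refine (wn_mul_le hsm hρ K _ _).trans ?_
      exact mul_le_mul ih hy (wn_nonneg hsm hρ K _) (by positivity)
    have h4 : B ^ j * D ≤ B ^ (j + 1) * D :=
      mul_le_mul_of_nonneg_right (pow_le_pow_right₀ hB (Nat.le_succ j)) hD0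
    push_cast
    calc _ ≤ B ^ j * D + (j * B ^ j * D) * B := add_le_add h2 h3
      _ ≤ B ^ (j + 1) * D + (j * B ^ j * D) * B := by linarith
      _ = _ := by ring

theorem small_real (O : Ord ℝ n Q f θ) {F : ℕ → ℕ → ℤ} (hF : Norml n Q f F)
    (br : Branch O F) (t z : PowerSeries ℝ) (ρ : ℝ) (hρ : 0 < ρ) (τ : ℝ)
    (hτ : ∀ K, wn (fun a : ℝ => |a|) ρ K t ≤ τ) (hτb : τ * bb n Q ^ 5 ≤ 1)
    (he : ∀ K, wn (fun a : ℝ => |a|) ρ K (z - PowerSeries.C θ) ≤ 1 / bb n Q)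
    (heq : evt n (cst (PowerSeries ℝ) F) t z = 0)
    (d : ℕ) (c : ℕ → ℕ → ℝ) (hc : ∀ i j, c i j ≠ 0 → i + j ≤ d ∧ j ≤ n) (M : ℝ)
    (hM : ∀ i j, |c i j| ≤ M) (T : ℕ) (m : ℕ → ℝ)
    (hm : ∀ k < T, |∑ i ∈ range (d + 1), ∑ j ∈ range (d + 1 - i),
      c i j * O.φ (bc O br d i j k)| ≤ m k) (K : ℕ) :
    wn (fun a : ℝ => |a|) ρ K (evt d (fun i j => PowerSeries.C (c i j)) t z) ≤
      (∑ k ∈ range T, m k * (τ * bb n Q ^ 2) ^ k) +
        (d + 1) * M * bb n Q ^ 4 * (τ * bb n Q ^ 4) ^ T := by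
  have hsm := subMul_abs
  have hρ0 := hρ.le
  have hn := hF.hn
  have hQ := hF.hQ
  have hb1 : 1 ≤ bb n Q := one_le_bb hn hQ
  have hb0 : 0 < bb n Q := bb_pos hn hQ
  have hQ1 : (1 : ℝ) ≤ Q := one_le_QR hn hQ
  have hτ0 : 0 ≤ τ := (wn_nonneg hsm hρ0 K t).trans (hτ K)
  have hτ1 : τ ≤ 1 := by
    have h1 : 1 ≤ bb n Q ^ 5 := one_le_pow₀ hb1
    calc τ = τ * 1 := (mul_one τ).symm
      _ ≤ τ * bb n Q ^ 5 := mul_le_mul_of_nonneg_left h1 hτ0
      _ ≤ 1 := hτb
  have hM0 : 0 ≤ M := (abs_nonneg _).trans (hM 0 0)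
  set E : ℝ := (τ * bb n Q ^ 4) ^ T with hE
  have hE0 : 0 ≤ E := by positivity
  set S : ℝ := ∑ k ∈ range T, m k * (τ * bb n Q ^ 2) ^ k with hS
  set B : ℝ := 2 * (Q : ℝ) ^ 2 with hBdef
  have hQ2 : (1 : ℝ) ≤ (Q : ℝ) ^ 2 := one_le_pow₀ hQ1
  have hB1 : 1 ≤ B := by rw [hBdef]; linarith
  have hθ : |θ| ≤ (Q : ℝ) ^ 2 := by
    have h1 := O.φ_le O.α
    rw [O.φ_α, Real.norm_eq_abs] at h1
    exact h1.trans (O.ν_α.trans (nQ_le hn hQ))
  have hbinv : 1 / bb n Q ≤ 1 := by rw [div_le_one hb0]; exact hb1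
  have hbd : ∀ x : PowerSeries ℝ, wn (fun a : ℝ => |a|) ρ K (x - PowerSeries.C θ) ≤ 1 / bb n Q →
      wn (fun a : ℝ => |a|) ρ K x ≤ B := by
    intro x hx
    have h1 : x = (x - PowerSeries.C θ) + PowerSeries.C θ := by ring
    rw [h1]
    refine (wn_add_le hsm hρ0 K _ _).trans ?_
    rw [wn_C hsm]
    rw [hBdef]
    linarith
  have hzB := hbd z (he K)
  have hzTB := hbd (zT br t T) (wn_zT_le O hF br t ρ hρ τ hτ hτb T K)
  set D : ℝ := 2 * bb n Q * (0 + bb n Q * (τ * bb n Q ^ 4) ^ T) with hD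
  have happ : wn (fun a : ℝ => |a|) ρ K (z - zT br t T) ≤ D := by
    refine approx_z O hF br t z ρ hρ τ hτ hτb he 0 ?_ T K
    intro K'
    rw [heq, wn_zero hsm]
  have hD0 : 0 ≤ D := (wn_nonneg hsm hρ0 K _).trans happ
  have hfirst := sr_eval_zT O hF br t ρ hρ τ hτ hτb d c hc M hM T m hm K
  -- the difference
  have hdiff : evt d (fun i j => PowerSeries.C (c i j)) t z -
      evt d (fun i j => PowerSeries.C (c i j)) t (zT br t T) =
      ∑ i ∈ range (d + 1), ∑ j ∈ range (d + 1 - i),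
        PowerSeries.C (c i j) * t ^ (d - i - j) * (z ^ j - zT br t T ^ j) := by
    unfold evt
    rw [← sum_sub_distrib]
    refine sum_congr rfl fun i _ => ?_
    rw [← sum_sub_distrib]
    refine sum_congr rfl fun j _ => ?_
    ring
  have hsecond : wn (fun a : ℝ => |a|) ρ K (evt d (fun i j => PowerSeries.C (c i j)) t z -
      evt d (fun i j => PowerSeries.C (c i j)) t (zT br t T)) ≤
      (d + 1) * ((n + 1) * (M * (n * B ^ n * D))) := by
    rw [hdiff]
    refine (wn_sum_le hsm hρ0 K _ _).trans ?_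
    have hi : ∀ i ∈ range (d + 1), wn (fun a : ℝ => |a|) ρ K (∑ j ∈ range (d + 1 - i),
        PowerSeries.C (c i j) * t ^ (d - i - j) * (z ^ j - zT br t T ^ j)) ≤
        (n + 1) * (M * (n * B ^ n * D)) := by
      intro i _
      refine (wn_sum_le hsm hρ0 K _ _).trans ?_
      have hj : ∀ j ∈ range (d + 1 - i), wn (fun a : ℝ => |a|) ρ K
          (PowerSeries.C (c i j) * t ^ (d - i - j) * (z ^ j - zT br t T ^ j)) ≤
          if j ∈ range (n + 1) then M * (n * B ^ n * D) else 0 := by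
        intro j _
        split_ifs with hjn
        · have hjn' : j ≤ n := Nat.lt_succ_iff.1 (mem_range.1 hjn)
          refine (wn_mul_le hsm hρ0 K _ _).trans ?_
          refine mul_le_mul ?_ ?_ (wn_nonneg hsm hρ0 K _) hM0
          · refine (wn_mul_le hsm hρ0 K _ _).trans ?_
            rw [wn_C hsm]
            have h1 : |c i j| ≤ M := hM i j
            have h2 : wn (fun a : ℝ => |a|) ρ K (t ^ (d - i - j)) ≤ 1 :=
              (wn_pow_le hsm hρ0 K t _).trans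
                (pow_le_one₀ (wn_nonneg hsm hρ0 K t) ((hτ K).trans hτ1))
            calc _ ≤ M * 1 := mul_le_mul h1 h2 (wn_nonneg hsm hρ0 K _) hM0
              _ = M := mul_one M
          · refine (sr_pow_sub_pow_le hρ0 K z (zT br t T) hB1 hzB hzTB happ j).trans ?_
            refine mul_le_mul_of_nonneg_right ?_ hD0
            refine mul_le_mul (by exact_mod_cast hjn') (pow_le_pow_right₀ hB1 hjn')
              (by positivity) (Nat.cast_nonneg _)
        · have : c i j = 0 := by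
            by_contra hne
            exact hjn (mem_range.2 (Nat.lt_succ_of_le (hc i j hne).2))
          rw [this, map_zero, zero_mul, zero_mul, wn_zero hsm]
      refine (sum_le_sum hj).trans ?_
      rw [← sum_filter, sum_const, nsmul_eq_mul]
      refine mul_le_mul_of_nonneg_right ?_ (by positivity)
      have h7 : ((range (d + 1 - i)).filter (fun j => j ∈ range (n + 1))).card ≤
          (range (n + 1)).card := card_le_card fun j hj => (mem_filter.1 hj).2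
      rw [card_range] at h7
      exact_mod_cast h7
    refine (sum_le_sum hi).trans ?_
    rw [sum_const, nsmul_eq_mul, card_range]
    push_cast
    exact le_rfl
  have hsplit : wn (fun a : ℝ => |a|) ρ K (evt d (fun i j => PowerSeries.C (c i j)) t z) ≤
      (S + (d + 1) * (n + 1) * M * B ^ n * E) + (d + 1) * ((n + 1) * (M * (n * B ^ n * D))) := by
    have h1 : evt d (fun i j => PowerSeries.C (c i j)) t z =
        evt d (fun i j => PowerSeries.C (c i j)) t (zT br t T) +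
        (evt d (fun i j => PowerSeries.C (c i j)) t z -
          evt d (fun i j => PowerSeries.C (c i j)) t (zT br t T)) := by ring
    rw [h1]
    exact (wn_add_le hsm hρ0 K _ _).trans (add_le_add hfirst hsecond)
  refine hsplit.trans ?_
  -- constants
  have hA : ((n : ℝ) + 1) * B ^ n ≤ bb n Q := by
    have h1 : B ^ n ≤ (Q : ℝ) ^ (2 * n + 1) := by
      rw [hBdef, mul_pow, ← pow_mul, pow_succ, mul_comm]
      exact mul_le_mul_of_nonneg_left (two_pow_leR hQ) (by positivity)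
    calc ((n : ℝ) + 1) * B ^ n ≤ Q * (Q : ℝ) ^ (2 * n + 1) :=
          mul_le_mul (n_add_one_leR hn hQ) h1 (by positivity) (by positivity)
      _ = (Q : ℝ) ^ (2 * n + 2) := by ring
      _ ≤ bb n Q := Qpow_le_bb hn hQ (by nlinarith)
  have hC : 1 + 2 * (n : ℝ) * bb n Q ^ 2 ≤ bb n Q ^ 3 := by
    have h1 : (1 : ℝ) ≤ bb n Q ^ 2 := one_le_pow₀ hb1
    have h2 : 1 + 2 * (n : ℝ) ≤ bb n Q := by
      have h3 : (Q : ℝ) ^ 2 ≤ bb n Q := Qpow_le_bb hn hQ (by nlinarith)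
      have h4 := n_leR hn hQ
      have h5 := sixteen_leR hn hQ
      nlinarith
    have h6 : bb n Q ^ 3 = bb n Q * bb n Q ^ 2 := by ring
    rw [h6]
    nlinarith
  have hfin : (S + (d + 1) * (n + 1) * M * B ^ n * E) +
      (d + 1) * ((n + 1) * (M * (n * B ^ n * D))) =
      S + ((d + 1) * M * E) * (((n + 1) * B ^ n) * (1 + 2 * (n : ℝ) * bb n Q ^ 2)) := by
    rw [hD, ← hE]
    ring
  rw [hfin]
  refine add_le_add le_rfl ?_
  have h1 : ((n : ℝ) + 1) * B ^ n * (1 + 2 * (n : ℝ) * bb n Q ^ 2) ≤ bb n Q * bb n Q ^ 3 :=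
    mul_le_mul hA hC (by positivity) hb0.le
  calc ((d + 1) * M * E) * (((n + 1) * B ^ n) * (1 + 2 * (n : ℝ) * bb n Q ^ 2))
      ≤ ((d + 1) * M * E) * (bb n Q * bb n Q ^ 3) :=
        mul_le_mul_of_nonneg_left h1 (by positivity)
    _ = (d + 1) * M * bb n Q ^ 4 * E := by ring

end Pool.Agent.H8.KF
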