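import Pool.Agent.H8.KF.UniB
import Pool.Agent.H72.ES.Bridge
import Pool.Agent.H8.NoPt.Mv

/-! # Finiteness of the set of exceptional polynomials -/

namespace Pool.Agent.H8.KF

open Finset Polynomial Pool.Agent.H72.ES Pool.Agent.H8.NoPt

theorem aeval_lead {n : ℕ} (G : MvPolynomial (Fin 2) ℤ) :
    MvPolynomial.aeval ![(1 : ℚ[X]), X] (MvPolynomial.homogeneousComponent n G) =
      leadQ n (arrM G) := by
  set L := MvPolynomial.homogeneousComponent n G with hL
  have hLhom : L.IsHomogeneous n := MvPolynomial.homogeneousComponent_isHomogeneous n G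
  have hLdeg : L.totalDegree ≤ n := hLhom.totalDegree_le
  have hLarr : ∀ i j, arrM L i j = if i + j = n then arrM G i j else 0 := by
    intro i j
    simp only [arrM, hL]
    rw [MvPolynomial.coeff_homogeneousComponent, ex_deg, ex_zero, ex_one]
  have h2 : MvPolynomial.aeval ![(1 : ℚ[X]), X] L =
      MvPolynomial.eval₂ (Int.castRingHom ℚ[X]) ![(1 : ℚ[X]), X] L := by
    rw [MvPolynomial.aeval_def]
    congr 1
  rw [h2, eval₂_arrM hLdeg, ev_zero_left]
  · unfold leadQ
    refine sum_congr rfl fun j hj => ?_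
    simp only [mem_range] at hj
    simp only [cst]
    rw [hLarr, if_pos (by omega)]
    simp
  · intro i j hij
    simp only [cst]
    rw [hLarr, if_neg hij]
    simp

/-- the largest absolute value of a coefficient -/
theorem coeff_le_sup (F : MvPolynomial (Fin 2) ℤ) (m : Fin 2 →₀ ℕ) :
    |F.coeff m| ≤ (((F.support.sup fun m => (F.coeff m).natAbs : ℕ) : ℤ)) := by
  by_cases hm : m ∈ F.support
  · have h1 : (F.coeff m).natAbs ≤ F.support.sup fun m => (F.coeff m).natAbs :=
      le_sup (f := fun m => (F.coeff m).natAbs) hm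
    rw [Int.abs_eq_natAbs]
    exact_mod_cast h1
  · rw [MvPolynomial.notMem_support_iff.1 hm, abs_zero]
    exact Int.natCast_nonneg _

/-- **Finiteness of the set of exceptional pairs** (polynomial, integer point) over a fixed number
field of degree at least three. -/
theorem finite_pairs (k : Type) [Field k] [NumberField k] (hk : 3 ≤ Module.finrank ℚ k) (n : ℕ)
    (hn : 4 ≤ n) :
    {p : MvPolynomial (Fin 2) ℤ × ℤ × ℤ | p.1.totalDegree ≤ n ∧
      Irreducible (MvPolynomial.map (Int.castRingHom ℚ)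
        (MvPolynomial.homogeneousComponent n p.1)) ∧
      Nonempty (k →+* AdjoinRoot (MvPolynomial.aeval ![(1 : ℚ[X]), X]
        (MvPolynomial.homogeneousComponent n p.1))) ∧
      MvPolynomial.eval ![p.2.1, p.2.2] p.1 = 0 ∧
      (((p.1.support.sup fun m => (p.1.coeff m).natAbs : ℕ) : ℤ)) ^ (10 ^ 7 * n ^ 8) <
          max |p.2.1| |p.2.2|}.Finite := by
  obtain ⟨C, hC⟩ := uniformK k hk hn
  set D : ℤ := max (C : ℤ) ((max 2 C : ℕ) : ℤ) ^ (10 ^ 7 * n ^ 8) with hD
  refine ((polyBox_finite n (max C 1)).prod ((Set.finite_Icc (-D) D).prod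
    (Set.finite_Icc (-D) D))).subset ?_
  rintro ⟨F, x, y⟩ ⟨hdeg, hirr, hk', hz, hbig⟩
  simp only at hdeg hirr hk' hz hbig
  have hbd := coeff_le_sup F
  set H := F.support.sup fun m => (F.coeff m).natAbs with hH
  rw [aeval_lead] at hk'
  obtain ⟨ha, hirr'⟩ := leadQ_of_irreducible (by omega) hirr
  have hz' : ev n (arrM F) x y = 0 := by rw [← eval_arrM hdeg]; exact hz
  have hexp : 10 ^ 7 * n ^ 8 ≠ 0 := by
    have : 0 < n ^ 8 := by positivity
    omega
  have hHC : H ≤ max C 1 := by
    by_contra hcon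
    push Not at hcon
    have hH2 : 2 ≤ H := by
      have := le_max_right C 1
      omega
    have h1 := hC (arrM F) ha hirr' hk' H hH2 (fun i j _ => hbd _) x y hz'
    have h2 : (H : ℤ) ^ (10 ^ 7 * n ^ 8) < (C : ℤ) := by
      rcases le_max_iff.1 h1 with h | h
      · exact lt_of_lt_of_le hbig h
      · exact absurd hbig (not_lt.2 h)
    have h3 : (H : ℤ) ≤ (H : ℤ) ^ (10 ^ 7 * n ^ 8) :=
      le_self_pow₀ (by exact_mod_cast (by omega : 1 ≤ H)) hexp
    have h4 : (H : ℤ) < C := lt_of_le_of_lt h3 h2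
    have h5 : H < C := by exact_mod_cast h4
    have := le_max_left C 1
    omega
  have hxy : max |x| |y| ≤ D := by
    have h1 := hC (arrM F) ha hirr' hk' (max 2 C) (le_max_left _ _) (fun i j _ => by
      refine (hbd _).trans ?_
      have : H ≤ max 2 C := by omega
      exact_mod_cast this) x y hz'
    refine h1.trans (max_le ?_ ?_)
    · rw [hD]
      refine le_trans (le_max_left (C : ℤ) (((max 2 C : ℕ) : ℤ))) (le_self_pow₀ ?_ hexp)
      refine le_trans ?_ (le_max_right _ _)
      exact_mod_cast (by omega : 1 ≤ max 2 C)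
    · rw [hD]
      exact pow_le_pow_left₀ (Int.natCast_nonneg _) (le_max_right _ _) _
  refine ⟨⟨hdeg, fun m => (hbd m).trans (by exact_mod_cast hHC)⟩, ?_, ?_⟩
  · exact Set.mem_Icc.2 (abs_le.1 ((le_max_left _ _).trans hxy))
  · exact Set.mem_Icc.2 (abs_le.1 ((le_max_right _ _).trans hxy))

end Pool.Agent.H8.KF
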