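import Pool.Agent.H8.KF.Defs
import Pool.Agent.H72.ES.BivNorm

/-! # [KF-ADJ] Adjoining a root of a monic polynomial to a normed ring

`A` with a submultiplicative size `νA`, `g ∈ A[X]` monic of degree `m ≥ 1`, `ρ ≥ 1`,
`∑_{i<m} νA (g_i) ≤ ρ`. For `p ∈ A[X]` put `|p| = ∑_i νA (p_i) ρ^i` (submultiplicative,
subadditive on `A[X]`; cf. `Pool.Agent.H72.ES.LN`, or `wn νA ρ K` of the associated power series).
Reduction modulo `g` does not increase `|.|`: `|p %ₘ g| ≤ |p|` (induction on the degree: replace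
the leading monomial `a X^(m+k)` by `- a X^k ∑_{i<m} g_i X^i`, of size at most
`νA(a) ρ^k ∑ νA(g_i) ρ^i ≤ νA(a) ρ^k ρ^(m-1) ρ`). Put `ν s = |r(s)|`, where
`r = AdjoinRoot.modByMonicHom hg` is the representative of degree `< m`; then
`ν (mk p) ≤ |p|`, hence `ν (s s') ≤ |r(s) r(s')| ≤ ν s ν s'`, `ν (of a) ≤ νA a`, `ν root ≤ ρ`;
`c s i = (r s).coeff i`, injective additive, and `νA (c s i) ≤ νA (c s i) ρ^i ≤ ν s`. -/

namespace Pool.Agent.H8.KF

open Finset Polynomial Pool.Agent.H72.ES

section Adj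

variable {A : Type} [CommRing A] {νA : A → ℝ}

/-- weighted `ℓ¹` norm of a polynomial -/
noncomputable def adjW (νA : A → ℝ) (ρ : ℝ) (p : A[X]) : ℝ :=
  wn νA ρ p.natDegree (p : PowerSeries A)

theorem adjW_eq (hA : SubMul νA) (ρ : ℝ) (p : A[X]) {K : ℕ} (hK : p.natDegree ≤ K) :
    adjW νA ρ p = wn νA ρ K (p : PowerSeries A) := by
  unfold adjW wn
  refine sum_subset (range_mono (Nat.succ_le_succ hK)) fun i _ hi => ?_
  rw [mem_range, not_lt] at hi
  rw [Polynomial.coeff_coe, coeff_eq_zero_of_natDegree_lt (by omega), hA.zero, zero_mul]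

theorem adjW_nonneg (hA : SubMul νA) {ρ : ℝ} (hρ : 0 ≤ ρ) (p : A[X]) : 0 ≤ adjW νA ρ p :=
  wn_nonneg hA hρ _ _

theorem adjW_add_le (hA : SubMul νA) {ρ : ℝ} (hρ : 0 ≤ ρ) (p q : A[X]) :
    adjW νA ρ (p + q) ≤ adjW νA ρ p + adjW νA ρ q := by
  rw [adjW_eq hA ρ (p + q) (natDegree_add_le p q), adjW_eq hA ρ p (le_max_left _ _),
    adjW_eq hA ρ q (le_max_right p.natDegree _), Polynomial.coe_add]
  exact wn_add_le hA hρ _ _ _

theorem adjW_neg (hA : SubMul νA) (ρ : ℝ) (p : A[X]) : adjW νA ρ (-p) = adjW νA ρ p := by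
  unfold adjW wn
  rw [natDegree_neg]
  refine sum_congr rfl fun i _ => ?_
  rw [Polynomial.coeff_coe, Polynomial.coeff_coe, coeff_neg, hA.neg]

theorem adjW_mul_le (hA : SubMul νA) {ρ : ℝ} (hρ : 0 ≤ ρ) (p q : A[X]) :
    adjW νA ρ (p * q) ≤ adjW νA ρ p * adjW νA ρ q := by
  rw [adjW_eq hA ρ (p * q) natDegree_mul_le, adjW_eq hA ρ p (Nat.le_add_right _ q.natDegree),
    adjW_eq hA ρ q (Nat.le_add_left _ p.natDegree), Polynomial.coe_mul]
  exact wn_mul_le hA hρ _ _ _

theorem adjW_zero (hA : SubMul νA) (ρ : ℝ) : adjW νA ρ (0 : A[X]) = 0 := by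
  unfold adjW
  rw [Polynomial.coe_zero]
  exact wn_zero hA _

theorem adjW_C (hA : SubMul νA) (ρ : ℝ) (a : A) : adjW νA ρ (C a) = νA a := by
  rw [adjW_eq hA ρ (C a) (K := 0) (by simp)]
  unfold wn
  simp

theorem adjW_monomial (hA : SubMul νA) (ρ : ℝ) (a : A) (k : ℕ) :
    adjW νA ρ (monomial k a) = νA a * ρ ^ k := by
  rw [adjW_eq hA ρ (monomial k a) (natDegree_monomial_le a)]
  unfold wn
  rw [sum_eq_single k]
  · rw [Polynomial.coeff_coe, coeff_monomial, if_pos rfl]
  · intro i _ hi
    rw [Polynomial.coeff_coe, coeff_monomial, if_neg (Ne.symm hi), hA.zero, zero_mul]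
  · intro h
    exact absurd (mem_range.2 (Nat.lt_succ_self k)) h

theorem adjW_eraseLead (hA : SubMul νA) (ρ : ℝ) (p : A[X]) :
    adjW νA ρ p = adjW νA ρ p.eraseLead + νA p.leadingCoeff * ρ ^ p.natDegree := by
  rw [adjW_eq hA ρ p.eraseLead (K := p.natDegree)
    (p.eraseLead_natDegree_le.trans (Nat.sub_le _ _))]
  unfold adjW wn
  rw [sum_range_succ, sum_range_succ]
  have h1 : νA ((PowerSeries.coeff p.natDegree) (p.eraseLead : PowerSeries A)) = 0 := by
    rw [Polynomial.coeff_coe, eraseLead_coeff_natDegree, hA.zero]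
  rw [h1, zero_mul, add_zero, Polynomial.coeff_coe]
  congr 1
  refine sum_congr rfl fun i hi => ?_
  rw [mem_range] at hi
  rw [Polynomial.coeff_coe, Polynomial.coeff_coe, eraseLead_coeff_of_ne i hi.ne]

theorem adjW_eraseLead_monic (hA : SubMul νA) (g : A[X]) (hdeg : 0 < g.natDegree) (ρ : ℝ)
    (hρ1 : 1 ≤ ρ) (hρ : ∑ i ∈ range g.natDegree, νA (g.coeff i) ≤ ρ) :
    adjW νA ρ g.eraseLead ≤ ρ ^ g.natDegree := by
  have h0 : (0 : ℝ) ≤ ρ := zero_le_one.trans hρ1
  rw [adjW_eq hA ρ g.eraseLead (K := g.natDegree)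
    (g.eraseLead_natDegree_le.trans (Nat.sub_le _ _))]
  unfold wn
  rw [sum_range_succ, Polynomial.coeff_coe, eraseLead_coeff_natDegree, hA.zero, zero_mul,
    add_zero]
  calc ∑ i ∈ range g.natDegree, νA ((PowerSeries.coeff i) (g.eraseLead : PowerSeries A)) * ρ ^ i
      ≤ ∑ i ∈ range g.natDegree, νA (g.coeff i) * ρ ^ (g.natDegree - 1) := by
        refine sum_le_sum fun i hi => ?_
        rw [mem_range] at hi
        rw [Polynomial.coeff_coe, eraseLead_coeff_of_ne i hi.ne]
        exact mul_le_mul_of_nonneg_left (pow_le_pow_right₀ hρ1 (by omega)) (hA.nonneg _)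
    _ = (∑ i ∈ range g.natDegree, νA (g.coeff i)) * ρ ^ (g.natDegree - 1) := by rw [sum_mul]
    _ ≤ ρ * ρ ^ (g.natDegree - 1) := mul_le_mul_of_nonneg_right hρ (pow_nonneg h0 _)
    _ = ρ ^ g.natDegree := by
        rw [← pow_succ']
        congr 1
        omega

theorem adjW_modByMonic_le [Nontrivial A] (hA : SubMul νA) (g : A[X]) (hg : g.Monic) (hdeg : 0 < g.natDegree)
    (ρ : ℝ) (hρ1 : 1 ≤ ρ) (hρ : ∑ i ∈ range g.natDegree, νA (g.coeff i) ≤ ρ) (p : A[X]) :
    adjW νA ρ (p %ₘ g) ≤ adjW νA ρ p := by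
  have h0 : (0 : ℝ) ≤ ρ := zero_le_one.trans hρ1
  induction hN : p.natDegree using Nat.strong_induction_on generalizing p with
  | _ N ih =>
    rcases lt_or_ge p.natDegree g.natDegree with hlt | hge
    · rw [(modByMonic_eq_self_iff hg).2 (degree_lt_degree hlt)]
    · set k := p.natDegree - g.natDegree with hk
      set q : A[X] := p.eraseLead - monomial k p.leadingCoeff * g.eraseLead with hq
      have hpq : p - q = monomial k p.leadingCoeff * g := by
        have h1 : p = p.eraseLead + monomial p.natDegree p.leadingCoeff :=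
          p.eraseLead_add_monomial_natDegree_leadingCoeff.symm
        have h2 : g = g.eraseLead + monomial g.natDegree 1 := by
          have := g.eraseLead_add_monomial_natDegree_leadingCoeff
          rw [hg.leadingCoeff] at this
          exact this.symm
        have h3 : monomial k p.leadingCoeff * g
            = monomial k p.leadingCoeff * g.eraseLead + monomial p.natDegree p.leadingCoeff := by
          conv_lhs => rw [h2]
          have h5 : k + g.natDegree = p.natDegree := by omega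
          rw [mul_add, monomial_mul_monomial, mul_one, h5]
        have h4 : p - p.eraseLead = monomial p.natDegree p.leadingCoeff := by
          rw [sub_eq_iff_eq_add']
          exact h1
        rw [h3, hq, ← h4]
        ring
      have hmod : p %ₘ g = q %ₘ g := by
        refine modByMonic_eq_of_dvd_sub hg ?_
        rw [hpq]
        exact dvd_mul_left _ _
      have hWq : adjW νA ρ q ≤ adjW νA ρ p := by
        rw [adjW_eraseLead hA ρ p, hq, sub_eq_add_neg]
        refine (adjW_add_le hA h0 _ _).trans ?_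
        rw [adjW_neg hA]
        refine add_le_add le_rfl ((adjW_mul_le hA h0 _ _).trans ?_)
        rw [adjW_monomial hA]
        calc νA p.leadingCoeff * ρ ^ k * adjW νA ρ g.eraseLead
            ≤ νA p.leadingCoeff * ρ ^ k * ρ ^ g.natDegree :=
              mul_le_mul_of_nonneg_left (adjW_eraseLead_monic hA g hdeg ρ hρ1 hρ)
                (mul_nonneg (hA.nonneg _) (pow_nonneg h0 _))
          _ = νA p.leadingCoeff * ρ ^ p.natDegree := by
              rw [mul_assoc, ← pow_add]
              congr 2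
              omega
      have hqdeg : q.natDegree < p.natDegree := by
        have h1 : p.eraseLead.natDegree < p.natDegree ∨ p.eraseLead.natDegree = 0 := by
          have := p.eraseLead_natDegree_le
          omega
        have h2 : g.eraseLead.natDegree ≤ g.natDegree - 1 := g.eraseLead_natDegree_le
        have h3 : (monomial k p.leadingCoeff * g.eraseLead).natDegree ≤ k + (g.natDegree - 1) :=
          natDegree_mul_le.trans (add_le_add (natDegree_monomial_le _) h2)
        have h4 : p.eraseLead.natDegree ≤ p.natDegree - 1 := p.eraseLead_natDegree_le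
        have h5 : q.natDegree ≤ max p.eraseLead.natDegree
            (monomial k p.leadingCoeff * g.eraseLead).natDegree := natDegree_sub_le _ _
        have h6 : q.natDegree ≤ p.natDegree - 1 := by
          refine h5.trans (max_le h4 (h3.trans ?_))
          omega
        omega
      rw [hmod]
      exact (ih q.natDegree (by omega) q rfl).trans hWq

end Adj

theorem adj_norm {A : Type} [CommRing A] [Nontrivial A] {νA : A → ℝ} (hA : SubMul νA) (g : A[X])
    (hg : g.Monic) (hdeg : 0 < g.natDegree) (ρ : ℝ) (hρ1 : 1 ≤ ρ)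
    (hρ : ∑ i ∈ range g.natDegree, νA (g.coeff i) ≤ ρ) :
    ∃ ν : AdjoinRoot g → ℝ, SubMul ν ∧ (∀ a, ν (AdjoinRoot.of g a) ≤ νA a) ∧
      ν (AdjoinRoot.root g) ≤ ρ ∧
      ∃ c : AdjoinRoot g →+ (Fin g.natDegree → A), Function.Injective c ∧
        ∀ s i, νA (c s i) ≤ ν s := by
  have h0 : (0 : ℝ) ≤ ρ := zero_le_one.trans hρ1
  set r := AdjoinRoot.modByMonicHom hg with hr
  have hmk : ∀ p : A[X], adjW νA ρ (r (AdjoinRoot.mk g p)) ≤ adjW νA ρ p := by
    intro p
    rw [hr, AdjoinRoot.modByMonicHom_mk]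
    exact adjW_modByMonic_le hA g hg hdeg ρ hρ1 hρ p
  have hrs : ∀ s, AdjoinRoot.mk g (r s) = s := AdjoinRoot.mk_leftInverse hg
  have hrdeg : ∀ s, (r s).natDegree < g.natDegree := by
    intro s
    have h1 : r s = (r s) %ₘ g := by
      conv_lhs => rw [← hrs s]
      rw [hr, AdjoinRoot.modByMonicHom_mk]
    rw [h1]
    exact natDegree_modByMonic_lt _ hg (by
      intro h
      rw [h, natDegree_one] at hdeg
      exact lt_irrefl _ hdeg)
  refine ⟨fun s => adjW νA ρ (r s), ⟨fun s => adjW_nonneg hA h0 _, ?_, ?_, ?_, ?_, ?_⟩, ?_, ?_, ?_⟩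
  · rw [map_zero, adjW_zero hA]
  · intro s
    rw [map_neg, adjW_neg hA]
  · intro s t
    rw [map_add]
    exact adjW_add_le hA h0 _ _
  · intro s t
    have h1 : s * t = AdjoinRoot.mk g (r s * r t) := by rw [map_mul, hrs, hrs]
    rw [h1]
    exact (hmk _).trans (adjW_mul_le hA h0 _ _)
  · have h1 : (1 : AdjoinRoot g) = AdjoinRoot.mk g (C 1) := by rw [C_1, map_one]
    rw [h1]
    refine (hmk _).trans ?_
    rw [adjW_C hA]
    exact hA.one
  · intro a
    have h1 : AdjoinRoot.of g a = AdjoinRoot.mk g (C a) := rfl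
    rw [h1]
    refine (hmk _).trans ?_
    rw [adjW_C hA]
  · have h1 : AdjoinRoot.root g = AdjoinRoot.mk g (monomial 1 1) := by
      rw [monomial_one_one_eq_X]
      rfl
    rw [h1]
    refine (hmk _).trans ?_
    rw [adjW_monomial hA, pow_one]
    calc νA 1 * ρ ≤ 1 * ρ := mul_le_mul_of_nonneg_right hA.one h0
      _ = ρ := one_mul _
  · refine ⟨⟨⟨fun s i => (r s).coeff i, ?_⟩, ?_⟩, ?_, ?_⟩
    · funext i
      change (r 0).coeff i = 0
      rw [map_zero, coeff_zero]
    · intro s t
      funext i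
      change (r (s + t)).coeff i = (r s).coeff i + (r t).coeff i
      rw [map_add, coeff_add]
    · intro s t hst
      have hst' : ∀ i : Fin g.natDegree, (r s).coeff i = (r t).coeff i := fun i => congrFun hst i
      have h1 : r s = r t := by
        ext i
        rcases lt_or_ge i g.natDegree with hi | hi
        · exact hst' ⟨i, hi⟩
        · rw [coeff_eq_zero_of_natDegree_lt ((hrdeg s).trans_le hi),
            coeff_eq_zero_of_natDegree_lt ((hrdeg t).trans_le hi)]
      rw [← hrs s, ← hrs t, h1]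
    · intro s i
      change νA ((r s).coeff i) ≤ adjW νA ρ (r s)
      rw [adjW_eq hA ρ (r s) (hrdeg s).le]
      unfold wn
      calc νA ((r s).coeff i) ≤ νA ((r s).coeff i) * ρ ^ (i : ℕ) :=
            le_mul_of_one_le_right (hA.nonneg _) (one_le_pow₀ hρ1)
        _ = νA (PowerSeries.coeff (i : ℕ) ((r s : A[X]) : PowerSeries A)) * ρ ^ (i : ℕ) := by
            rw [Polynomial.coeff_coe]
        _ ≤ _ := single_le_sum
            (f := fun k => νA (PowerSeries.coeff k ((r s : A[X]) : PowerSeries A)) * ρ ^ k)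
            (fun k _ => mul_nonneg (hA.nonneg _) (pow_nonneg h0 _))
            (mem_range.2 (by omega))

end Pool.Agent.H8.KF
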