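import Pool.Agent.H8.KF.Defs

/-! # [KF-BC] Expansion coefficients: size, and coefficients of a real combination

(1) `bc_bound`: `wn ν (1/b²) k ((κ²X)^p (α+κw)^j) ≤ b` for `j < n` exactly as in the proof of
`Pool.Agent.H8.UL.siegel_size2` / `Pool.Agent.H72.ES.siegel_size` (`h1`, `h2`, `ha` there), and
`ν (coeff k a) * (1/b²)^k ≤ wn ν (1/b²) k a` (`coeff_le_wn`).
(2) `bc_coeff`: expand `evt`, push `coeff k` inside; `O.φ (bc ..)` is the coefficient of the image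
under `PowerSeries.map O.φ` (`O.φ_α`). -/

namespace Pool.Agent.H8.KF

open Finset Polynomial Pool.Agent.H72.ES

variable {n Q : ℕ} {f : ℤ[X]} {θ : ℝ}

theorem bc_bound (O : Ord ℝ n Q f θ) {F : ℕ → ℕ → ℤ} (hF : Norml n Q f F) (br : Branch O F)
    (d i j k : ℕ) (hj : j < n) : O.ν (bc O br d i j k) ≤ bb n Q ^ (1 + 2 * k) := by
  have hn := hF.hn
  have hQ := hF.hQ
  have hsub := O.subMul
  have hb0 : 0 < bb n Q := bb_pos hn hQ
  have hb1 : 1 ≤ bb n Q := one_le_bb hn hQ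
  unfold bc
  set b := bb n Q with hb
  have hρ : (0 : ℝ) ≤ 1 / b ^ 2 := by positivity
  set ρ : ℝ := 1 / b ^ 2 with hρd
  have hκ : O.ν O.κ ≤ (Q : ℝ) ^ (2 * n) := kappa_bound O hF
  have hκb : O.ν O.κ ≤ b := hκ.trans (Qpow_le_bb hn hQ (by nlinarith))
  have hκ0 : 0 ≤ O.ν O.κ := O.ν_nonneg _
  -- the first factor
  have h1 : wn O.ν ρ k (PowerSeries.C O.κ ^ 2 * PowerSeries.X) ≤ 1 := by
    refine (wn_mul_le hsub hρ k _ _).trans ?_
    have ha : wn O.ν ρ k (PowerSeries.C O.κ ^ 2) ≤ b ^ 2 := by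
      refine (wn_pow_le hsub hρ k _ 2).trans ?_
      rw [wn_C hsub]
      exact pow_le_pow_left₀ hκ0 hκb 2
    have hb' := wn_X_le (R := O.R) hsub hρ k
    calc wn O.ν ρ k (PowerSeries.C O.κ ^ 2) * wn O.ν ρ k PowerSeries.X ≤ b ^ 2 * ρ :=
          mul_le_mul ha hb' (wn_nonneg hsub hρ k _) (by positivity)
      _ = 1 := by
          rw [hρd]
          field_simp
  have h2 : wn O.ν ρ k (PowerSeries.C O.α + PowerSeries.C O.κ * br.w) ≤ (Q : ℝ) ^ 3 := by
    refine (wn_add_le hsub hρ k _ _).trans ?_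
    rw [wn_C hsub]
    have ha : wn O.ν ρ k (PowerSeries.C O.κ * br.w) ≤ 1 := by
      refine (wn_mul_le hsub hρ k _ _).trans ?_
      rw [wn_C hsub]
      calc O.ν O.κ * wn O.ν ρ k br.w ≤ b * (1 / b) :=
            mul_le_mul hκb (br.bd k) (wn_nonneg hsub hρ k _) hb0.le
        _ = 1 := by field_simp
    have hα := O.ν_α
    have h3 := nQ_le hn hQ
    have h4 := sixteen_leR hn hQ
    calc O.ν O.α + wn O.ν ρ k (PowerSeries.C O.κ * br.w) ≤ (Q : ℝ) ^ 2 + 1 := by linarith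
      _ ≤ (Q : ℝ) ^ 3 := by nlinarith [sq_nonneg (Q : ℝ)]
  have ha : wn O.ν ρ k ((PowerSeries.C O.κ ^ 2 * PowerSeries.X) ^ (d - i - j) *
      (PowerSeries.C O.α + PowerSeries.C O.κ * br.w) ^ j) ≤ b := by
    refine (wn_mul_le hsub hρ k _ _).trans ?_
    have hx : wn O.ν ρ k ((PowerSeries.C O.κ ^ 2 * PowerSeries.X) ^ (d - i - j)) ≤ 1 :=
      (wn_pow_le hsub hρ k _ _).trans (pow_le_one₀ (wn_nonneg hsub hρ k _) h1)
    have hy : wn O.ν ρ k ((PowerSeries.C O.α + PowerSeries.C O.κ * br.w) ^ j) ≤ b := by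
      refine (wn_pow_le hsub hρ k _ j).trans ?_
      refine (pow_le_pow_left₀ (wn_nonneg hsub hρ k _) h2 j).trans ?_
      rw [← pow_mul]
      exact Qpow_le_bb hn hQ (by nlinarith)
    calc _ ≤ 1 * b := mul_le_mul hx hy (wn_nonneg hsub hρ k _) zero_le_one
      _ = b := one_mul b
  have h4 := (coeff_le_wn hsub hρ (le_refl k) ((PowerSeries.C O.κ ^ 2 *
    PowerSeries.X) ^ (d - i - j) * (PowerSeries.C O.α + PowerSeries.C O.κ * br.w) ^ j)).trans ha
  set v := O.ν (PowerSeries.coeff k ((PowerSeries.C O.κ ^ 2 *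
    PowerSeries.X) ^ (d - i - j) * (PowerSeries.C O.α + PowerSeries.C O.κ * br.w) ^ j)) with hv
  have h5 : v = v * ρ ^ k * (b ^ 2) ^ k := by
    rw [mul_assoc, ← mul_pow, hρd]
    have : 1 / b ^ 2 * b ^ 2 = 1 := by field_simp
    rw [this, one_pow, mul_one]
  rw [h5]
  calc v * ρ ^ k * (b ^ 2) ^ k ≤ b * (b ^ 2) ^ k :=
        mul_le_mul_of_nonneg_right h4 (by positivity)
    _ = b ^ (1 + 2 * k) := by rw [← pow_mul, pow_add, pow_one]

theorem bc_coeff (O : Ord ℝ n Q f θ) {F : ℕ → ℕ → ℤ} (br : Branch O F) (d : ℕ)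
    (c : ℕ → ℕ → ℝ) (k : ℕ) :
    PowerSeries.coeff k (evt d (fun i j => PowerSeries.C (c i j))
      (PowerSeries.C (O.φ O.κ) ^ 2 * PowerSeries.X)
      (PowerSeries.C θ + PowerSeries.C (O.φ O.κ) * PowerSeries.map O.φ br.w)) =
    ∑ i ∈ range (d + 1), ∑ j ∈ range (d + 1 - i), c i j * O.φ (bc O br d i j k) := by
  unfold evt bc
  rw [map_sum]
  refine sum_congr rfl fun i _ => ?_
  rw [map_sum]
  refine sum_congr rfl fun j _ => ?_
  rw [← PowerSeries.coeff_map, mul_assoc, PowerSeries.coeff_C_mul]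
  simp only [map_mul, map_pow, map_add, PowerSeries.map_C, PowerSeries.map_X, O.φ_α]

end Pool.Agent.H8.KF
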