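import Pool.Agent.H8.KF.Defs

/-! # [KF-NF] From an embedding into the root field to the factor condition

`K` a number field of degree `n` containing `k` (an algebra over `k`), `α ∈ K` a root of the monic
irreducible `f ∈ ℤ[X]` of degree `n`, `ψ : K →+* ℝ`, `ψ α = θ`. `g = minpoly (𝓞 k) α`:
monic (`α` is integral over `ℤ`, hence over `𝓞 k`); `g.map = minpoly k α`
(`minpoly.isIntegrallyClosed_eq_field_fractions'`); `k⟮α⟯ = ⊤` because `ℚ⟮α⟯ = ⊤`
(`finrank ℚ ℚ⟮α⟯ = natDegree (minpoly ℚ α) = n = finrank ℚ K`, as `minpoly ℚ α = f.map` by Gauss),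
so `natDegree g * finrank ℚ k = finrank k K * finrank ℚ k = n`; `g ∣ f.map`
(`minpoly.isIntegrallyClosed_dvd`); apply `ψ` to `aeval α g = 0`. -/

namespace Pool.Agent.H8.KF

open Finset Polynomial Pool.Agent.H72.ES NumberField

theorem nfac_of_field (k : Type) [Field k] [NumberField k] (K : Type) [Field K] [CharZero K]
    [Algebra k K] {n : ℕ} (hn : 1 ≤ n) (hK : Module.finrank ℚ K = n) (f : ℤ[X]) (hm : f.Monic)
    (hd : f.natDegree = n) (hf : Irreducible f) (α : K) (hα : aeval α f = 0) (ψ : K →+* ℝ) :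
    NFac k (ψ.comp (algebraMap k K)) n f (ψ α) := by
  have hfin : FiniteDimensional ℚ K := Module.finite_of_finrank_pos (by omega)
  have hfk : FiniteDimensional k K := Module.Finite.right ℚ k K
  have hZ : IsIntegral ℤ α := ⟨f, hm, hα⟩
  have hO : IsIntegral (𝓞 k) α := hZ.tower_top
  have hmin : f.map (algebraMap ℤ ℚ) = minpoly ℚ α := by
    refine minpoly.eq_of_irreducible_of_monic ?_ ?_ (hm.map _)
    · exact (hm.irreducible_iff_irreducible_map_fraction_map (K := ℚ)).1 hf
    · rw [aeval_map_algebraMap]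
      exact hα
  have hdeg : (minpoly ℚ α).natDegree = Module.finrank ℚ K := by
    rw [← hmin, hm.natDegree_map, hd, hK]
  have htop : IntermediateField.adjoin ℚ {α} = ⊤ :=
    (Field.primitive_element_iff_minpoly_natDegree_eq ℚ α).2 hdeg
  have htopk : IntermediateField.adjoin k {α} = ⊤ := by
    have h1 : IntermediateField.adjoin ℚ {α} ≤
        (IntermediateField.adjoin k {α}).restrictScalars ℚ := by
      rw [IntermediateField.adjoin_simple_le_iff]
      exact IntermediateField.mem_adjoin_simple_self k α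
    rw [htop] at h1
    rw [eq_top_iff]
    intro x _
    exact h1 (IntermediateField.mem_top (x := x))
  have hdegk : (minpoly k α).natDegree = Module.finrank k K :=
    (Field.primitive_element_iff_minpoly_natDegree_eq k α).1 htopk
  refine ⟨minpoly (𝓞 k) α, minpoly.monic hO, ?_, ?_, ?_⟩
  · have h1 := minpoly.isIntegrallyClosed_eq_field_fractions' k hO
    have h2 : (minpoly k α).natDegree = (minpoly (𝓞 k) α).natDegree := by
      rw [h1, (minpoly.monic hO).natDegree_map]
    rw [← h2, hdegk, mul_comm, Module.finrank_mul_finrank, hK]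
  · refine minpoly.isIntegrallyClosed_dvd hO ?_
    rw [aeval_map_algebraMap]
    exact hα
  · have h1 : aeval α (minpoly (𝓞 k) α) = 0 := minpoly.aeval _ _
    have h2 := Polynomial.hom_eval₂ (minpoly (𝓞 k) α) (algebraMap (𝓞 k) K) ψ α
    rw [← aeval_def, h1, map_zero] at h2
    rw [h2]
    congr 1

end Pool.Agent.H8.KF
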