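import Pool.Agent.H8.KF.Adj
import Pool.Agent.H8.KF.HouseK
import Pool.Agent.H8.KF.CoeffHouse
import Pool.Agent.H8.KF.OrdG

/-! # [KF-JOINT] Existence of the common overring

`A = 𝓞 k`, `νA = house` (`house_subMul`), `C0`, `c0` from `exists_coord`; `C = C0`.
Let `g1, g2` be the factors given by `NFac`, of degree `m_i`, `m_i d = n`, `d = [k:ℚ]`;
`ρ_i = Q_i^(2n+2)` (`coeff_house`). `S1 = AdjoinRoot g1`, `ν1` from `adj_norm`;
`g2' = g2.map (AdjoinRoot.of g1)`, monic of the same degree (`S1` nontrivial),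
`∑ ν1 (coeff g2') ≤ ∑ house (coeff g2) ≤ ρ2`; `S = AdjoinRoot g2'`, `ν` from `adj_norm`.
`s1 = of (root g1)`, `s2 = root g2'` in `S`; `f1(s1) = 0`, `f2(s2) = 0` since `g_i ∣ f_i.map`.
`ψ : S →+* ℝ`: lift of (lift of `τ.comp (algebraMap (𝓞 k) k)` with `root g1 ↦ θ1`) with
`root g2' ↦ θ2` (the last condition of `NFac`). `O1, O2` and `J1, J2` from `exists_ord_gen`,
applied to `S, s1` and `S, s2`; `ν s_i ≤ ρ_i`. `ι = Fin m2' × Fin m1 × (k →+* ℂ)` (with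
`m2' = natDegree g2'`), coordinates: composition of the three coordinate maps; injective;
`card ι * d = m2 m1 d d = n²` (`NumberField.Embeddings.card k ℂ : card (k →+* ℂ) = finrank ℚ k`).
Size: `|coord (J1 a J2 b)| ≤ C0 ν (J1 a) ν (J2 b) ≤ C0 ρ1^n ρ2^n O1.ν a O2.ν b` and
`ρ_i^n = Q_i^(2n²+2n) ≤ Q_i^(7n²) = bb n Q_i`. -/

namespace Pool.Agent.H8.KF

open Finset Polynomial Pool.Agent.H72.ES NumberField

/-- a root of a factor is a root -/
theorem joint_root {A S : Type} [CommRing A] [CommRing S] (h : A →+* S) (s : S) (f : ℤ[X])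
    (g : A[X]) (hg : g ∣ f.map (algebraMap ℤ A)) (hs : eval₂ h s g = 0) : aeval s f = 0 := by
  obtain ⟨q, hq⟩ := hg
  have h1 : eval₂ h s (f.map (algebraMap ℤ A)) = 0 := by
    rw [hq, eval₂_mul, hs, zero_mul]
  rw [eval₂_map] at h1
  rw [aeval_def]
  rw [← h1]
  congr 1
  exact RingHom.ext_int _ _

theorem joint_pow {n Q : ℕ} (hn : 4 ≤ n) (hQ : 2 ^ n ≤ Q) :
    ((Q : ℝ) ^ (2 * n + 2)) ^ n ≤ bb n Q := by
  have h1 : (1 : ℝ) ≤ Q := by
    have h2 : 1 ≤ 2 ^ n := Nat.one_le_two_pow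
    exact_mod_cast h2.trans hQ
  rw [bb, ← pow_mul]
  exact pow_le_pow_right₀ h1 (by nlinarith)

theorem exists_joint (k : Type) [Field k] [NumberField k] :
    ∃ C : ℝ, 1 ≤ C ∧ ∀ (n Q1 Q2 : ℕ) (f1 f2 : ℤ[X]) (θ1 θ2 : ℝ) (τ : k →+* ℝ), 4 ≤ n →
      2 ^ n ≤ Q1 → 2 ^ n ≤ Q2 → f1.Monic → f1.natDegree = n → (∀ j, |f1.coeff j| ≤ (Q1 : ℤ)) →
      Irreducible f1 → aeval θ1 f1 = 0 → f2.Monic → f2.natDegree = n →
      (∀ j, |f2.coeff j| ≤ (Q2 : ℤ)) → Irreducible f2 → aeval θ2 f2 = 0 →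
      NFac k τ n f1 θ1 → NFac k τ n f2 θ2 →
      ∃ (O1 : Ord ℝ n Q1 f1 θ1) (O2 : Ord ℝ n Q2 f2 θ2) (ι : Type) (_ : Fintype ι),
        Nonempty ι ∧ Fintype.card ι * Module.finrank ℚ k = n ^ 2 ∧
        Nonempty (Joint O1 O2 ι (C * bb n Q1 * bb n Q2)) := by
  obtain ⟨C0, c0, hC0, hc0, hcb0⟩ := exists_coord k
  refine ⟨C0, hC0, ?_⟩
  intro n Q1 Q2 f1 f2 θ1 θ2 τ hn hQ1 hQ2 hm1 hd1 hb1 hf1 hr1 hm2 hd2 hb2 hf2 hr2
  rintro ⟨g1, hg1, hgd1, hgf1, hgr1⟩ ⟨g2, hg2, hgd2, hgf2, hgr2⟩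
  have hA := house_subMul k
  have hQ1' : (1 : ℝ) ≤ Q1 := by
    have h2 : 1 ≤ 2 ^ n := Nat.one_le_two_pow
    exact_mod_cast h2.trans hQ1
  have hQ2' : (1 : ℝ) ≤ Q2 := by
    have h2 : 1 ≤ 2 ^ n := Nat.one_le_two_pow
    exact_mod_cast h2.trans hQ2
  have hpos1 : 0 < g1.natDegree := by
    rcases Nat.eq_zero_or_pos g1.natDegree with h | h
    · rw [h] at hgd1; omega
    · exact h
  have hpos2 : 0 < g2.natDegree := by
    rcases Nat.eq_zero_or_pos g2.natDegree with h | h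
    · rw [h] at hgd2; omega
    · exact h
  -- the first extension
  obtain ⟨ν1, hν1, hof1, hroot1, c1, hc1, hcb1⟩ := adj_norm hA g1 hg1 hpos1
    ((Q1 : ℝ) ^ (2 * n + 2)) (one_le_pow₀ hQ1') (coeff_house k hn hQ1 hm1 hd1 hb1 g1 hg1 hgf1)
  have hdeg1 : degree g1 ≠ 0 := by
    intro h
    have := natDegree_eq_zero_iff_degree_le_zero.2 h.le
    omega
  have hnt : Nontrivial (AdjoinRoot g1) := AdjoinRoot.nontrivial g1 hdeg1
  set g2' := g2.map (AdjoinRoot.of g1) with hg2'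
  have hgm2 : g2'.Monic := hg2.map _
  have hgn2 : g2'.natDegree = g2.natDegree := hg2.natDegree_map _
  have hpos2' : 0 < g2'.natDegree := hgn2 ▸ hpos2
  have hsum2 : ∑ i ∈ range g2'.natDegree, ν1 (g2'.coeff i) ≤ (Q2 : ℝ) ^ (2 * n + 2) := by
    rw [hgn2]
    refine le_trans (sum_le_sum fun i _ => ?_) (coeff_house k hn hQ2 hm2 hd2 hb2 g2 hg2 hgf2)
    rw [hg2', coeff_map]
    exact hof1 _
  obtain ⟨ν, hν, hof, hroot, c2, hc2, hcb2⟩ := adj_norm hν1 g2' hgm2 hpos2'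
    ((Q2 : ℝ) ^ (2 * n + 2)) (one_le_pow₀ hQ2') hsum2
  -- the two roots
  set s1 : AdjoinRoot g2' := AdjoinRoot.of g2' (AdjoinRoot.root g1) with hs1
  set s2 : AdjoinRoot g2' := AdjoinRoot.root g2' with hs2
  have hs1r : aeval s1 f1 = 0 := by
    refine joint_root ((AdjoinRoot.of g2').comp (AdjoinRoot.of g1)) s1 f1 g1 hgf1 ?_
    rw [hs1, ← Polynomial.hom_eval₂, AdjoinRoot.eval₂_root, map_zero]
  have hs2r : aeval s2 f2 = 0 := by
    refine joint_root ((AdjoinRoot.of g2').comp (AdjoinRoot.of g1)) s2 f2 g2 hgf2 ?_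
    rw [← eval₂_map]
    exact AdjoinRoot.eval₂_root g2'
  have hνs1 : ν s1 ≤ (Q1 : ℝ) ^ (2 * n + 2) := (hof _).trans hroot1
  -- the real place
  let ψ1 : AdjoinRoot g1 →+* ℝ := AdjoinRoot.lift (τ.comp (algebraMap (𝓞 k) k)) θ1 hgr1
  have hψ1 : eval₂ ψ1 θ2 g2' = 0 := by
    rw [hg2', eval₂_map, AdjoinRoot.lift_comp_of]
    exact hgr2
  let ψ : AdjoinRoot g2' →+* ℝ := AdjoinRoot.lift ψ1 θ2 hψ1
  have hψs1 : ψ s1 = θ1 := by
    rw [hs1, AdjoinRoot.lift_of, AdjoinRoot.lift_root]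
  have hψs2 : ψ s2 = θ2 := AdjoinRoot.lift_root _
  obtain ⟨O1, hO1⟩ := exists_ord_gen hn hQ1 hm1 hd1 hb1 hf1 θ1 hr1
  obtain ⟨O2, hO2⟩ := exists_ord_gen hn hQ2 hm2 hd2 hb2 hf2 θ2 hr2
  obtain ⟨J1, hJ1, hJ1'⟩ := hO1 (AdjoinRoot g2') s1 hs1r
  obtain ⟨J2, hJ2, hJ2'⟩ := hO2 (AdjoinRoot g2') s2 hs2r
  refine ⟨O1, O2, Fin g2'.natDegree × Fin g1.natDegree × (k →+* ℂ), inferInstance, ?_, ?_, ⟨?_⟩⟩
  · have : Nonempty (k →+* ℂ) := inferInstance
    exact ⟨(⟨0, hpos2'⟩, ⟨0, hpos1⟩, this.some)⟩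
  · rw [Fintype.card_prod, Fintype.card_prod, Fintype.card_fin, Fintype.card_fin,
      NumberField.Embeddings.card k ℂ, hgn2]
    calc g2.natDegree * (g1.natDegree * Module.finrank ℚ k) * Module.finrank ℚ k
        = (g2.natDegree * Module.finrank ℚ k) * (g1.natDegree * Module.finrank ℚ k) := by ring
      _ = n ^ 2 := by rw [hgd1, hgd2, sq]
  · let cc : AdjoinRoot g2' →+ (Fin g2'.natDegree × Fin g1.natDegree × (k →+* ℂ) → ℤ) :=
      { toFun := fun s i => c0 (c1 (c2 s i.1) i.2.1) i.2.2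
        map_zero' := by
          funext i
          simp
        map_add' := by
          intro x y
          funext i
          simp }
    exact
    { R := AdjoinRoot g2'
      J1 := J1
      J2 := J2
      φ := ψ
      coord := cc
      coord_inj := by
        intro x y hxy
        apply hc2
        funext i
        apply hc1
        funext j
        apply hc0
        funext l
        exact congrFun hxy (i, j, l)
      φ_J1 := hJ1' ψ hψs1
      φ_J2 := hJ2' ψ hψs2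
      size := by
        rintro a b ⟨i, j, l⟩
        have e1 := hcb0 (c1 (c2 (J1 a * J2 b) i) j) l
        have e2 := hcb1 (c2 (J1 a * J2 b) i) j
        have e3 := hcb2 (J1 a * J2 b) i
        have e4 := hν.mul (J1 a) (J2 b)
        have e5 := hJ1 ν hν _ (one_le_pow₀ hQ1') hνs1 a
        have e6 := hJ2 ν hν _ (one_le_pow₀ hQ2') hroot b
        have p1 := joint_pow hn hQ1
        have p2 := joint_pow hn hQ2
        have n1 := O1.ν_nonneg a
        have n2 := O2.ν_nonneg b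
        have e7 : ν (J1 a) ≤ bb n Q1 * O1.ν a :=
          e5.trans (mul_le_mul_of_nonneg_right p1 n1)
        have e8 : ν (J2 b) ≤ bb n Q2 * O2.ν b :=
          e6.trans (mul_le_mul_of_nonneg_right p2 n2)
        have hb1 : 0 ≤ bb n Q1 * O1.ν a := (hν.nonneg _).trans e7
        have hC : 0 ≤ C0 := by linarith
        calc |((cc (J1 a * J2 b) (i, j, l) : ℤ) : ℝ)|
            ≤ C0 * house (algebraMap (𝓞 k) k (c1 (c2 (J1 a * J2 b) i) j)) := e1
          _ ≤ C0 * ((bb n Q1 * O1.ν a) * (bb n Q2 * O2.ν b)) := by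
              refine mul_le_mul_of_nonneg_left ?_ hC
              refine e2.trans (e3.trans (e4.trans ?_))
              exact mul_le_mul e7 e8 (hν.nonneg _) hb1
          _ = C0 * bb n Q1 * bb n Q2 * (O1.ν a * O2.ν b) := by ring }

end Pool.Agent.H8.KF
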