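import Pool.Agent.H8.KF.Defs
import Pool.Agent.H72.ES.TwoB

/-! # [KF-NUM] Numerical lemmas for the two-point theorem

`b = bb n Q = Q^(7n²)`, `2^n ≤ Q`, `n ≥ 4`.

(1) `low_lt_one`: divide: `c ≤ b^(98 n la) W X^(-ee la) (4κ²/X)^k`; `4κ²/X ≤ 4 b² X^(2n-3)
≤ X^(2n-2)` and `8 (2n-2) k ≤ 16 n k ≤ la`. Raise to the power 8:
`c^8 ≤ b^(784 n la) W^8 X^(la) X^(-8 ee la)`, `8 ee la > 4 la`, `b^(784 n la) ≤ X^la`,
`W^8 ≤ X^la`.

(2) `final_contraG`: `r0 = (3n+1) n ≤ 4 n²`. Right-hand side: with `E = 3 n la + 3 r0 n ≤ Q³ la`,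
`(Q⁴ E)^(r0²) ≤ Q^(7·16n⁴) la^(16 n⁴)`, `la^(16 n⁴) ≤ b^la` because `b ≥ 2^(7n³)` and
`la ≤ (la/(16n)+1)²≤ ...` (`la ≥ 2000 n⁴`; e.g. `la^(16n) ≤ 2^(7 la)`), `r0^r0 ≤ b²`, `n ≤ b`,
`Q^(3 r0² n) ≤ Q^(48 n⁵) ≤ b^(7n³)`, `Z^r0 ≤ b^(240 n³ la) (V)^(208 n³)`. So the right-hand side is
`≤ b^(245 n⁴ la) V^(208 n⁴)`. Left: `64 n (K - r0) ≥ 2 la` since `16 n (K+1) > la` and
`la ≥ 2000 n⁴`. Hence `X^(2 la) ≤ b^(15680 n⁵ la) V^(13312 n⁵)`. But
`b^(15680 n⁵ la) < X^la` strictly (`b > 1`) and `V^(40000 n⁵) ≤ X^(la+1)`, so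
`V^(13312 n⁵) ≤ X^la`. Contradiction. -/

namespace Pool.Agent.H8.KF

open Finset Polynomial Pool.Agent.H72.ES

variable {n Q : ℕ}

theorem num_two_pow_lin {n : ℕ} (hn : 4 ≤ n) : 3 * n + 1 ≤ 2 ^ n := by
  induction n, hn using Nat.le_induction with
  | base => norm_num
  | succ m hm ih =>
    rw [pow_succ]
    omega

theorem num_la_pow {n la : ℕ} (hn : 4 ≤ n) (hla : 2000 * n ^ 4 ≤ la) :
    la ^ (16 * n) ≤ 2 ^ (7 * la) := by
  have hn14 : n ≤ n ^ 4 := by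
    calc n = n ^ 1 := (pow_one n).symm
      _ ≤ n ^ 4 := Nat.pow_le_pow_right (by omega) (by norm_num)
  have hn24 : n ^ 2 ≤ n ^ 4 := Nat.pow_le_pow_right (by omega) (by norm_num)
  set q := la / (16 * n) with hq
  have h1 : la < 16 * n * (q + 1) := by
    rw [hq]
    have := Nat.lt_mul_div_succ la (show 0 < 16 * n by omega)
    exact this
  have h2 : 16 * n * q ≤ la := Nat.mul_div_le la (16 * n)
  have h3 : q + 1 ≤ 2 ^ q := Nat.lt_two_pow_self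
  have h4 : 16 * n ≤ 2 ^ (n + 4) := by
    have : n < 2 ^ n := Nat.lt_two_pow_self
    rw [pow_add]
    omega
  calc la ^ (16 * n) ≤ (2 ^ (n + 4) * 2 ^ q) ^ (16 * n) := by
        refine Nat.pow_le_pow_left ?_ _
        exact h1.le.trans (Nat.mul_le_mul h4 h3)
    _ = 2 ^ (16 * n ^ 2 + 64 * n + 16 * n * q) := by
        rw [← pow_add, ← pow_mul]
        congr 1
        ring
    _ ≤ 2 ^ (7 * la) := Nat.pow_le_pow_right (by norm_num) (by omega)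

theorem low_lt_one (hn : 4 ≤ n) (hQ : 2 ^ n ≤ Q) (X : ℝ) (hX : bb n Q ^ (20000 * n ^ 5) ≤ X)
    (la k : ℕ) (hla : 2000 * n ^ 4 ≤ la) (hk : 16 * n * k ≤ la) (c : ℝ) (hc : 0 ≤ c) (κ : ℝ)
    (hκ0 : 0 < κ) (hκ : κ ≤ bb n Q * X ^ (n - 1)) (W : ℝ) (hW1 : 1 ≤ W) (hW : W ^ 8 ≤ X ^ la)
    (h : c * (X / (4 * κ ^ 2)) ^ k * X ^ ee la ≤ bb n Q ^ (98 * n * la) * W) : c < 1 := by
  have hb1 := one_le_bb hn hQ
  have h4b : (4 : ℝ) ≤ bb n Q := le_trans (by norm_num) (thousand_le_bb hn hQ)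
  set b := bb n Q with hb
  have hb0 : 0 < b := by linarith
  have hbb : 1 < b := by linarith
  have hX1 : 1 ≤ X := le_trans (one_le_pow₀ hb1) hX
  have hX0 : 0 < X := by linarith
  have hla1 : 1 ≤ la := by
    have : 1 ≤ 2000 * n ^ 4 := Nat.one_le_iff_ne_zero.2 (by positivity)
    omega
  have h1 : (4 * κ ^ 2) ≤ b ^ 3 * X ^ (2 * n - 3) * X := by
    calc 4 * κ ^ 2 ≤ 4 * (b * X ^ (n - 1)) ^ 2 := by gcongr
      _ = 4 * b ^ 2 * X ^ (2 * n - 2) := by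
        rw [mul_pow, ← pow_mul]
        have : (n - 1) * 2 = 2 * n - 2 := by omega
        rw [this]; ring
      _ ≤ b * b ^ 2 * X ^ (2 * n - 2) := by gcongr
      _ = b ^ 3 * X ^ (2 * n - 3) * X := by
        have : X ^ (2 * n - 2) = X ^ (2 * n - 3) * X := by
          rw [← pow_succ]
          congr 1
          omega
        rw [this]; ring
  have h2 : (1 : ℝ) ≤ X / (4 * κ ^ 2) * (b ^ 3 * X ^ (2 * n - 3)) := by
    rw [div_mul_eq_mul_div, le_div_iff₀ (by positivity), one_mul]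
    linarith
  have h3 : (1 : ℝ) ≤ (X / (4 * κ ^ 2)) ^ k * (b ^ (3 * k) * X ^ ((2 * n - 3) * k)) := by
    have := one_le_pow₀ (n := k) h2
    rw [mul_pow, mul_pow, ← pow_mul, ← pow_mul] at this
    exact this
  have h4 : c * X ^ ee la ≤ b ^ (98 * n * la) * W * (b ^ (3 * k) * X ^ ((2 * n - 3) * k)) := by
    calc c * X ^ ee la = c * X ^ ee la * 1 := by ring
      _ ≤ c * X ^ ee la *
          ((X / (4 * κ ^ 2)) ^ k * (b ^ (3 * k) * X ^ ((2 * n - 3) * k))) := by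
        gcongr
      _ = (c * (X / (4 * κ ^ 2)) ^ k * X ^ ee la) *
          (b ^ (3 * k) * X ^ ((2 * n - 3) * k)) := by ring
      _ ≤ _ := by gcongr
  by_contra hcon
  push Not at hcon
  have h5 : X ^ ee la ≤ b ^ (98 * n * la) * W * (b ^ (3 * k) * X ^ ((2 * n - 3) * k)) := by
    refine le_trans ?_ h4
    have : 0 < X ^ ee la := by positivity
    nlinarith
  have hk3 : 3 * k ≤ la := by
    have : 3 * k ≤ 16 * n * k := Nat.mul_le_mul_right k (by omega)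
    omega
  have hW0 : 0 ≤ W := by linarith
  have h7 : X ^ ee la ≤ b ^ (99 * n * la) * W * X ^ ((2 * n - 3) * k) := by
    refine h5.trans ?_
    calc b ^ (98 * n * la) * W * (b ^ (3 * k) * X ^ ((2 * n - 3) * k))
        = b ^ (98 * n * la + 3 * k) * W * X ^ ((2 * n - 3) * k) := by
          rw [pow_add]; ring
      _ ≤ b ^ (99 * n * la) * W * X ^ ((2 * n - 3) * k) := by
          gcongr
          have e1 : 99 * n * la = 98 * n * la + n * la := by ring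
          have e2 : la ≤ n * la := Nat.le_mul_of_pos_left la (by omega)
          omega
  have h8 : 8 * ((2 * n - 3) * k) ≤ la := by
    have : 8 * ((2 * n - 3) * k) ≤ 16 * n * k := by
      have : 8 * (2 * n - 3) ≤ 16 * n := by omega
      calc 8 * ((2 * n - 3) * k) = (8 * (2 * n - 3)) * k := by ring
        _ ≤ 16 * n * k := Nat.mul_le_mul_right k this
    omega
  set g := (2 * n - 3) * k with hg
  have hee : 4 * la ≤ 8 * ee la := by unfold ee; omega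
  have h9 : X ^ (4 * la) ≤ b ^ (792 * n * la) * X ^ la * X ^ la := by
    calc X ^ (4 * la) ≤ X ^ (8 * ee la) := pow_le_pow_right₀ hX1 hee
      _ = (X ^ ee la) ^ 8 := by rw [← pow_mul]; ring_nf
      _ ≤ (b ^ (99 * n * la) * W * X ^ g) ^ 8 := pow_le_pow_left₀ (by positivity) h7 _
      _ = b ^ (792 * n * la) * W ^ 8 * X ^ (8 * g) := by
        rw [mul_pow, mul_pow, ← pow_mul, ← pow_mul]
        ring_nf
      _ ≤ b ^ (792 * n * la) * X ^ la * X ^ la := by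
        gcongr
  have h10 : X ^ la ≤ b ^ (792 * n * la) := by
    have e1 : X ^ (4 * la) = X ^ (2 * la) * X ^ la * X ^ la := by
      rw [← pow_add, ← pow_add]; congr 1; ring
    rw [e1] at h9
    have h11 : X ^ (2 * la) ≤ b ^ (792 * n * la) := by
      refine le_of_mul_le_mul_right ?_ (show 0 < X ^ la * X ^ la by positivity)
      calc X ^ (2 * la) * (X ^ la * X ^ la) = X ^ (2 * la) * X ^ la * X ^ la := by ring
        _ ≤ b ^ (792 * n * la) * X ^ la * X ^ la := h9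
        _ = _ := by ring
    exact (pow_le_pow_right₀ hX1 (by omega)).trans h11
  have h11 : b ^ (20000 * n ^ 5 * la) ≤ b ^ (792 * n * la) := by
    calc b ^ (20000 * n ^ 5 * la) = (b ^ (20000 * n ^ 5)) ^ la := by rw [pow_mul]
      _ ≤ X ^ la := pow_le_pow_left₀ (by positivity) hX _
      _ ≤ _ := h10
  have h12 := (pow_le_pow_iff_right₀ hbb).1 h11
  have h13 : n ≤ n ^ 5 := by
    calc n = n ^ 1 := (pow_one n).symm
      _ ≤ n ^ 5 := Nat.pow_le_pow_right (by omega) (by norm_num)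
  have h14 : 792 * n * la < 20000 * n ^ 5 * la := by
    refine Nat.mul_lt_mul_of_pos_right ?_ (by omega)
    omega
  omega

theorem final_contraG (hn : 4 ≤ n) (hQ : 2 ^ n ≤ Q) (X : ℝ)
    (hX : bb n Q ^ (20000 * n ^ 5) ≤ X) (la K : ℕ) (hla : 2000 * n ^ 4 ≤ la)
    (hK : la < 16 * n * (K + 1)) (V Z : ℝ) (hV1 : 1 ≤ V) (hV : V ^ (40000 * n ^ 5) ≤ X ^ (la + 1))
    (hZ0 : 0 ≤ Z) (hZ : Z ≤ bb n Q ^ (60 * n * la) * V ^ (52 * n))
    (h : X ^ (K - (3 * n + 1) * n) ≤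
      ((n : ℝ) * ((((3 * n + 1) * n : ℕ) : ℝ) ^ ((3 * n + 1) * n) *
        (((Q : ℝ) ^ 4 * (((3 * n * la : ℕ) : ℝ) + 3 * (((3 * n + 1) * n : ℕ) : ℝ) * n)) ^
          ((3 * n + 1) * n) * Z) ^ ((3 * n + 1) * n) *
        ((Q : ℝ) ^ 3) ^ (((3 * n + 1) * n) ^ 2 * n))) ^ n) : False := by
  have hb1 := one_le_bb hn hQ
  have h4b : (4 : ℝ) ≤ bb n Q := le_trans (by norm_num) (thousand_le_bb hn hQ)
  have hbb : 1 < bb n Q := by linarith
  have hQ1 : (1 : ℝ) ≤ Q := one_le_QR hn hQ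
  have hbdef : bb n Q = (Q : ℝ) ^ (7 * n ^ 2) := rfl
  have hQb := Q_le_bb hn hQ
  -- elementary facts on n
  have hn2 : n ^ 2 = n * n := by ring
  have hnn : n ≤ n ^ 2 := by rw [hn2]; exact Nat.le_mul_of_pos_left n (by omega)
  have hr0 : (3 * n + 1) * n ≤ 4 * n ^ 2 := by
    calc (3 * n + 1) * n = 3 * n ^ 2 + n := by ring
      _ ≤ 4 * n ^ 2 := by omega
  have h2n : 3 * n + 1 ≤ 2 ^ n := num_two_pow_lin hn
  have h4n : 4 * n ^ 2 ≤ (2 ^ n) ^ 2 := by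
    calc 4 * n ^ 2 = (2 * n) ^ 2 := by ring
      _ ≤ (2 ^ n) ^ 2 := Nat.pow_le_pow_left (by omega) 2
  have hn34 : n ^ 3 ≤ n ^ 4 := Nat.pow_le_pow_right (by omega) (by norm_num)
  have hn24 : n ^ 2 ≤ n ^ 4 := Nat.pow_le_pow_right (by omega) (by norm_num)
  have hn14 : 1 ≤ n ^ 4 := Nat.one_le_pow _ _ (by omega)
  set r0 := (3 * n + 1) * n with hr0def
  set b := bb n Q with hb
  have hb0 : 0 < b := by linarith
  have hX1 : 1 ≤ X := le_trans (one_le_pow₀ hb1) hX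
  have hX0 : 0 < X := by linarith
  have hla1 : 1 ≤ la := by omega
  have hlaR : (1 : ℝ) ≤ la := by exact_mod_cast hla1
  have hV0 : 0 ≤ V := by linarith
  have h2Q : (2 : ℝ) ^ n ≤ Q := by exact_mod_cast hQ
  -- r0 ≤ Q ^ 2
  have e1 : (r0 : ℝ) ≤ (Q : ℝ) ^ 2 := by
    have : r0 ≤ Q ^ 2 := hr0.trans (h4n.trans (Nat.pow_le_pow_left hQ 2))
    exact_mod_cast this
  have e2 : (r0 : ℝ) ^ r0 ≤ b ^ 2 := by
    calc (r0 : ℝ) ^ r0 ≤ ((Q : ℝ) ^ 2) ^ r0 := pow_le_pow_left₀ (by positivity) e1 _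
      _ = (Q : ℝ) ^ (2 * r0) := by rw [← pow_mul]
      _ ≤ (Q : ℝ) ^ (7 * n ^ 2 * 2) := pow_le_pow_right₀ hQ1 (by omega)
      _ = b ^ 2 := by rw [hbdef, ← pow_mul]
  -- n ≤ b
  have e3 : (n : ℝ) ≤ b := by
    have : n ≤ Q := by omega
    have h' : (n : ℝ) ≤ Q := by exact_mod_cast this
    exact h'.trans hQb
  -- the last factor
  have hr2 : r0 ^ 2 ≤ 16 * n ^ 4 := by
    calc r0 ^ 2 ≤ (4 * n ^ 2) ^ 2 := Nat.pow_le_pow_left hr0 2
      _ = 16 * n ^ 4 := by ring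
  have e4 : ((Q : ℝ) ^ 3) ^ (r0 ^ 2 * n) ≤ b ^ (7 * n ^ 3) := by
    calc ((Q : ℝ) ^ 3) ^ (r0 ^ 2 * n) = (Q : ℝ) ^ (3 * (r0 ^ 2 * n)) := by rw [← pow_mul]
      _ ≤ (Q : ℝ) ^ (7 * n ^ 2 * (7 * n ^ 3)) := by
          refine pow_le_pow_right₀ hQ1 ?_
          calc 3 * (r0 ^ 2 * n) ≤ 3 * (16 * n ^ 4 * n) := by gcongr
            _ = 48 * n ^ 5 := by ring
            _ ≤ 49 * n ^ 5 := by omega
            _ = 7 * n ^ 2 * (7 * n ^ 3) := by ring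
      _ = b ^ (7 * n ^ 3) := by rw [hbdef, ← pow_mul]
  -- E
  have e5 : ((3 * n * la : ℕ) : ℝ) + 3 * (r0 : ℝ) * n ≤ Q * la := by
    have h1 : 3 * n * la + 3 * r0 * n ≤ Q * la := by
      have h2 : 3 * r0 * n ≤ la := by
        calc 3 * r0 * n ≤ 3 * (4 * n ^ 2) * n := by gcongr
          _ = 12 * n ^ 3 := by ring
          _ ≤ la := by omega
      calc 3 * n * la + 3 * r0 * n ≤ 3 * n * la + la := by omega
        _ = (3 * n + 1) * la := by ring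
        _ ≤ Q * la := Nat.mul_le_mul_right la (h2n.trans hQ)
    exact_mod_cast h1
  have e6 : (Q : ℝ) ^ 4 * (((3 * n * la : ℕ) : ℝ) + 3 * (r0 : ℝ) * n) ≤ (Q : ℝ) ^ 5 * la := by
    calc (Q : ℝ) ^ 4 * (((3 * n * la : ℕ) : ℝ) + 3 * (r0 : ℝ) * n)
        ≤ (Q : ℝ) ^ 4 * (Q * la) := by gcongr
      _ = (Q : ℝ) ^ 5 * la := by ring
  -- powers of la
  have e7 : (la : ℝ) ^ (16 * n ^ 4) ≤ b ^ la := by
    have h1 : (la : ℝ) ^ (16 * n) ≤ 2 ^ (7 * la) := by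
      have := num_la_pow hn hla
      exact_mod_cast this
    calc (la : ℝ) ^ (16 * n ^ 4) = ((la : ℝ) ^ (16 * n)) ^ (n ^ 3) := by
          rw [← pow_mul]; congr 1; ring
      _ ≤ (2 ^ (7 * la)) ^ (n ^ 3) := pow_le_pow_left₀ (by positivity) h1 _
      _ = (2 ^ n) ^ (7 * n ^ 2 * la) := by
          rw [← pow_mul, ← pow_mul]; congr 1; ring
      _ ≤ (Q : ℝ) ^ (7 * n ^ 2 * la) := pow_le_pow_left₀ (by positivity) h2Q _
      _ = b ^ la := by rw [hbdef, ← pow_mul]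
  have e8 : ((Q : ℝ) ^ 5 * la) ^ (r0 ^ 2) ≤ b ^ (12 * n ^ 2) * b ^ la := by
    have h1 : (1 : ℝ) ≤ (Q : ℝ) ^ 5 * la := by
      have := one_le_pow₀ (n := 5) hQ1
      nlinarith
    calc ((Q : ℝ) ^ 5 * la) ^ (r0 ^ 2) ≤ ((Q : ℝ) ^ 5 * la) ^ (16 * n ^ 4) :=
          pow_le_pow_right₀ h1 hr2
      _ = (Q : ℝ) ^ (80 * n ^ 4) * (la : ℝ) ^ (16 * n ^ 4) := by
          rw [mul_pow, ← pow_mul]; congr 2; ring
      _ ≤ (Q : ℝ) ^ (7 * n ^ 2 * (12 * n ^ 2)) * b ^ la := by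
          refine mul_le_mul (pow_le_pow_right₀ hQ1 ?_) e7 (by positivity) (by positivity)
          have : 7 * n ^ 2 * (12 * n ^ 2) = 84 * n ^ 4 := by ring
          omega
      _ = b ^ (12 * n ^ 2) * b ^ la := by
          rw [hbdef, ← pow_mul (Q : ℝ) (7 * n ^ 2) (12 * n ^ 2)]
  -- Z
  have e9 : Z ^ r0 ≤ b ^ (240 * n ^ 3 * la) * V ^ (208 * n ^ 3) := by
    have h1 : (1 : ℝ) ≤ b ^ (60 * n * la) * V ^ (52 * n) := by
      have := one_le_pow₀ (n := 60 * n * la) hb1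
      have := one_le_pow₀ (n := 52 * n) hV1
      nlinarith
    calc Z ^ r0 ≤ (b ^ (60 * n * la) * V ^ (52 * n)) ^ r0 := pow_le_pow_left₀ hZ0 hZ _
      _ ≤ (b ^ (60 * n * la) * V ^ (52 * n)) ^ (4 * n ^ 2) := pow_le_pow_right₀ h1 hr0
      _ = b ^ (240 * n ^ 3 * la) * V ^ (208 * n ^ 3) := by
          rw [mul_pow, ← pow_mul, ← pow_mul]
          congr 2 <;> ring
  -- the middle factor
  have e10 : (((Q : ℝ) ^ 4 * (((3 * n * la : ℕ) : ℝ) + 3 * (r0 : ℝ) * n)) ^ r0 * Z) ^ r0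
      ≤ b ^ (12 * n ^ 2) * b ^ la * (b ^ (240 * n ^ 3 * la) * V ^ (208 * n ^ 3)) := by
    rw [mul_pow, ← pow_mul]
    have h1 : ((Q : ℝ) ^ 4 * (((3 * n * la : ℕ) : ℝ) + 3 * (r0 : ℝ) * n)) ^ (r0 * r0)
        ≤ b ^ (12 * n ^ 2) * b ^ la := by
      rw [← pow_two r0]
      refine le_trans (pow_le_pow_left₀ (by positivity) e6 _) e8
    exact mul_le_mul h1 e9 (by positivity) (by positivity)
  -- the whole right-hand side
  have e11 : X ^ (K - r0) ≤ b ^ (242 * n ^ 4 * la) * V ^ (208 * n ^ 4) := by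
    refine h.trans ?_
    calc ((n : ℝ) * ((r0 : ℝ) ^ r0 *
        (((Q : ℝ) ^ 4 * (((3 * n * la : ℕ) : ℝ) + 3 * (r0 : ℝ) * n)) ^ r0 * Z) ^ r0 *
        ((Q : ℝ) ^ 3) ^ (r0 ^ 2 * n))) ^ n
        ≤ (b * (b ^ 2 * (b ^ (12 * n ^ 2) * b ^ la * (b ^ (240 * n ^ 3 * la) * V ^ (208 * n ^ 3)))
            * b ^ (7 * n ^ 3))) ^ n := by
          gcongr
      _ = (b ^ (3 + 12 * n ^ 2 + la + 240 * n ^ 3 * la + 7 * n ^ 3) * V ^ (208 * n ^ 3)) ^ n := by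
          congr 1
          rw [pow_add, pow_add, pow_add, pow_add, pow_succ b 2]
          ring
      _ ≤ (b ^ (242 * n ^ 3 * la) * V ^ (208 * n ^ 3)) ^ n := by
          gcongr
          have h1 : la ≤ n ^ 3 * la := Nat.le_mul_of_pos_left la (by positivity)
          have h2 : 242 * n ^ 3 * la = 240 * n ^ 3 * la + 2 * (n ^ 3 * la) := by ring
          omega
      _ = b ^ (242 * n ^ 4 * la) * V ^ (208 * n ^ 4) := by
          rw [mul_pow, ← pow_mul, ← pow_mul]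
          congr 2 <;> ring
  -- exponents on the left
  have e12 : 2 * la ≤ 64 * n * (K - r0) := by
    have h1 : 16 * n * (K + 1) = 16 * (n * K) + 16 * n := by ring
    have h2 : n * r0 ≤ 4 * n ^ 3 := by
      calc n * r0 ≤ n * (4 * n ^ 2) := Nat.mul_le_mul_left n hr0
        _ = 4 * n ^ 3 := by ring
    have h3 : 64 * n * (K - r0) = 64 * (n * K) - 64 * (n * r0) := by
      rw [Nat.mul_sub, mul_assoc, mul_assoc]
    have h4 : n ≤ n ^ 4 := hnn.trans hn24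
    omega
  have e13 : X ^ (2 * la) ≤ b ^ (15488 * n ^ 5 * la) * V ^ (13312 * n ^ 5) := by
    calc X ^ (2 * la) ≤ X ^ (64 * n * (K - r0)) := pow_le_pow_right₀ hX1 e12
      _ = (X ^ (K - r0)) ^ (64 * n) := by rw [← pow_mul]; congr 1; ring
      _ ≤ (b ^ (242 * n ^ 4 * la) * V ^ (208 * n ^ 4)) ^ (64 * n) :=
          pow_le_pow_left₀ (by positivity) e11 _
      _ = b ^ (15488 * n ^ 5 * la) * V ^ (13312 * n ^ 5) := by
          rw [mul_pow, ← pow_mul, ← pow_mul]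
          congr 2 <;> ring
  have e14 : V ^ (13312 * n ^ 5) ≤ X ^ la := by
    refine le_of_pow_le_pow_left₀ (n := 3) (by norm_num) (by positivity) ?_
    calc (V ^ (13312 * n ^ 5)) ^ 3 = V ^ (39936 * n ^ 5) := by
          rw [← pow_mul]; congr 1; ring
      _ ≤ V ^ (40000 * n ^ 5) := pow_le_pow_right₀ hV1 (by omega)
      _ ≤ X ^ (la + 1) := hV
      _ ≤ X ^ (la * 3) := pow_le_pow_right₀ hX1 (by omega)
      _ = (X ^ la) ^ 3 := by rw [pow_mul]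
  have e15 : X ^ la ≤ b ^ (15488 * n ^ 5 * la) := by
    refine le_of_mul_le_mul_right ?_ (show 0 < X ^ la by positivity)
    calc X ^ la * X ^ la = X ^ (2 * la) := by rw [← pow_add]; congr 1; ring
      _ ≤ b ^ (15488 * n ^ 5 * la) * V ^ (13312 * n ^ 5) := e13
      _ ≤ b ^ (15488 * n ^ 5 * la) * X ^ la := by gcongr
  have e16 : b ^ (20000 * n ^ 5 * la) ≤ b ^ (15488 * n ^ 5 * la) := by
    calc b ^ (20000 * n ^ 5 * la) = (b ^ (20000 * n ^ 5)) ^ la := by rw [pow_mul]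
      _ ≤ X ^ la := pow_le_pow_left₀ (by positivity) hX _
      _ ≤ _ := e15
  have e17 := (pow_le_pow_iff_right₀ hbb).1 e16
  have e18 : 15488 * n ^ 5 * la < 20000 * n ^ 5 * la := by
    refine Nat.mul_lt_mul_of_pos_right ?_ (by omega)
    have : 0 < n ^ 5 := by positivity
    omega
  omega

end Pool.Agent.H8.KF
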