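import Pool.Agent.H8.KF.BC

/-! # [KF-SIEG] The auxiliary function in two pairs of variables

Unknown: `A i j p q`, `j < n`, `i + j ≤ 3 n la`, `q < n`, `p + q ≤ 3 n`: `U = U1 U2` unknowns,
`2 U1 = n (6 n la + 3 - n)`, `2 U2 = n (5 n + 3)` (`siegel_card`). Equations: for `l ≤ 6 n`,
`k < TT - la l` (note `TT n la ≤ (6 n + 1) la` since `la ≥ 8 n`, so that `k + la l < TT` forces
`l ≤ 6 n`) the element `sm .. = ∑ A i j p q J1(bc ..) J2(bc ..)` of `J.R` vanishes, i.e. its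
coordinates `J.coord` vanish: `E = card ι * ∑_{l ≤ 6n} (TT - la l)
= card ι * (6n+1) (3 n la + 3 n + ee la) ≤ (n²/3) (6n+1)(3n+1) la` equations (`TT - la l ≥ 0`
for `l ≤ 6n`, `3n + ee la ≤ la`). Then `5 E ≤ 4 U`: `15 E ≤ 5 n² (18n²+9n+1) la`,
`12 U = 3 n² (6 n la + 3 - n)(5n+3)` and
`3 (6 n la + 3 - n)(5n+3) - 5(18n²+9n+1) la = (9n - 5) la - 3(n-3)(5n+3) ≥ 0` as `la ≥ 8n`.
Hence `E / (U - E) ≤ 4`.
Size of the coefficients of the equations: `J.size` and `bc_bound`: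
`≤ G b1^(1+2k) b2^(1+2l) ≤ G b1^(14 n la) b2^(13 n)` (`k < TT ≤ (6n+1) la`, `l ≤ 6n`).
Siegel's lemma (`Int.Matrix.exists_ne_zero_int_vec_norm_le`, used as in
`Pool.Agent.H8.UL.siegel2`): a nonzero solution bounded by
`(U G b1^(14 n la) b2^(13n))^4 ≤ b1^(60 n la) (G b2^(13n))^4`, as
`U ≤ 16 n⁴ la ≤ b1^(n la)`. (Unknowns indexed by `siegelSet n (3 n la) × siegelSet n (3 n)`;
put `A = 0` outside.) -/

namespace Pool.Agent.H8.KF

open Finset Polynomial Pool.Agent.H72.ES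

variable {n Q1 Q2 : ℕ} {f1 f2 : ℤ[X]} {θ1 θ2 : ℝ}

theorem sum_siegelSet {M : Type*} [AddCommMonoid M] {n N : ℕ} (h : n ≤ N + 1) (g : ℕ → ℕ → M)
    (hg : ∀ i j, n ≤ j → g i j = 0) :
    ∑ i ∈ range (N + 1), ∑ j ∈ range (N + 1 - i), g i j =
      ∑ p ∈ siegelSet n N, g p.2 p.1 := by
  unfold siegelSet
  rw [sum_sigma]
  rw [sum_comm' (s := range (N + 1)) (t := fun i => range (N + 1 - i)) (t' := range (N + 1))
    (s' := fun j => range (N + 1 - j))]
  · symm
    apply sum_subset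
    · intro j hj
      simp only [mem_range] at hj ⊢
      omega
    · intro j _ hj
      simp only [mem_range, not_lt] at hj
      apply sum_eq_zero
      intro i _
      exact hg i j hj
  · intro i j
    simp only [mem_range]
    omega

theorem TT_le {n la : ℕ} (hn : 4 ≤ n) (hla : 8 * n ≤ la) : TT n la ≤ (6 * n + 1) * la := by
  unfold TT ee
  have h1 : 2 * (la / 2) ≤ la := Nat.mul_div_le la 2
  have h2 : (6 * n + 1) * la = 6 * n * la + la := by ring
  rw [h2]
  omega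

theorem sieg_rows (n la : ℕ) :
    2 * ((∑ l : Fin (6 * n + 1), (TT n la - la * (l : ℕ)) : ℕ) : ℤ) =
      (6 * n + 1) * (2 * TT n la - 6 * n * la) := by
  have key : ∀ m, m ≤ 6 * n + 1 →
      2 * ((∑ l ∈ range m, (TT n la - la * l) : ℕ) : ℤ) = m * (2 * TT n la - (m - 1) * la) := by
    intro m
    induction m with
    | zero => intro _; simp
    | succ m ih =>
      intro hm
      rw [sum_range_succ]
      have h1 : la * m ≤ TT n la := by
        unfold TT
        have : la * m ≤ la * (6 * n) := Nat.mul_le_mul_left _ (by omega)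
        nlinarith
      push_cast [Nat.cast_sub h1]
      have := ih (by omega)
      push_cast at this
      linarith [this]
  rw [Fin.sum_univ_eq_sum_range (fun l => TT n la - la * l) (6 * n + 1)]
  have h := key (6 * n + 1) le_rfl
  push_cast at h ⊢
  linarith

attribute [local instance] Matrix.seminormedAddCommGroup

theorem sieg (O1 : Ord ℝ n Q1 f1 θ1) (O2 : Ord ℝ n Q2 f2 θ2) {F1 F2 : ℕ → ℕ → ℤ}
    (hF1 : Norml n Q1 f1 F1) (hF2 : Norml n Q2 f2 F2) (br1 : Branch O1 F1) (br2 : Branch O2 F2)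
    {ι : Type} [Fintype ι] [Nonempty ι] {G : ℝ} (hG : 1 ≤ G) (J : Joint O1 O2 ι G)
    (hι : 3 * Fintype.card ι ≤ n ^ 2) (la : ℕ) (hla : 8 * n ≤ la) :
    ∃ A : ℕ → ℕ → ℕ → ℕ → ℤ, (∃ i j p q, A i j p q ≠ 0) ∧ Supp n la A ∧
      (∀ i j p q, |((A i j p q : ℤ) : ℝ)| ≤
        bb n Q1 ^ (60 * n * la) * (G * bb n Q2 ^ (13 * n)) ^ 4) ∧
      ∀ k l, k + la * l < TT n la →
        sm (3 * n * la) (3 * n) A (fun i j => J.J1 (bc O1 br1 (3 * n * la) i j k))
          (fun p q => J.J2 (bc O2 br2 (3 * n) p q l)) = 0 := by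
  classical
  have hn := hF1.hn
  have hQ1 := hF1.hQ
  have hQ2 := hF2.hQ
  have hb1 : 1 ≤ bb n Q1 := one_le_bb hn hQ1
  have hb2 : 1 ≤ bb n Q2 := one_le_bb hn hQ2
  have hTT := TT_le hn hla
  have hnla : n ≤ n * la := Nat.le_mul_of_pos_right _ (by omega)
  set S1 := siegelSet n (3 * n * la) with hS1
  set S2 := siegelSet n (3 * n) with hS2
  have hc1 : 2 * (S1.card : ℤ) = n * (6 * n * la + 3 - n) := by
    have := siegel_card (n := n) (N := 3 * n * la) (by nlinarith)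
    push_cast at this
    rw [← hS1] at this
    linarith
  have hc2 : 2 * (S2.card : ℤ) = n * (5 * n + 3) := by
    have := siegel_card (n := n) (N := 3 * n) (by omega)
    push_cast at this
    rw [← hS2] at this
    linarith
  let I1 := (Σ l : Fin (6 * n + 1), Fin (TT n la - la * (l : ℕ)))
  let M : Matrix (I1 × ι) ({p // p ∈ S1} × {p // p ∈ S2}) ℤ :=
    Matrix.of fun r c => J.coord (J.J1 (bc O1 br1 (3 * n * la) c.1.1.2 c.1.1.1 r.1.2) *
      J.J2 (bc O2 br2 (3 * n) c.2.1.2 c.2.1.1 r.1.1)) r.2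
  set R := (∑ l : Fin (6 * n + 1), (TT n la - la * (l : ℕ))) with hR
  have hcα : Fintype.card (I1 × ι) = R * Fintype.card ι := by
    rw [Fintype.card_prod, Fintype.card_sigma]
    simp only [Fintype.card_fin, hR]
  have hcβ : Fintype.card ({p // p ∈ S1} × {p // p ∈ S2}) = S1.card * S2.card := by
    rw [Fintype.card_prod, Fintype.card_coe, Fintype.card_coe]
  have hRr : 2 * (R : ℝ) = (6 * n + 1) * (2 * TT n la - 6 * n * la) := by
    have := sieg_rows n la
    rw [← hR] at this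
    exact_mod_cast this
  have hTTr : (2 * TT n la : ℝ) ≤ 12 * n * la + 2 * la := by
    have h1 : 2 * TT n la ≤ 12 * n * la + 2 * la := by nlinarith
    exact_mod_cast h1
  have hTTr0 : (12 * n * la + 6 * n + la : ℝ) ≤ 2 * TT n la := by
    have h1 : 12 * n * la + 6 * n + la ≤ 2 * TT n la := by
      unfold TT ee
      have h3 : la < 2 * (la / 2 + 1) := by omega
      nlinarith
    exact_mod_cast h1
  have hιr : 3 * (Fintype.card ι : ℝ) ≤ (n : ℝ) ^ 2 := by exact_mod_cast hι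
  have hι0 : (1 : ℝ) ≤ (Fintype.card ι : ℝ) := by exact_mod_cast Fintype.card_pos
  have hnR : (4 : ℝ) ≤ n := by exact_mod_cast hn
  have hlaR : 8 * (n : ℝ) ≤ la := by exact_mod_cast hla
  have hu1 : 2 * (S1.card : ℝ) = n * (6 * n * la + 3 - n) := by exact_mod_cast hc1
  have hu2 : 2 * (S2.card : ℝ) = n * (5 * n + 3) := by exact_mod_cast hc2
  have hU : ((S1.card * S2.card : ℕ) : ℝ) = n * (6 * n * la + 3 - n) * (n * (5 * n + 3)) / 4 := by
    push_cast
    rw [← hu1, ← hu2]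
    ring
  have hE : 3 * ((R * Fintype.card ι : ℕ) : ℝ) ≤ (6 * n + 1) * (3 * n * la + la) * n ^ 2 := by
    push_cast
    have hR1 : (R : ℝ) ≤ (6 * n + 1) * (3 * n * la + la) := by
      have : 2 * (R : ℝ) ≤ (6 * n + 1) * (2 * (3 * n * la + la)) := by
        rw [hRr]
        refine mul_le_mul_of_nonneg_left ?_ (by linarith)
        linarith
      linarith
    calc 3 * ((R : ℝ) * Fintype.card ι) = R * (3 * Fintype.card ι) := by ring
      _ ≤ (6 * n + 1) * (3 * n * la + la) * n ^ 2 :=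
          mul_le_mul hR1 hιr (by linarith) (by positivity)
  have h54 : 5 * ((R * Fintype.card ι : ℕ) : ℝ) ≤ 4 * ((S1.card * S2.card : ℕ) : ℝ) := by
    rw [hU]
    have h1 : 5 * ((6 * (n : ℝ) + 1) * (3 * n * la + la)) ≤
        3 * ((6 * n * la + 3 - n) * (5 * n + 3)) := by
      have h2 : (9 * (n : ℝ) - 5) * (8 * n) ≤ (9 * n - 5) * la :=
        mul_le_mul_of_nonneg_left hlaR (by linarith)
      nlinarith
    have h3 : 5 * ((6 * (n : ℝ) + 1) * (3 * n * la + la)) * n ^ 2 ≤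
        3 * ((6 * n * la + 3 - n) * (5 * n + 3)) * n ^ 2 :=
      mul_le_mul_of_nonneg_right h1 (by positivity)
    nlinarith
  have hEpos : 0 < ((R * Fintype.card ι : ℕ) : ℝ) := by
    push_cast
    have : 0 < (R : ℝ) := by
      have h1 : 0 < 2 * (R : ℝ) := by
        rw [hRr]
        have h2 : (0 : ℝ) < 2 * TT n la - 6 * n * la := by
          have : (0 : ℝ) ≤ 6 * n * la := by positivity
          linarith
        have h3 : (0 : ℝ) < 6 * n + 1 := by linarith
        positivity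
      linarith
    positivity
  have hlt : Fintype.card (I1 × ι) < Fintype.card ({p // p ∈ S1} × {p // p ∈ S2}) := by
    rw [hcα, hcβ]
    have : ((R * Fintype.card ι : ℕ) : ℝ) < ((S1.card * S2.card : ℕ) : ℝ) := by linarith
    exact_mod_cast this
  have hmpos : 0 < Fintype.card (I1 × ι) := by
    rw [hcα]
    exact_mod_cast hEpos
  obtain ⟨x, hx0, hMx, hxn⟩ := Int.Matrix.exists_ne_zero_int_vec_norm_le M hlt hmpos
  -- norm bound
  have hMn : ‖M‖ ≤ G * (bb n Q1 ^ (14 * n * la) * bb n Q2 ^ (13 * n)) := by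
    rw [Matrix.norm_le_iff (by positivity)]
    intro r c
    have hcm1 := siegel_mem.1 c.1.2
    have hcm2 := siegel_mem.1 c.2.2
    rw [Int.norm_eq_abs]
    refine (J.size _ _ _).trans (mul_le_mul_of_nonneg_left ?_ (by linarith))
    have hk : (r.1.2 : ℕ) < TT n la - la * (r.1.1 : ℕ) := r.1.2.2
    have hl : (r.1.1 : ℕ) < 6 * n + 1 := r.1.1.2
    refine mul_le_mul ?_ ?_ (O2.ν_nonneg _) (by positivity)
    · refine (bc_bound O1 hF1 br1 _ _ _ _ hcm1.1).trans ?_
      refine pow_le_pow_right₀ hb1 ?_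
      have h1 : 2 * TT n la ≤ 12 * n * la + 2 * la := by nlinarith
      have h2 : 4 * la ≤ n * la := Nat.mul_le_mul_right _ hn
      have h3 : 14 * n * la = 12 * n * la + 2 * (n * la) := by ring
      omega
    · refine (bc_bound O2 hF2 br2 _ _ _ _ hcm2.1).trans ?_
      exact pow_le_pow_right₀ hb2 (by omega)
  have hxle : ‖x‖ ≤ bb n Q1 ^ (60 * n * la) * (G * bb n Q2 ^ (13 * n)) ^ 4 := by
    refine hxn.trans ?_
    rw [hcα, hcβ]
    have hUpos : 0 < S1.card * S2.card := by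
      rw [← hcβ]
      omega
    have hU1 : (1 : ℝ) ≤ ((S1.card * S2.card : ℕ) : ℝ) := by exact_mod_cast hUpos
    have hbase1 : (1 : ℝ) ≤ ((S1.card * S2.card : ℕ) : ℝ) * max 1 ‖M‖ :=
      one_le_mul_of_one_le_of_one_le hU1 (le_max_left _ _)
    have hexp : (((R * Fintype.card ι : ℕ) : ℝ)) / (((S1.card * S2.card : ℕ) : ℝ) -
        ((R * Fintype.card ι : ℕ) : ℝ)) ≤ (4 : ℕ) := by
      rw [div_le_iff₀ (by linarith)]
      push_cast at h54 ⊢
      linarith
    have hbase2 : ((S1.card * S2.card : ℕ) : ℝ) * max 1 ‖M‖ ≤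
        bb n Q1 ^ (15 * n * la) * (G * bb n Q2 ^ (13 * n)) := by
      have h1 : max 1 ‖M‖ ≤ G * (bb n Q1 ^ (14 * n * la) * bb n Q2 ^ (13 * n)) :=
        max_le (one_le_mul_of_one_le_of_one_le hG (one_le_mul_of_one_le_of_one_le
          (one_le_pow₀ hb1) (one_le_pow₀ hb2))) hMn
      have h2 : ((S1.card * S2.card : ℕ) : ℝ) ≤ bb n Q1 ^ (n * la) := by
        rw [hU]
        have hQ16 := sixteen_leR hn hQ1
        have hnQ := n_leR hn hQ1
        have h3 : (la : ℝ) ≤ (Q1 : ℝ) ^ la := by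
          have h4 : (la : ℝ) ≤ (2 : ℝ) ^ la := by exact_mod_cast Nat.lt_two_pow_self.le
          exact h4.trans (pow_le_pow_left₀ (by norm_num) (by linarith) la)
        have h5 : (n : ℝ) * (6 * n * la + 3 - n) * (n * (5 * n + 3)) / 4 ≤ 16 * n ^ 4 * la := by
          have h6 : (6 * (n : ℝ) * la + 3 - n) * (5 * n + 3) ≤ (6 * n * la) * (6 * n) := by
            refine mul_le_mul (by linarith) (by linarith) (by positivity) (by positivity)
          have h7 : (n : ℝ) ^ 2 * ((6 * (n : ℝ) * la + 3 - n) * (5 * n + 3)) ≤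
              n ^ 2 * ((6 * n * la) * (6 * n)) := mul_le_mul_of_nonneg_left h6 (by positivity)
          have h8 : (0 : ℝ) ≤ n ^ 4 * la := by positivity
          nlinarith
        have h6 : (n : ℝ) ^ 4 ≤ (Q1 : ℝ) ^ 4 := pow_le_pow_left₀ (by linarith) hnQ 4
        calc (n : ℝ) * (6 * n * la + 3 - n) * (n * (5 * n + 3)) / 4 ≤ 16 * n ^ 4 * la := h5
          _ ≤ Q1 * (Q1 : ℝ) ^ 4 * (Q1 : ℝ) ^ la := by
              refine mul_le_mul (mul_le_mul hQ16 h6 (by positivity) (by linarith)) h3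
                (by positivity) (by positivity)
          _ = (Q1 : ℝ) ^ (la + 5) := by ring
          _ ≤ (Q1 : ℝ) ^ (7 * n ^ 2 * (n * la)) := by
              refine Qpow_mono hn hQ1 ?_
              have h9 : 1 * (4 * la) ≤ n ^ 2 * (n * la) :=
                Nat.mul_le_mul (Nat.one_le_pow _ _ (by omega)) (Nat.mul_le_mul_right _ hn)
              nlinarith
          _ = bb n Q1 ^ (n * la) := by rw [bb, ← pow_mul]
      calc ((S1.card * S2.card : ℕ) : ℝ) * max 1 ‖M‖ ≤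
            bb n Q1 ^ (n * la) * (G * (bb n Q1 ^ (14 * n * la) * bb n Q2 ^ (13 * n))) :=
            mul_le_mul h2 h1 (by positivity) (by positivity)
        _ = bb n Q1 ^ (n * la + 14 * n * la) * (G * bb n Q2 ^ (13 * n)) := by
            rw [pow_add]; ring
        _ = bb n Q1 ^ (15 * n * la) * (G * bb n Q2 ^ (13 * n)) := by
            congr 2; ring
    calc (((S1.card * S2.card : ℕ) : ℝ) * max 1 ‖M‖) ^ ((((R * Fintype.card ι : ℕ) : ℝ)) /
          (((S1.card * S2.card : ℕ) : ℝ) - ((R * Fintype.card ι : ℕ) : ℝ)))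
        ≤ (((S1.card * S2.card : ℕ) : ℝ) * max 1 ‖M‖) ^ (((4 : ℕ) : ℝ)) :=
          Real.rpow_le_rpow_of_exponent_le hbase1 hexp
      _ = (((S1.card * S2.card : ℕ) : ℝ) * max 1 ‖M‖) ^ 4 := Real.rpow_natCast _ _
      _ ≤ (bb n Q1 ^ (15 * n * la) * (G * bb n Q2 ^ (13 * n))) ^ 4 :=
          pow_le_pow_left₀ (by positivity) hbase2 4
      _ = bb n Q1 ^ (60 * n * la) * (G * bb n Q2 ^ (13 * n)) ^ 4 := by
          rw [mul_pow, ← pow_mul]; congr 2; ring
  -- the array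
  let A : ℕ → ℕ → ℕ → ℕ → ℤ := fun i j p q =>
    if h : (⟨j, i⟩ : Σ _ : ℕ, ℕ) ∈ S1 ∧ (⟨q, p⟩ : Σ _ : ℕ, ℕ) ∈ S2 then
      x (⟨⟨j, i⟩, h.1⟩, ⟨⟨q, p⟩, h.2⟩) else 0
  have hA : ∀ (a b : Σ _ : ℕ, ℕ) (h1 : a ∈ S1) (h2 : b ∈ S2),
      A a.2 a.1 b.2 b.1 = x (⟨a, h1⟩, ⟨b, h2⟩) := by
    intro a b h1 h2
    exact dif_pos (⟨h1, h2⟩ : (⟨a.1, a.2⟩ : Σ _ : ℕ, ℕ) ∈ S1 ∧ (⟨b.1, b.2⟩ : Σ _ : ℕ, ℕ) ∈ S2)
  have hA0 : ∀ i j p q, A i j p q ≠ 0 →
      (⟨j, i⟩ : Σ _ : ℕ, ℕ) ∈ S1 ∧ (⟨q, p⟩ : Σ _ : ℕ, ℕ) ∈ S2 := by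
    intro i j p q h
    by_contra hc
    exact h (dif_neg hc)
  refine ⟨A, ?_, ?_, ?_, ?_⟩
  · have : ∃ c, x c ≠ 0 := by
      by_contra hc
      push Not at hc
      exact hx0 (funext hc)
    obtain ⟨⟨⟨a, ha⟩, ⟨b, hb⟩⟩, hc⟩ := this
    exact ⟨a.2, a.1, b.2, b.1, by rw [hA a b ha hb]; exact hc⟩
  · intro i j p q h
    have h1 := siegel_mem.1 (hA0 i j p q h).1
    have h2 := siegel_mem.1 (hA0 i j p q h).2
    simp only at h1 h2
    omega
  · intro i j p q
    by_cases h : (⟨j, i⟩ : Σ _ : ℕ, ℕ) ∈ S1 ∧ (⟨q, p⟩ : Σ _ : ℕ, ℕ) ∈ S2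
    · have h1 : A i j p q = x (⟨⟨j, i⟩, h.1⟩, ⟨⟨q, p⟩, h.2⟩) := dif_pos h
      rw [h1, ← Int.norm_eq_abs]
      exact (norm_le_pi_norm x _).trans hxle
    · have h1 : A i j p q = 0 := dif_neg h
      rw [h1]
      simp only [Int.cast_zero, abs_zero]
      positivity
  · intro k l hkl
    have hl : l < 6 * n + 1 := by
      by_contra hc
      push Not at hc
      have h1 : la * (6 * n + 1) ≤ la * l := Nat.mul_le_mul_left _ hc
      nlinarith
    have hk : k < TT n la - la * l := by omega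
    apply J.coord_inj
    rw [map_zero]
    funext c
    have h1 : (M.mulVec x) (⟨⟨l, hl⟩, ⟨k, hk⟩⟩, c) = 0 := by rw [hMx]; rfl
    rw [Matrix.mulVec, dotProduct, Fintype.sum_prod_type] at h1
    have hz1 : ∀ i j p q, n ≤ j → A i j p q = 0 := by
      intro i j p q hj
      by_contra hc
      have := siegel_mem.1 (hA0 i j p q hc).1
      simp only at this
      omega
    have hz2 : ∀ i j p q, n ≤ q → A i j p q = 0 := by
      intro i j p q hj
      by_contra hc
      have := siegel_mem.1 (hA0 i j p q hc).2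
      simp only at this
      omega
    have h2 : sm (3 * n * la) (3 * n) A (fun i j => J.J1 (bc O1 br1 (3 * n * la) i j k))
          (fun p q => J.J2 (bc O2 br2 (3 * n) p q l)) =
        ∑ a ∈ S1, ∑ b ∈ S2, A a.2 a.1 b.2 b.1 • (J.J1 (bc O1 br1 (3 * n * la) a.2 a.1 k) *
          J.J2 (bc O2 br2 (3 * n) b.2 b.1 l)) := by
      unfold sm
      rw [sum_siegelSet (n := n) (by nlinarith) (fun i j => ∑ p ∈ range (3 * n + 1),
        ∑ q ∈ range (3 * n + 1 - p), (A i j p q : J.R) *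
          (J.J1 (bc O1 br1 (3 * n * la) i j k) * J.J2 (bc O2 br2 (3 * n) p q l)))]
      · refine sum_congr rfl fun a _ => ?_
        rw [sum_siegelSet (n := n) (by omega) (fun p q => (A a.2 a.1 p q : J.R) *
          (J.J1 (bc O1 br1 (3 * n * la) a.2 a.1 k) * J.J2 (bc O2 br2 (3 * n) p q l)))]
        · refine sum_congr rfl fun b _ => ?_
          rw [zsmul_eq_mul]
        · intro p q hq
          rw [hz2 _ _ _ _ hq, Int.cast_zero, zero_mul]
      · intro i j hj
        refine sum_eq_zero fun p _ => sum_eq_zero fun q _ => ?_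
        rw [hz1 _ _ _ _ hj, Int.cast_zero, zero_mul]
    rw [h2, map_sum, Finset.sum_apply, Pi.zero_apply, ← h1, ← Finset.sum_coe_sort S1]
    refine sum_congr rfl fun a _ => ?_
    rw [map_sum, Finset.sum_apply, ← Finset.sum_coe_sort S2]
    refine sum_congr rfl fun b _ => ?_
    rw [map_zsmul, hA a.1 b.1 a.2 b.2]
    simp only [Pi.smul_apply, smul_eq_mul, M, Matrix.of_apply]
    rw [mul_comm]

end Pool.Agent.H8.KF
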