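import Pool.Agent.H8.KF.SmallReal

/-! # [KF-ST2] The function of the first point is small

`small_real` with `τ = 2/X`, `T = TT n la`, `M = Z B`, `m k = Z b1^(la+2k) B / X^(TT-k)`:
after multiplication by `X^TT` the sum is `Z B b1^la ∑_{k<TT} (2 b1⁴)^k ≤ Z B b1^la (2b1⁴)^TT`
and the second term is `(3 n la + 1) Z B b1⁴ (2 b1⁴)^TT`. `2 b1⁴ ≤ b1⁵`, `TT ≤ (6n+1) la`,
so the total is `≤ Z B b1^(5 (6n+1) la) (b1^la + (3 n la+1) b1⁴) ≤ Z B b1^(36 n la)`. -/

namespace Pool.Agent.H8.KF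

open Finset Polynomial Pool.Agent.H72.ES

variable {n Q : ℕ} {f : ℤ[X]} {θ : ℝ}

private theorem st2_geom (q : ℝ) (hq : 2 ≤ q) (T : ℕ) : ∑ k ∈ range T, q ^ k ≤ q ^ T := by
  induction T with
  | zero => simp
  | succ T ih =>
    rw [sum_range_succ, pow_succ]
    have h : 0 ≤ q ^ T := by positivity
    nlinarith

/-- the numerical inequality -/
private theorem st2_num (b : ℝ) (hb : 1000 ≤ b) (n la : ℕ) (hn : 4 ≤ n) (hnb : (4 * n : ℝ) ≤ b)
    (hla : 8 * n ≤ la) :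
    (b ^ la + (3 * n * la + 1) * b ^ 4) * (2 * b ^ 4) ^ TT n la ≤ b ^ (36 * n * la) := by
  have hb0 : 0 < b := by linarith
  have hb1 : 1 ≤ b := by linarith
  have hT : TT n la ≤ (6 * n + 1) * la := by
    unfold TT ee
    have h1 : 3 * n + (la / 2 + 1) ≤ la := by omega
    have h2 : (6 * n + 1) * la = 6 * n * la + la := by ring
    rw [h2]
    omega
  have h2b : 2 * b ^ 4 ≤ b ^ 5 := by
    have : b ^ 5 = b * b ^ 4 := by ring
    rw [this]
    exact mul_le_mul_of_nonneg_right (by linarith) (by positivity)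
  have hq : (2 * b ^ 4) ^ TT n la ≤ b ^ (5 * ((6 * n + 1) * la)) := by
    calc (2 * b ^ 4) ^ TT n la ≤ (b ^ 5) ^ TT n la := pow_le_pow_left₀ (by positivity) h2b _
      _ = b ^ (5 * TT n la) := by rw [← pow_mul]
      _ ≤ _ := pow_le_pow_right₀ hb1 (Nat.mul_le_mul_left 5 hT)
  have hla1 : 1 ≤ la := by omega
  have hla4 : 4 ≤ la := by omega
  have h3 : (3 * n * la + 1 : ℝ) ≤ b ^ (2 * la) := by
    have h4 : (la : ℝ) ≤ b ^ la := by
      have h5 : (la : ℝ) ≤ (2 : ℝ) ^ la := by exact_mod_cast (Nat.lt_two_pow_self (n := la)).le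
      exact h5.trans (pow_le_pow_left₀ (by norm_num) (by linarith) _)
    have hn1 : (1 : ℝ) ≤ n := by exact_mod_cast (by omega : 1 ≤ n)
    have hl1 : (1 : ℝ) ≤ la := by exact_mod_cast hla1
    calc (3 * n * la + 1 : ℝ) ≤ (4 * n) * la := by nlinarith
      _ ≤ b * b ^ la := mul_le_mul hnb h4 (by positivity) hb0.le
      _ = b ^ (la + 1) := by ring
      _ ≤ b ^ (2 * la) := pow_le_pow_right₀ hb1 (by omega)
  have h6 : b ^ la + (3 * n * la + 1) * b ^ 4 ≤ b ^ (4 * la) := by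
    have h7 : (3 * n * la + 1) * b ^ 4 ≤ b ^ (3 * la) := by
      calc (3 * n * la + 1) * b ^ 4 ≤ b ^ (2 * la) * b ^ la :=
            mul_le_mul h3 (pow_le_pow_right₀ hb1 hla4) (by positivity) (by positivity)
        _ = b ^ (3 * la) := by rw [← pow_add]; congr 1; ring
    have h8 : b ^ la ≤ b ^ (3 * la) := pow_le_pow_right₀ hb1 (by omega)
    calc b ^ la + (3 * n * la + 1) * b ^ 4 ≤ 2 * b ^ (3 * la) := by linarith
      _ ≤ b * b ^ (3 * la) := mul_le_mul_of_nonneg_right (by linarith) (by positivity)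
      _ = b ^ (3 * la + 1) := by ring
      _ ≤ b ^ (4 * la) := pow_le_pow_right₀ hb1 (by omega)
  calc _ ≤ b ^ (4 * la) * b ^ (5 * ((6 * n + 1) * la)) :=
        mul_le_mul h6 hq (by positivity) (by positivity)
    _ = b ^ (4 * la + 5 * ((6 * n + 1) * la)) := by rw [← pow_add]
    _ ≤ b ^ (36 * n * la) := by
      apply pow_le_pow_right₀ hb1
      have : 4 * la + 5 * ((6 * n + 1) * la) = (30 * n + 9) * la := by ring
      rw [this]
      exact Nat.mul_le_mul_right la (by omega)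

theorem stage2 (O : Ord ℝ n Q f θ) {F : ℕ → ℕ → ℤ} (hF : Norml n Q f F) (br : Branch O F)
    (la : ℕ) (hla : 8 * n ≤ la) (c : ℕ → ℕ → ℝ)
    (hc : ∀ i j, c i j ≠ 0 → i + j ≤ 3 * n * la ∧ j < n) (Z B : ℝ) (hZ : 0 ≤ Z) (hB : 1 ≤ B)
    (hM : ∀ i j, |c i j| ≤ Z * B) (X : ℝ) (hX : bb n Q ^ 6 ≤ X)
    (hlow : ∀ k < TT n la, |∑ i ∈ range (3 * n * la + 1), ∑ j ∈ range (3 * n * la + 1 - i),
      c i j * O.φ (bc O br (3 * n * la) i j k)| * X ^ (TT n la - k) ≤
        Z * bb n Q ^ (la + 2 * k) * B)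
    (t z : PowerSeries ℝ) (ρ : ℝ) (hρ : 0 < ρ)
    (hτ : ∀ K, wn (fun a : ℝ => |a|) ρ K t ≤ 2 / X)
    (he : ∀ K, wn (fun a : ℝ => |a|) ρ K (z - PowerSeries.C θ) ≤ 1 / bb n Q)
    (heq : evt n (cst (PowerSeries ℝ) F) t z = 0) (K : ℕ) :
    wn (fun a : ℝ => |a|) ρ K (evt (3 * n * la) (fun i j => PowerSeries.C (c i j)) t z) *
      X ^ TT n la ≤ Z * B * bb n Q ^ (36 * n * la) := by
  have hn := hF.hn
  have hQ := hF.hQ
  have hb := thousand_le_bb hn hQ
  have hnb : (4 * n : ℝ) ≤ bb n Q := by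
    have h3 : (Q : ℝ) ^ 2 ≤ bb n Q := Qpow_le_bb hn hQ (by nlinarith)
    have h4 := n_leR hn hQ
    have h5 := sixteen_leR hn hQ
    nlinarith
  set b := bb n Q with hbdef
  have hb0 : 0 < b := by linarith
  have hb1 : 1 ≤ b := by linarith
  have hX0 : 0 < X := lt_of_lt_of_le (by positivity) hX
  have hτb : 2 / X * b ^ 5 ≤ 1 := by
    rw [div_mul_eq_mul_div, div_le_one hX0]
    refine le_trans ?_ hX
    have : b ^ 6 = b * b ^ 5 := by ring
    rw [this]
    exact mul_le_mul_of_nonneg_right (by linarith) (by positivity)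
  set T := TT n la with hTdef
  have hsr := small_real O hF br t z ρ hρ (2 / X) hτ hτb he heq (3 * n * la) c
    (fun i j h => ⟨(hc i j h).1, (hc i j h).2.le⟩) (Z * B) hM T
    (fun k => Z * b ^ (la + 2 * k) * B / X ^ (T - k))
    (fun k hk => by
      rw [le_div_iff₀ (by positivity)]
      exact hlow k hk) K
  have h1 : wn (fun a : ℝ => |a|) ρ K (evt (3 * n * la) (fun i j => PowerSeries.C (c i j)) t z) *
      X ^ T ≤ Z * B * (b ^ la * ∑ k ∈ range T, (2 * b ^ 4) ^ k) +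
        (3 * n * la + 1) * (Z * B) * b ^ 4 * (2 * b ^ 4) ^ T := by
    refine (mul_le_mul_of_nonneg_right hsr (by positivity)).trans (le_of_eq ?_)
    rw [add_mul]
    congr 1
    · rw [sum_mul, mul_sum, mul_sum]
      refine sum_congr rfl fun k hk => ?_
      have hk' : k ≤ T := (mem_range.1 hk).le
      have e1 : X ^ T = X ^ (T - k) * X ^ k := by rw [← pow_add, Nat.sub_add_cancel hk']
      have e2 : (2 / X * b ^ 2) ^ k * X ^ k = (2 * b ^ 2) ^ k := by
        rw [← mul_pow]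
        congr 1
        field_simp
      have e3 : b ^ (la + 2 * k) = b ^ la * (b ^ 2) ^ k := by rw [pow_add, pow_mul]
      have e4 : (2 * b ^ 4) ^ k = (b ^ 2) ^ k * (2 * b ^ 2) ^ k := by
        rw [← mul_pow]
        congr 1
        ring
      rw [e1, e3, e4]
      have hXk : X ^ (T - k) ≠ 0 := by positivity
      calc Z * (b ^ la * (b ^ 2) ^ k) * B / X ^ (T - k) * (2 / X * b ^ 2) ^ k *
            (X ^ (T - k) * X ^ k)
          = Z * (b ^ la * (b ^ 2) ^ k) * B * ((2 / X * b ^ 2) ^ k * X ^ k) *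
              (X ^ (T - k) / X ^ (T - k)) := by ring
        _ = Z * (b ^ la * (b ^ 2) ^ k) * B * (2 * b ^ 2) ^ k := by
            rw [e2, div_self hXk, mul_one]
        _ = _ := by ring
    · have e2 : (2 / X * b ^ 4) ^ T * X ^ T = (2 * b ^ 4) ^ T := by
        rw [← mul_pow]
        congr 1
        field_simp
      push_cast
      calc _ = (3 * n * la + 1) * (Z * B) * b ^ 4 * ((2 / X * b ^ 4) ^ T * X ^ T) := by ring
        _ = _ := by rw [e2]
  refine h1.trans ?_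
  have hZB : 0 ≤ Z * B := mul_nonneg hZ (by linarith)
  have hq2 : 2 ≤ 2 * b ^ 4 := by
    have : 1 ≤ b ^ 4 := one_le_pow₀ hb1
    linarith
  have h2 : b ^ la * ∑ k ∈ range T, (2 * b ^ 4) ^ k ≤ b ^ la * (2 * b ^ 4) ^ T :=
    mul_le_mul_of_nonneg_left (st2_geom _ hq2 T) (by positivity)
  calc Z * B * (b ^ la * ∑ k ∈ range T, (2 * b ^ 4) ^ k) +
        (3 * n * la + 1) * (Z * B) * b ^ 4 * (2 * b ^ 4) ^ T
      ≤ Z * B * (b ^ la * (2 * b ^ 4) ^ T) +
        (3 * n * la + 1) * (Z * B) * b ^ 4 * (2 * b ^ 4) ^ T :=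
        add_le_add (mul_le_mul_of_nonneg_left h2 hZB) le_rfl
    _ = Z * B * ((b ^ la + (3 * n * la + 1) * b ^ 4) * (2 * b ^ 4) ^ T) := by ring
    _ ≤ Z * B * b ^ (36 * n * la) :=
        mul_le_mul_of_nonneg_left (st2_num b hb n la hn hnb hla) hZB

end Pool.Agent.H8.KF
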