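import Pool.Agent.H8.KF.Defs

/-! # [KF-ST3] From the homogenised values to the integer power series

`ψ = PowerSeries.map (Int.castRingHom ℝ)`. Since `t ψ(xx) = 1`, with `x2 ≠ 0`:
`ψ (ev (3 n la) (spec n A x2 y2) xx Y) = ev (3 n la) (C (spec ..)) (ψ xx) (ψ Y)
= (ψ xx)^(3 n la) * evt (3 n la) (C (spec ..)) t (t ψ Y)` (`ev_map`, `ev_eq_evt`) and
`spec n A x2 y2 i j = x2^(3n) * evt (3n) (A i j) (1/x2) (y2/x2)` (`ev_eq_evt` again, over `ℝ`).
So its weighted norm is `≤ (2X)^(3 n la) |x2|^(3n) wn(evt ..)`, `|x2|^(3n) ≤ X^(3n(la+1))`, and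
`3 n la + 3 n (la+1) + ee la = TT n la`. -/

namespace Pool.Agent.H8.KF

open Finset Polynomial Pool.Agent.H72.ES

theorem stage3 (n la : ℕ) (A : ℕ → ℕ → ℕ → ℕ → ℤ) (x2 y2 : ℤ) (hx2 : x2 ≠ 0) (X : ℝ)
    (hX : 1 ≤ X) (hx2u : |(x2 : ℝ)| ≤ X ^ (la + 1)) (xx Y : PowerSeries ℤ) (t : PowerSeries ℝ)
    (ht : t * PowerSeries.map (Int.castRingHom ℝ) xx = 1) (ρ : ℝ) (hρ : 0 < ρ)
    (hwx : ∀ K, wn (fun a : ℝ => |a|) ρ K (PowerSeries.map (Int.castRingHom ℝ) xx) ≤ 2 * X)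
    (R : ℝ) (hR : ∀ K, wn (fun a : ℝ => |a|) ρ K (evt (3 * n * la) (fun i j => PowerSeries.C
      (evt (3 * n) (fun p q => ((A i j p q : ℤ) : ℝ)) (1 / (x2 : ℝ)) ((y2 : ℝ) / x2))) t
        (t * PowerSeries.map (Int.castRingHom ℝ) Y)) * X ^ TT n la ≤ R) (K : ℕ) :
    wn (fun a : ℝ => |a|) ρ K (PowerSeries.map (Int.castRingHom ℝ)
      (ev (3 * n * la) (cst (PowerSeries ℤ) (spec n A x2 y2)) xx Y)) * X ^ ee la ≤
        2 ^ (3 * n * la) * R := by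
  have hsm := subMul_abs
  have hρ0 := hρ.le
  have hX0 : 0 < X := by linarith
  set ψ : PowerSeries ℤ →+* PowerSeries ℝ := PowerSeries.map (Int.castRingHom ℝ) with hψ
  have hx2R : (x2 : ℝ) ≠ 0 := Int.cast_ne_zero.2 hx2
  -- the coefficients
  have hspec : ∀ i j, ((spec n A x2 y2 i j : ℤ) : ℝ) = (x2 : ℝ) ^ (3 * n) *
      evt (3 * n) (fun p q => ((A i j p q : ℤ) : ℝ)) (1 / (x2 : ℝ)) ((y2 : ℝ) / x2) := by
    intro i j
    have h1 := ev_map (Int.castRingHom ℝ) (3 * n) (A i j) x2 y2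
    simp only [eq_intCast] at h1
    have h2 := ev_eq_evt (3 * n) (fun p q => ((A i j p q : ℤ) : ℝ)) (x2 : ℝ) (y2 : ℝ)
      (1 / (x2 : ℝ)) (by field_simp)
    unfold spec
    rw [h1, h2]
    congr 2
    field_simp
  set g : ℕ → ℕ → ℝ := fun i j =>
    evt (3 * n) (fun p q => ((A i j p q : ℤ) : ℝ)) (1 / (x2 : ℝ)) ((y2 : ℝ) / x2) with hg
  set E : PowerSeries ℝ := evt (3 * n * la) (fun i j => PowerSeries.C (g i j)) t (t * ψ Y)
    with hE
  have hmain : ψ (ev (3 * n * la) (cst (PowerSeries ℤ) (spec n A x2 y2)) xx Y) =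
      PowerSeries.C ((x2 : ℝ) ^ (3 * n)) * ((ψ xx) ^ (3 * n * la) * E) := by
    rw [ev_map]
    have h1 : (fun i j => ψ (cst (PowerSeries ℤ) (spec n A x2 y2) i j)) =
        fun i j => PowerSeries.C ((x2 : ℝ) ^ (3 * n)) * PowerSeries.C (g i j) := by
      funext i j
      rw [← map_mul, ← hspec i j]
      unfold cst
      rw [map_intCast, map_intCast]
    rw [h1]
    have h2 : ev (3 * n * la) (fun i j => PowerSeries.C ((x2 : ℝ) ^ (3 * n)) *
        PowerSeries.C (g i j)) (ψ xx) (ψ Y) = PowerSeries.C ((x2 : ℝ) ^ (3 * n)) *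
          ev (3 * n * la) (fun i j => PowerSeries.C (g i j)) (ψ xx) (ψ Y) := by
      unfold ev
      rw [mul_sum]
      refine sum_congr rfl fun i _ => ?_
      rw [mul_sum]
      refine sum_congr rfl fun j _ => ?_
      ring
    rw [h2, ev_eq_evt (3 * n * la) (fun i j => PowerSeries.C (g i j)) (ψ xx) (ψ Y) t ht]
  rw [hmain]
  have hb1 : wn (fun a : ℝ => |a|) ρ K (PowerSeries.C ((x2 : ℝ) ^ (3 * n)) *
      ((ψ xx) ^ (3 * n * la) * E)) ≤
      (X ^ (la + 1)) ^ (3 * n) * ((2 * X) ^ (3 * n * la) * wn (fun a : ℝ => |a|) ρ K E) := by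
    refine (wn_mul_le hsm hρ0 K _ _).trans ?_
    rw [wn_C hsm]
    refine mul_le_mul ?_ ?_ (wn_nonneg hsm hρ0 K _) (by positivity)
    · rw [abs_pow]
      exact pow_le_pow_left₀ (abs_nonneg _) hx2u _
    · refine (wn_mul_le hsm hρ0 K _ _).trans ?_
      refine mul_le_mul_of_nonneg_right ?_ (wn_nonneg hsm hρ0 K _)
      exact (wn_pow_le hsm hρ0 K _ _).trans
        (pow_le_pow_left₀ (wn_nonneg hsm hρ0 K _) (hwx K) _)
  have hTT : X ^ TT n la = (X ^ (la + 1)) ^ (3 * n) * X ^ (3 * n * la) * X ^ ee la := by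
    rw [← pow_mul, ← pow_add, ← pow_add]
    congr 1
    unfold TT
    ring
  have hR' := hR K
  calc wn (fun a : ℝ => |a|) ρ K (PowerSeries.C ((x2 : ℝ) ^ (3 * n)) *
        ((ψ xx) ^ (3 * n * la) * E)) * X ^ ee la
      ≤ ((X ^ (la + 1)) ^ (3 * n) * ((2 * X) ^ (3 * n * la) * wn (fun a : ℝ => |a|) ρ K E)) *
          X ^ ee la := mul_le_mul_of_nonneg_right hb1 (by positivity)
    _ = 2 ^ (3 * n * la) * (wn (fun a : ℝ => |a|) ρ K E * X ^ TT n la) := by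
        rw [hTT, mul_pow]
        ring
    _ ≤ 2 ^ (3 * n * la) * R := mul_le_mul_of_nonneg_left hR' (by positivity)

end Pool.Agent.H8.KF
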