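import Pool.Agent.H8.KF.Sieg
import Pool.Agent.H8.KF.Stage1
import Pool.Agent.H8.KF.Stage2
import Pool.Agent.H8.KF.Stage3
import Pool.Agent.H8.KF.NumK
import Pool.Agent.H8.KF.NZ
import Pool.Agent.H8.KF.MultG
import Pool.Agent.H72.ES.TwoC

/-! # The two-point theorem for two curves whose root fields have a common subfield -/

namespace Pool.Agent.H8.KF

open Finset Polynomial Pool.Agent.H72.ES

variable {n Q1 Q2 : ℕ} {f1 f2 : ℤ[X]} {θ1 θ2 : ℝ}

theorem sm_map {S S' : Type*} [CommRing S] [CommRing S'] (ψ : S →+* S') (d1 d2 : ℕ)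
    (A : ℕ → ℕ → ℕ → ℕ → ℤ) (u v : ℕ → ℕ → S) :
    ψ (sm d1 d2 A u v) = sm d1 d2 A (fun i j => ψ (u i j)) (fun p q => ψ (v p q)) := by
  simp [sm, map_sum, map_mul]

/-- a sum over the box of `(p, q)` -/
theorem spec_eq {n la : ℕ} (A : ℕ → ℕ → ℕ → ℕ → ℤ) (hA : Supp n la A) (x2 y2 : ℤ) (i j : ℕ) :
    spec n A x2 y2 i j = ∑ m : Fin (3 * n + 1) × Fin n,
      (x2 ^ (m.1 : ℕ) * y2 ^ (m.2 : ℕ)) * A i j m.1 m.2 := by
  unfold spec ev
  rw [Fintype.sum_prod_type, Finset.sum_range]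
  refine sum_congr rfl fun p _ => ?_
  rw [← Fin.sum_univ_eq_sum_range (fun q => A i j p q * x2 ^ (p : ℕ) * y2 ^ q)]
  have key : ∀ N : ℕ, (∀ q, q < N → ¬ q < n → A i j p q = 0) → (∀ q, q < n → ¬ q < N → A i j p q = 0) →
      ∑ q : Fin N, A i j p q * x2 ^ (p : ℕ) * y2 ^ (q : ℕ) =
      ∑ q : Fin n, x2 ^ (p : ℕ) * y2 ^ (q : ℕ) * A i j p q := by
    intro N h1 h2
    rw [Fin.sum_univ_eq_sum_range (fun q => A i j p q * x2 ^ (p : ℕ) * y2 ^ q),
      Fin.sum_univ_eq_sum_range (fun q => x2 ^ (p : ℕ) * y2 ^ q * A i j p q)]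
    have e1 : ∑ q ∈ range N, A i j p q * x2 ^ (p : ℕ) * y2 ^ q =
        ∑ q ∈ range (max N n), A i j p q * x2 ^ (p : ℕ) * y2 ^ q := by
      refine sum_subset (fun q hq => ?_) (fun q hq hq' => ?_)
      · rw [mem_range] at hq ⊢; omega
      · rw [mem_range] at hq hq'
        rw [h2 q (by omega) hq', zero_mul, zero_mul]
    have e2 : ∑ q ∈ range n, x2 ^ (p : ℕ) * y2 ^ q * A i j p q =
        ∑ q ∈ range (max N n), x2 ^ (p : ℕ) * y2 ^ q * A i j p q := by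
      refine sum_subset (fun q hq => ?_) (fun q hq hq' => ?_)
      · rw [mem_range] at hq ⊢; omega
      · rw [mem_range] at hq hq'
        rw [h1 q (by omega) hq', mul_zero]
    rw [e1, e2]
    exact sum_congr rfl fun q _ => by ring
  apply key
  · intro q _ hq
    by_contra hne
    exact hq (hA i j p q hne).2.2
  · intro q _ hq
    by_contra hne
    have := (hA i j p q hne).2.1
    omega

/-- **Two-point theorem** for two curves with a common overring of rank at most `n² / 3`. -/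
theorem two_joint (hf1 : Irreducible f1) (hf2 : Irreducible f2) (O1 : Ord ℝ n Q1 f1 θ1)
    (O2 : Ord ℝ n Q2 f2 θ2) {ι : Type} [Fintype ι] [Nonempty ι] {G : ℝ} (hG : 1 ≤ G)
    (J : Joint O1 O2 ι G) (hι : 3 * Fintype.card ι ≤ n ^ 2) {F1 F2 : ℕ → ℕ → ℤ}
    (hF1 : Norml n Q1 f1 F1) (hF2 : Norml n Q2 f2 F2) (x1 y1 x2 y2 : ℤ)
    (h1 : ev n F1 x1 y1 = 0) (h2 : ev n F2 x2 y2 = 0)
    (hy1 : |(y1 : ℝ) / x1 - θ1| ≤ 1 / bb n Q1) (hy2 : |(y2 : ℝ) / x2 - θ2| ≤ 1 / bb n Q2)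
    (hx1 : bb n Q1 ^ (20000 * n ^ 5) ≤ |(x1 : ℝ)|)
    (hx2b : (G * bb n Q2) ^ (40000 * n ^ 5) ≤ |(x2 : ℝ)|)
    (hx2 : |(x1 : ℝ)| ^ (2000 * n ^ 4) ≤ |(x2 : ℝ)|) : False := by
  have hn := hF1.hn
  have hQ := hF1.hQ
  have hQ' := hF2.hQ
  have hb1 := one_le_bb hn hQ
  have hb2 := one_le_bb hn hQ'
  have h4b : (4 : ℝ) ≤ bb n Q1 := le_trans (by norm_num) (thousand_le_bb hn hQ)
  set X : ℝ := |(x1 : ℝ)| with hX
  obtain ⟨br1⟩ := exists_branch O1 hF1
  obtain ⟨br2⟩ := exists_branch O2 hF2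
  set b := bb n Q1 with hb
  set B := bb n Q2 with hB
  have hb0 : 0 < b := by linarith
  have hB0 : 0 < B := by linarith
  have hbb : 1 < b := by linarith
  have hbk : ∀ {k l : ℕ}, k ≤ l → b ^ k ≤ b ^ l := fun h => pow_le_pow_right₀ hb1 h
  have hn5 : 1024 ≤ n ^ 5 := by
    calc 1024 = 4 ^ 5 := by norm_num
      _ ≤ n ^ 5 := Nat.pow_le_pow_left hn 5
  have hn4 : 256 ≤ n ^ 4 := by
    calc 256 = 4 ^ 4 := by norm_num
      _ ≤ n ^ 4 := Nat.pow_le_pow_left hn 4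
  have hXb : ∀ k, k ≤ 20000 * n ^ 5 → b ^ k ≤ X := fun k hk => (hbk hk).trans hx1
  have hX1 : 1 < X := lt_of_lt_of_le hbb (by simpa using hXb 1 (by omega))
  have hX0 : 0 < X := by linarith
  -- choice of la
  obtain ⟨la, hla1, hla2⟩ := exists_nat_pow_near (x := |(x2 : ℝ)|)
    ((one_le_pow₀ hX1.le).trans hx2) hX1
  have hla : 2000 * n ^ 4 ≤ la := by
    by_contra hc
    have : X ^ (la + 1) ≤ X ^ (2000 * n ^ 4) := pow_le_pow_right₀ hX1.le (by omega)
    linarith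
  have hnn4 : n ≤ n ^ 4 := Nat.le_self_pow (by norm_num) n
  have hnn5 : n ≤ n ^ 5 := Nat.le_self_pow (by norm_num) n
  have hla8 : 8 * n ≤ la := by omega
  -- the constant of the second curve
  set V : ℝ := G * B with hV
  have hV1 : 1 ≤ V := by
    rw [hV]; nlinarith
  have hBV : B ≤ V := by
    rw [hV]; nlinarith
  have hG0 : 0 < G := by linarith
  have hVX : V ^ (40000 * n ^ 5) ≤ X ^ (la + 1) := hx2b.trans hla2.le
  -- the auxiliary function
  obtain ⟨A, hA0, hAs, hAb, hAv⟩ := sieg O1 O2 hF1 hF2 br1 br2 hG J hι la hla8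
  set Z : ℝ := b ^ (60 * n * la) * (G * B ^ (13 * n)) ^ 4 with hZ
  have hZ0 : 0 ≤ Z := by positivity
  have hGB : 1 ≤ G * B ^ (13 * n) := one_le_mul_of_one_le_of_one_le hG (one_le_pow₀ hb2)
  have hZ1 : 1 ≤ Z := one_le_mul_of_one_le_of_one_le (one_le_pow₀ hb1) (one_le_pow₀ hGB)
  have hGV : G * B ^ (13 * n) ≤ V ^ (13 * n) := by
    rw [hV, mul_pow]
    refine mul_le_mul_of_nonneg_right ?_ (by positivity)
    exact le_self_pow₀ hG (by omega)
  have hZV : Z ≤ b ^ (60 * n * la) * V ^ (52 * n) := by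
    rw [hZ]
    refine mul_le_mul_of_nonneg_left ?_ (by positivity)
    calc (G * B ^ (13 * n)) ^ 4 ≤ (V ^ (13 * n)) ^ 4 := pow_le_pow_left₀ (by positivity) hGV 4
      _ = V ^ (52 * n) := by rw [← pow_mul]; congr 1; ring
  have hAvφ : ∀ k l, k + la * l < TT n la →
      sm (3 * n * la) (3 * n) A (fun i j => O1.φ (bc O1 br1 (3 * n * la) i j k))
        (fun p q => O2.φ (bc O2 br2 (3 * n) p q l)) = 0 := by
    intro k l hkl
    have := congrArg J.φ (hAv k l hkl)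
    rw [sm_map, map_zero] at this
    simpa only [J.φ_J1, J.φ_J2] using this
  -- local series at the first point
  have hx5 : b ^ 5 ≤ X := hXb 5 (by omega)
  obtain ⟨hκ1, hκ1b⟩ := evy_bounds O1 hF1 x1 y1 hx5 hy1
  rw [← hX, ← hb] at hκ1b
  set κ1 : ℤ := evy n F1 x1 y1 with hκ1d
  obtain ⟨Y, hY0, hY⟩ := exists_local n F1 x1 y1 h1
  rw [← hκ1d] at hY
  have hx1ne : x1 ≠ 0 := by
    rintro rfl
    simp at hX
    linarith
  have hx1R : (x1 : ℝ) ≠ 0 := by exact_mod_cast hx1ne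
  have hκ1R : (κ1 : ℝ) ≠ 0 := by exact_mod_cast hκ1
  obtain ⟨t, ht1, ht0, htb⟩ := exists_inv (x1 : ℝ) (κ1 : ℝ) hx1R hκ1R
  rw [← hX] at htb
  set ρ : ℝ := X / (4 * (κ1 : ℝ) ^ 2) with hρd
  have hκsq : 0 < (κ1 : ℝ) ^ 2 := by positivity
  have hρ : 0 < ρ := by positivity
  set ψ := PowerSeries.map (Int.castRingHom ℝ) with hψ
  set xx : PowerSeries ℤ := PowerSeries.C x1 + PowerSeries.C (κ1 ^ 2) * PowerSeries.X with hxx
  have hψx : ψ xx = PowerSeries.C (x1 : ℝ) + PowerSeries.C ((κ1 : ℝ) ^ 2) * PowerSeries.X := by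
    simp [hψ, hxx]
  have ht : t * ψ xx = 1 := by rw [hψx]; exact ht1
  set z := t * ψ Y with hz
  have hτ : ∀ K, wn (fun a : ℝ => |a|) ρ K t ≤ 2 / X := htb
  have h2X : 2 / X ≤ 1 / b ^ 2 := by
    rw [div_le_div_iff₀ hX0 (by positivity)]
    have e1 : b ^ 3 ≤ X := hXb 3 (by omega)
    have e2 : b ^ 3 = b * b ^ 2 := by ring
    nlinarith [show (0:ℝ) < b ^ 2 by positivity]
  have heq : evt n (cst (PowerSeries ℝ) F1) t z = 0 := by
    have e1 := ev_eq_evt n (cst (PowerSeries ℝ) F1) (ψ xx) (ψ Y) t ht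
    have e2 : ev n (cst (PowerSeries ℝ) F1) (ψ xx) (ψ Y) = 0 := by
      rw [← cst_map ψ, ← ev_map, hY, map_zero]
    rw [e2] at e1
    have e3 : ψ xx ≠ 0 := by
      intro h0
      rw [h0, mul_zero] at ht
      exact zero_ne_one ht
    have := (mul_eq_zero.1 e1.symm).resolve_left (pow_ne_zero _ e3)
    exact this
  have hz0 : PowerSeries.constantCoeff z = (y1 : ℝ) / x1 := by
    rw [hz, map_mul, ht0]
    have : PowerSeries.constantCoeff (ψ Y) = (y1 : ℝ) := by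
      rw [← PowerSeries.coeff_zero_eq_constantCoeff_apply, hψ, PowerSeries.coeff_map,
        PowerSeries.coeff_zero_eq_constantCoeff_apply, hY0]
      simp
    rw [this]
    ring
  have hest := est_e O1 hF1 t z ρ hρ (fun K => (hτ K).trans h2X) (by rw [hz0]; exact hy1) heq
  -- weighted norm of x
  have hwx : ∀ K, wn (fun a : ℝ => |a|) ρ K (ψ xx) ≤ 2 * X := by
    intro K
    rw [hψx]
    refine (wn_add_le subMul_abs hρ.le K _ _).trans ?_
    refine (add_le_add (wn_C subMul_abs K _).le (wn_mul_le subMul_abs hρ.le K _ _)).trans ?_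
    rw [wn_C subMul_abs]
    have e1 := wn_X_le (R := ℝ) subMul_abs hρ.le K
    have e2 : |(κ1 : ℝ) ^ 2| = (κ1 : ℝ) ^ 2 := abs_of_pos hκsq
    simp only [e2]
    have e3 : (κ1 : ℝ) ^ 2 * wn (fun a : ℝ => |a|) ρ K PowerSeries.X ≤ (κ1 : ℝ) ^ 2 * ρ :=
      mul_le_mul_of_nonneg_left e1 hκsq.le
    have e4 : (κ1 : ℝ) ^ 2 * ρ = X / 4 := by
      rw [hρd]
      field_simp
    rw [← hX]
    linarith
  -- the second point
  have hVbig : ∀ k, k ≤ 40000 * n ^ 5 → V ^ k ≤ |(x2 : ℝ)| := fun k hk =>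
    (pow_le_pow_right₀ hV1 hk).trans hx2b
  have hx2b5 : B ^ 5 ≤ |(x2 : ℝ)| :=
    (pow_le_pow_left₀ hB0.le hBV 5).trans (hVbig 5 (by omega))
  have hx2ne : x2 ≠ 0 := by
    rintro rfl
    have := hVbig 0 (by omega)
    simp at this
    linarith
  have hx2R : (x2 : ℝ) ≠ 0 := by exact_mod_cast hx2ne
  obtain ⟨hκ2, -⟩ := evy_bounds O2 hF2 x2 y2 hx2b5 hy2
  -- the function of the first point
  set c : ℕ → ℕ → ℝ := fun i j =>
    evt (3 * n) (fun p q => ((A i j p q : ℤ) : ℝ)) (1 / (x2 : ℝ)) ((y2 : ℝ) / x2) with hc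
  have hc0 : ∀ i j, c i j ≠ 0 → i + j ≤ 3 * n * la ∧ j < n := by
    intro i j h
    by_contra hcon
    apply h
    simp only [hc, evt]
    refine sum_eq_zero fun p _ => sum_eq_zero fun q _ => ?_
    have : A i j p q = 0 := by
      by_contra hne
      exact hcon (hAs i j p q hne).1
    rw [this]
    simp
  have hZB : (1 : ℝ) ≤ B ^ (26 * n) := one_le_pow₀ hb2
  have hcM : ∀ i j, |c i j| ≤ Z * B ^ (26 * n) := by
    intro i j
    have hzb : |(y2 : ℝ) / x2| ≤ 2 * (Q2 : ℝ) ^ 2 := by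
      have e1 := O2.φ_le O2.α
      rw [O2.φ_α, Real.norm_eq_abs] at e1
      have e2 := O2.ν_α
      have e3 := nQ_le hn hQ'
      have e4 : |(y2 : ℝ) / x2| ≤ |(y2 : ℝ) / x2 - θ2| + |θ2| := by
        have := abs_add_le ((y2 : ℝ) / x2 - θ2) θ2
        simpa using this
      have e5 : 1 / B ≤ 1 := by rw [div_le_one hB0]; exact hb2
      have e6 : (1 : ℝ) ≤ (Q2 : ℝ) ^ 2 := one_le_pow₀ (one_le_QR hn hQ')
      linarith
    have htb' : |1 / (x2 : ℝ)| ≤ 1 := by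
      rw [abs_div, abs_one, div_le_one (abs_pos.2 hx2R)]
      have := hVbig 0 (by omega)
      simpa using this
    have h2Q : (1 : ℝ) ≤ 2 * (Q2 : ℝ) ^ 2 := by
      have e6 : (1 : ℝ) ≤ (Q2 : ℝ) ^ 2 := one_le_pow₀ (one_le_QR hn hQ')
      linarith
    have hterm : ∀ p ∈ range (3 * n + 1), |∑ q ∈ range (3 * n + 1 - p),
        ((A i j p q : ℤ) : ℝ) * (1 / (x2 : ℝ)) ^ (3 * n - p - q) * ((y2 : ℝ) / x2) ^ q| ≤
        (3 * n + 1) * (Z * (2 * (Q2 : ℝ) ^ 2) ^ n) := by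
      intro p _
      refine (abs_sum_le_sum_abs _ _).trans ?_
      have e1 : ∀ q ∈ range (3 * n + 1 - p),
          |((A i j p q : ℤ) : ℝ) * (1 / (x2 : ℝ)) ^ (3 * n - p - q) * ((y2 : ℝ) / x2) ^ q| ≤
          Z * (2 * (Q2 : ℝ) ^ 2) ^ n := by
        intro q _
        by_cases hne : A i j p q = 0
        · rw [hne]; simp; positivity
        · have hq := (hAs i j p q hne).2.2
          rw [abs_mul, abs_mul, abs_pow, abs_pow]
          have e2 : |1 / (x2 : ℝ)| ^ (3 * n - p - q) ≤ 1 := pow_le_one₀ (abs_nonneg _) htb'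
          have e3 : |(y2 : ℝ) / x2| ^ q ≤ (2 * (Q2 : ℝ) ^ 2) ^ n :=
            (pow_le_pow_left₀ (abs_nonneg _) hzb q).trans (pow_le_pow_right₀ h2Q hq.le)
          calc |((A i j p q : ℤ) : ℝ)| * |1 / (x2 : ℝ)| ^ (3 * n - p - q) * |(y2 : ℝ) / x2| ^ q
              ≤ Z * 1 * (2 * (Q2 : ℝ) ^ 2) ^ n := by
                refine mul_le_mul (mul_le_mul (hAb i j p q) e2 (by positivity) hZ0) e3
                  (by positivity) (by positivity)
            _ = _ := by ring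
      refine (sum_le_card_nsmul _ _ _ e1).trans ?_
      rw [card_range, nsmul_eq_mul]
      refine mul_le_mul_of_nonneg_right ?_ (by positivity)
      exact_mod_cast (by omega : 3 * n + 1 - p ≤ 3 * n + 1)
    have hsum : |c i j| ≤ (3 * n + 1) * ((3 * n + 1) * (Z * (2 * (Q2 : ℝ) ^ 2) ^ n)) := by
      simp only [hc, evt]
      refine (abs_sum_le_sum_abs _ _).trans ((sum_le_card_nsmul _ _ _ hterm).trans ?_)
      rw [card_range, nsmul_eq_mul]
      push_cast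
      exact le_rfl
    refine hsum.trans ?_
    have e1 : (3 * (n : ℝ) + 1) ≤ (Q2 : ℝ) ^ 2 := by
      have e2 := n_leR hn hQ'
      have e3 := sixteen_leR hn hQ'
      nlinarith
    have e4 : (2 * (Q2 : ℝ) ^ 2) ^ n ≤ (Q2 : ℝ) ^ (2 * n + 1) := by
      rw [mul_pow, ← pow_mul, pow_succ, mul_comm]
      exact mul_le_mul_of_nonneg_left (two_pow_leR hQ') (by positivity)
    calc (3 * (n : ℝ) + 1) * ((3 * n + 1) * (Z * (2 * (Q2 : ℝ) ^ 2) ^ n))
        ≤ (Q2 : ℝ) ^ 2 * ((Q2 : ℝ) ^ 2 * (Z * (Q2 : ℝ) ^ (2 * n + 1))) := by gcongr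
      _ = Z * (Q2 : ℝ) ^ (2 * n + 5) := by ring
      _ ≤ Z * B := mul_le_mul_of_nonneg_left (Qpow_le_bb hn hQ' (by nlinarith)) hZ0
      _ ≤ Z * B ^ (26 * n) := mul_le_mul_of_nonneg_left (le_self_pow₀ hb2 (by omega)) hZ0
  have hlow := stage1 O1 O2 hF1 hF2 br1 br2 la hla8 A hAs Z hAb hAvφ x2 y2 h2 hy2 hx2b5 X hX1.le
    hla1
  have hst2 := stage2 O1 hF1 br1 la hla8 c hc0 Z (B ^ (26 * n)) hZ0 hZB hcM X
    (hXb 6 (by omega)) hlow t z ρ hρ hτ hest heq
  have hst3 := stage3 n la A x2 y2 hx2ne X hX1.le hla2.le xx Y t ht ρ hρ hwx _ hst2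
  -- the low coefficients vanish
  set hser : PowerSeries ℤ := ev (3 * n * la) (cst (PowerSeries ℤ) (spec n A x2 y2)) xx Y
    with hhser
  obtain ⟨K, hK⟩ : ∃ K, K = la / (16 * n) := ⟨_, rfl⟩
  have hKn : 16 * n * K ≤ la := by rw [hK]; exact Nat.mul_div_le la (16 * n)
  have hKn' : la < 16 * n * (K + 1) := by
    rw [hK]
    exact Nat.lt_mul_div_succ la (by omega)
  have hW : (V ^ (80 * n)) ^ 8 ≤ X ^ la := by
    have e1 : ((V ^ (80 * n)) ^ 8) ^ 2 ≤ (X ^ la) ^ 2 := by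
      calc ((V ^ (80 * n)) ^ 8) ^ 2 = V ^ (1280 * n) := by
            rw [← pow_mul, ← pow_mul]; congr 1; ring
        _ ≤ V ^ (40000 * n ^ 5) := pow_le_pow_right₀ hV1 (by omega)
        _ ≤ X ^ (la + 1) := hVX
        _ ≤ X ^ (2 * la) := pow_le_pow_right₀ hX1.le (by omega)
        _ = (X ^ la) ^ 2 := by rw [← pow_mul]; congr 1; ring
    exact le_of_sq_le_sq e1 (by positivity)
  have hRle : 2 ^ (3 * n * la) * (Z * B ^ (26 * n) * b ^ (36 * n * la)) ≤
      b ^ (98 * n * la) * V ^ (80 * n) := by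
    have e1 : (2 : ℝ) ^ (3 * n * la) ≤ b ^ (n * la) := by
      calc (2 : ℝ) ^ (3 * n * la) = (2 ^ 3) ^ (n * la) := by rw [← pow_mul]; congr 1; ring
        _ ≤ b ^ (n * la) := by
          refine pow_le_pow_left₀ (by norm_num) ?_ _
          exact le_trans (by norm_num) (thousand_le_bb hn hQ)
    have e2 : B ^ (26 * n) ≤ V ^ (26 * n) := pow_le_pow_left₀ hB0.le hBV _
    calc 2 ^ (3 * n * la) * (Z * B ^ (26 * n) * b ^ (36 * n * la))
        ≤ b ^ (n * la) * ((b ^ (60 * n * la) * V ^ (52 * n)) * V ^ (26 * n) *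
          b ^ (36 * n * la)) := by gcongr
      _ = b ^ (n * la + 60 * n * la + 36 * n * la) * V ^ (52 * n + 26 * n) := by
          rw [pow_add, pow_add, pow_add]; ring
      _ ≤ b ^ (98 * n * la) * V ^ (80 * n) := by
          refine mul_le_mul (hbk ?_) (pow_le_pow_right₀ hV1 (by omega)) (by positivity)
            (by positivity)
          have : n * la + 60 * n * la + 36 * n * la = 97 * (n * la) := by ring
          rw [this, mul_assoc]
          exact Nat.mul_le_mul_right _ (by norm_num)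
  have hvan : ∀ k ≤ K, PowerSeries.coeff k hser = 0 := by
    intro k hk
    have e1 := coeff_le_wn subMul_abs hρ.le (le_refl k) (ψ hser)
    have e2 : PowerSeries.coeff k (ψ hser) = ((PowerSeries.coeff k hser : ℤ) : ℝ) := by
      rw [hψ, PowerSeries.coeff_map]
      simp
    simp only [e2] at e1
    have e3 : |((PowerSeries.coeff k hser : ℤ) : ℝ)| * ρ ^ k * X ^ ee la ≤
        b ^ (98 * n * la) * V ^ (80 * n) :=
      (mul_le_mul_of_nonneg_right e1 (by positivity)).trans ((hst3 k).trans hRle)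
    have e4 : |((PowerSeries.coeff k hser : ℤ) : ℝ)| < 1 := by
      refine low_lt_one hn hQ X hx1 la k hla ((Nat.mul_le_mul_left _ hk).trans hKn) _
        (abs_nonneg _) |(κ1 : ℝ)| (abs_pos.2 hκ1R) hκ1b (V ^ (80 * n)) (one_le_pow₀ hV1) hW ?_
      rw [sq_abs, ← hρd, ← hb]
      exact e3
    have e5 : |PowerSeries.coeff k hser| < 1 := by exact_mod_cast e4
    exact Int.abs_lt_one_iff.1 e5
  -- h is not the zero array
  obtain ⟨i0, j0, p0, q0, hm0⟩ := hA0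
  have hne : ∃ i j, ∑ m : Fin (3 * n + 1) × Fin n,
      (x2 ^ (m.1 : ℕ) * y2 ^ (m.2 : ℕ)) * A i j m.1 m.2 ≠ 0 := by
    refine ⟨i0, j0, ?_⟩
    rw [← spec_eq A hAs x2 y2 i0 j0]
    refine nz hF2 hf2 x2 y2 hx2ne h2 hκ2 (3 * n) (A i0 j0) (fun p q h => (hAs i0 j0 p q h).2)
      ⟨p0, q0, hm0⟩ Z (hAb i0 j0) ?_
    have e0 : (((3 * n : ℕ) : ℝ) + 1) * (Q2 : ℝ) ^ (3 * n + 2) ≤ V := by
      refine le_trans ?_ hBV
      have e2 := n_leR hn hQ'
      have e3 := sixteen_leR hn hQ'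
      have e1 : (((3 * n : ℕ) : ℝ) + 1) ≤ (Q2 : ℝ) ^ 2 := by
        push_cast
        nlinarith
      calc (((3 * n : ℕ) : ℝ) + 1) * (Q2 : ℝ) ^ (3 * n + 2) ≤
            (Q2 : ℝ) ^ 2 * (Q2 : ℝ) ^ (3 * n + 2) := by gcongr
        _ = (Q2 : ℝ) ^ (3 * n + 4) := by rw [← pow_add]; congr 1; ring
        _ ≤ B := Qpow_le_bb hn hQ' (by nlinarith)
    have e1 : ((((3 * n : ℕ) : ℝ) + 1) * (Q2 : ℝ) ^ (3 * n + 2) * Z) ^ n ≤
        b ^ (60 * n ^ 2 * la) * V ^ (53 * n ^ 2) := by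
      have hnn2 : n ≤ n ^ 2 := Nat.le_self_pow (by norm_num) n
      calc ((((3 * n : ℕ) : ℝ) + 1) * (Q2 : ℝ) ^ (3 * n + 2) * Z) ^ n
          ≤ (V * (b ^ (60 * n * la) * V ^ (52 * n))) ^ n := by gcongr
        _ = b ^ (60 * n * la * n) * V ^ (n + 52 * n * n) := by
            clear_value V
            rw [mul_pow, mul_pow, ← pow_mul, ← pow_mul, pow_add]; ring
        _ ≤ b ^ (60 * n ^ 2 * la) * V ^ (53 * n ^ 2) := by
            refine mul_le_mul (hbk (le_of_eq (by ring))) (pow_le_pow_right₀ hV1 ?_)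
              (by positivity) (by positivity)
            nlinarith
    refine lt_of_le_of_lt e1 (lt_of_lt_of_le ?_ hla1)
    have e2 : (b ^ (60 * n ^ 2 * la) * V ^ (53 * n ^ 2)) ^ 2 < (X ^ la) ^ 2 := by
      have hn25 : n ^ 2 ≤ n ^ 5 := Nat.pow_le_pow_right (by omega) (by norm_num)
      have e4 : V ^ (106 * n ^ 2) ≤ X ^ la := by
        have e5 : (V ^ (106 * n ^ 2)) ^ 2 ≤ (X ^ la) ^ 2 := by
          calc (V ^ (106 * n ^ 2)) ^ 2 = V ^ (212 * n ^ 2) := by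
                rw [← pow_mul]; congr 1; ring
            _ ≤ V ^ (40000 * n ^ 5) := pow_le_pow_right₀ hV1 (by omega)
            _ ≤ X ^ (la + 1) := hVX
            _ ≤ X ^ (2 * la) := pow_le_pow_right₀ hX1.le (by omega)
            _ = (X ^ la) ^ 2 := by rw [← pow_mul]; congr 1; ring
        exact le_of_sq_le_sq e5 (by positivity)
      have e6 : b ^ (120 * n ^ 2 * la) < X ^ la := by
        calc b ^ (120 * n ^ 2 * la) < b ^ (20000 * n ^ 5 * la) := by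
              apply pow_lt_pow_right₀ hbb
              have : 0 < la := by omega
              refine Nat.mul_lt_mul_of_pos_right ?_ this
              omega
          _ = (b ^ (20000 * n ^ 5)) ^ la := by rw [pow_mul]
          _ ≤ X ^ la := pow_le_pow_left₀ (by positivity) hx1 _
      calc (b ^ (60 * n ^ 2 * la) * V ^ (53 * n ^ 2)) ^ 2
          = b ^ (120 * n ^ 2 * la) * V ^ (106 * n ^ 2) := by
            rw [mul_pow, ← pow_mul, ← pow_mul]; congr 2 <;> ring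
        _ ≤ b ^ (120 * n ^ 2 * la) * X ^ la := by gcongr
        _ < X ^ la * X ^ la := mul_lt_mul_of_pos_right e6 (by positivity)
        _ = (X ^ la) ^ 2 := by ring
    exact lt_of_pow_lt_pow_left₀ 2 (by positivity) e2
  -- multiplicity estimate
  have hspec : spec n A x2 y2 = fun i j => ∑ m : Fin (3 * n + 1) × Fin n,
      (x2 ^ (m.1 : ℕ) * y2 ^ (m.2 : ℕ)) * A i j m.1 m.2 := by
    funext i j
    exact spec_eq A hAs x2 y2 i j
  have hmult := multG hF1 hf1 x1 y1 hx1ne hκ1 Y hY0 hY (3 * n * la)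
    (ι := Fin (3 * n + 1) × Fin n) ((3 * n + 1) * n) (by simp)
    (fun m i j => A i j m.1 m.2) (fun m i j h => (hAs i j m.1 m.2 h).1) Z
    (fun m i j => hAb i j m.1 m.2) (fun m => x2 ^ (m.1 : ℕ) * y2 ^ (m.2 : ℕ)) hne K (by
      intro k hk
      have e1 := hvan k hk
      rw [hhser, hspec] at e1
      exact e1)
  rw [← hX] at hmult
  exact final_contraG hn hQ X hx1 la K hla hKn' V Z hV1 hVX hZ0 hZV hmult

end Pool.Agent.H8.KF
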