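import Pool.Agent.H8.KF.Two
import Pool.Agent.H8.KF.JointEx
import Pool.Agent.H8.KF.FieldFac
import Pool.Agent.H72.ES.Normalize

/-! # All exceptional points over a fixed number field are bounded -/

namespace Pool.Agent.H8.KF

open Finset Polynomial Pool.Agent.H72.ES

/-- an exceptional (very large) integer point on a curve whose root field contains `k` -/
def ExcK (k : Type) [Field k] [NumberField k] (τ : k →+* ℝ) (n Q : ℕ) (f : ℤ[X]) (θ : ℝ)
    (F : ℕ → ℕ → ℤ) (x y : ℤ) : Prop :=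
  Norml n Q f F ∧ Irreducible f ∧ aeval θ f = 0 ∧ NFac k τ n f θ ∧ ev n F x y = 0 ∧
    |(y : ℝ) / x - θ| ≤ 1 / bb n Q ∧ bb n Q ^ (240000 * n ^ 5) ≤ |(x : ℝ)|

theorem excK_bound (k : Type) [Field k] [NumberField k] (hk : 3 ≤ Module.finrank ℚ k)
    (n : ℕ) (τ : k →+* ℝ) :
    ∃ C : ℝ, ∀ Q f θ F x y, ExcK k τ n Q f θ F x y → |(x : ℝ)| ≤ C := by
  classical
  obtain ⟨C0, hC0, hjoint⟩ := exists_joint k
  by_cases hex : ∃ Q f θ F x y, ExcK k τ n Q f θ F x y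
  · obtain ⟨Q1, f1, θ1, F1, x1, y1, hN1, hf1, hr1, hg1, hz1, hn1, hb1⟩ := hex
    refine ⟨max (|(x1 : ℝ)| ^ (2000 * n ^ 4)) (C0 ^ (120000 * n ^ 5)), ?_⟩
    intro Q2 f2 θ2 F2 x2 y2 h2
    obtain ⟨hN2, hf2, hr2, hg2, hz2, hn2, hb2⟩ := h2
    by_contra hcon
    push Not at hcon
    have hc1 := (le_max_left _ _).trans hcon.le
    have hc2 := (le_max_right _ _).trans hcon.le
    have hn := hN1.hn
    obtain ⟨hm1, hd1, hco1⟩ := hN1.lead_props
    obtain ⟨hm2, hd2, hco2⟩ := hN2.lead_props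
    obtain ⟨O1, O2, ι, hι, hne, hcard, ⟨J⟩⟩ := hjoint n Q1 Q2 f1 f2 θ1 θ2 τ hn hN1.hQ hN2.hQ hm1
      hd1 hco1 hf1 hr1 hm2 hd2 hco2 hf2 hr2 hg1 hg2
    have hB1 := one_le_bb hn hN1.hQ
    have hB2 := one_le_bb hn hN2.hQ
    set b1 := bb n Q1 with hb1d
    set b2 := bb n Q2 with hb2d
    have hG : 1 ≤ C0 * b1 * b2 :=
      one_le_mul_of_one_le_of_one_le (one_le_mul_of_one_le_of_one_le hC0 hB1) hB2
    have h3 : 3 * Fintype.card ι ≤ n ^ 2 := by
      rw [← hcard, mul_comm]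
      exact Nat.mul_le_mul_left _ hk
    have hX1 : 1 ≤ |(x1 : ℝ)| := (one_le_pow₀ hB1).trans hb1
    have hX12 : |(x1 : ℝ)| ≤ |(x2 : ℝ)| := by
      refine le_trans ?_ hc1
      have : 2000 * n ^ 4 ≠ 0 := by
        have : 0 < n ^ 4 := by positivity
        omega
      exact le_self_pow₀ hX1 this
    have hkey : (C0 * b1 * b2 * b2) ^ (40000 * n ^ 5) ≤ |(x2 : ℝ)| := by
      have e1 : ((C0 * b1 * b2 * b2) ^ (40000 * n ^ 5)) ^ 3 ≤ |(x2 : ℝ)| ^ 3 := by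
        calc ((C0 * b1 * b2 * b2) ^ (40000 * n ^ 5)) ^ 3
            = C0 ^ (120000 * n ^ 5) * b1 ^ (120000 * n ^ 5) * b2 ^ (240000 * n ^ 5) := by
              rw [← pow_mul, mul_pow, mul_pow, mul_pow]
              have e2 : b2 ^ (240000 * n ^ 5) = b2 ^ (40000 * n ^ 5 * 3) * b2 ^ (40000 * n ^ 5 * 3) := by
                rw [← pow_add]; congr 1; ring
              have e3 : 40000 * n ^ 5 * 3 = 120000 * n ^ 5 := by ring
              rw [e2, e3]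
              ring
          _ ≤ |(x2 : ℝ)| * |(x2 : ℝ)| * |(x2 : ℝ)| := by
              have e4 : b1 ^ (120000 * n ^ 5) ≤ |(x2 : ℝ)| :=
                ((pow_le_pow_right₀ hB1 (by nlinarith [Nat.zero_le (n ^ 5)])).trans hb1).trans hX12
              gcongr
          _ = |(x2 : ℝ)| ^ 3 := by ring
      exact le_of_pow_le_pow_left₀ (by norm_num) (abs_nonneg _) e1
    have hx1' : b1 ^ (20000 * n ^ 5) ≤ |(x1 : ℝ)| :=
      (pow_le_pow_right₀ hB1 (by nlinarith [Nat.zero_le (n ^ 5)])).trans hb1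
    exact two_joint hf1 hf2 O1 O2 hG J h3 hN1 hN2 x1 y1 x2 y2 hz1 hz2 hn1 hn2 hx1' hkey hc1
  · refine ⟨0, fun Q f θ F x y h => ?_⟩
    exact absurd ⟨Q, f, θ, F, x, y, h⟩ hex

/-- all exceptional points are bounded -/
theorem excK_bound_all (k : Type) [Field k] [NumberField k] (hk : 3 ≤ Module.finrank ℚ k)
    (n : ℕ) : ∃ C : ℝ, 0 ≤ C ∧ ∀ (τ : k →+* ℝ) Q f θ F x y, ExcK k τ n Q f θ F x y →
      |(x : ℝ)| ≤ C := by
  classical
  choose C hC using excK_bound k hk n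
  refine ⟨∑ τ : k →+* ℝ, |C τ|, sum_nonneg fun _ _ => abs_nonneg _, ?_⟩
  intro τ Q f θ F x y h
  refine (hC τ Q f θ F x y h).trans ((le_abs_self _).trans ?_)
  exact single_le_sum (f := fun τ => |C τ|) (fun _ _ => abs_nonneg _) (mem_univ τ)

end Pool.Agent.H8.KF
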